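import Mathlib

set_option autoImplicit false

/-! A Lorentz metric on the configuration space whose cones only allow positive crossings. -/

namespace Pool.Agent.H190Z.Lor

open Finset Complex

variable {n : ℕ}

/-- ordered configurations in the open unit disc -/
def conf (n : ℕ) : Set (Fin n → ℂ) := {f | Function.Injective f ∧ ∀ m, ‖f m‖ < 1}

noncomputable def RE (m : Fin n) : (Fin n → ℂ) →L[ℝ] ℝ :=
  Complex.reCLM.comp (ContinuousLinearMap.proj (R := ℝ) (φ := fun _ : Fin n => ℂ) m)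

noncomputable def IM (m : Fin n) : (Fin n → ℂ) →L[ℝ] ℝ :=
  Complex.imCLM.comp (ContinuousLinearMap.proj (R := ℝ) (φ := fun _ : Fin n => ℂ) m)

@[simp] theorem RE_apply (m : Fin n) (w : Fin n → ℂ) : RE m w = (w m).re := rfl
@[simp] theorem IM_apply (m : Fin n) (w : Fin n → ℂ) : IM m w = (w m).im := rfl

noncomputable def uu (a b : Fin n) (x : Fin n → ℂ) : ℂ := (x a - x b)⁻¹

noncomputable def thL (a b : Fin n) (x : Fin n → ℂ) : (Fin n → ℂ) →L[ℝ] ℝ :=
  (uu a b x).re • (IM a - IM b) + (uu a b x).im • (RE a - RE b)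

noncomputable def psi (a b : Fin n) (x : Fin n → ℂ) : ℝ :=
  Real.smoothTransition (-2 * ((x a).im - (x b).im) * (uu a b x).im - 1)

noncomputable def NN (x : Fin n → ℂ) : ℝ := ∑ m, ((x m).re ^ 2 + (x m).im ^ 2)

noncomputable def a0L (x : Fin n → ℂ) : (Fin n → ℂ) →L[ℝ] ℝ :=
  ∑ m, ((x m).re • IM m - (x m).im • RE m)

noncomputable def eta (n : ℕ) : ℝ := (1 / (n : ℝ)) ^ 4

noncomputable def eps (n : ℕ) : ℝ := eta n ^ 2 * (1 / (n : ℝ)) ^ 3

noncomputable def alL (x : Fin n → ℂ) : (Fin n → ℂ) →L[ℝ] ℝ :=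
  eta n • a0L x + ∑ a, ∑ b, psi a b x • thL a b x

noncomputable def SS (x : Fin n → ℂ) : ℝ := eta n * NN x + ∑ a, ∑ b, psi a b x

noncomputable def sqL (L : (Fin n → ℂ) →L[ℝ] ℝ) : (Fin n → ℂ) →L[ℝ] (Fin n → ℂ) →L[ℝ] ℝ :=
  L.smulRight L

@[simp] theorem sqL_apply (L : (Fin n → ℂ) →L[ℝ] ℝ) (v w : Fin n → ℂ) : sqL L v w = L v * L w := by
  simp [sqL]

noncomputable def ipL (n : ℕ) : (Fin n → ℂ) →L[ℝ] (Fin n → ℂ) →L[ℝ] ℝ :=
  ∑ m, (sqL (RE m) + sqL (IM m))

noncomputable def gL (x : Fin n → ℂ) : (Fin n → ℂ) →L[ℝ] (Fin n → ℂ) →L[ℝ] ℝ :=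
  (eps n * NN x) • ipL n + ∑ a, ∑ b, psi a b x • sqL (alL x - SS x • thL a b x) - sqL (alL x)

noncomputable def TT (x : Fin n → ℂ) : Fin n → ℂ := fun m => I * x m

theorem thL_apply (a b : Fin n) (x w : Fin n → ℂ) :
    thL a b x w = ((w a - w b) * (x a - x b)⁻¹).im := by
  simp only [thL, uu, _root_.add_apply, _root_.smul_apply,
    _root_.sub_apply, IM_apply, RE_apply, smul_eq_mul, mul_im, sub_re, sub_im]
  ring

theorem a0L_apply (x w : Fin n → ℂ) :
    a0L x w = ∑ m, ((x m).re * (w m).im - (x m).im * (w m).re) := by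
  simp [a0L]

theorem alL_apply (x w : Fin n → ℂ) :
    alL x w = eta n * a0L x w + ∑ a, ∑ b, psi a b x * thL a b x w := by
  simp [alL]

theorem ipL_apply (v w : Fin n → ℂ) :
    ipL n v w = ∑ m, ((v m).re * (w m).re + (v m).im * (w m).im) := by
  simp [ipL]

theorem gL_apply (x v w : Fin n → ℂ) :
    gL x v w = eps n * NN x * ipL n v w +
      ∑ a, ∑ b, psi a b x * ((alL x v - SS x * thL a b x v) * (alL x w - SS x * thL a b x w)) -
      alL x v * alL x w := by
  simp [gL]

/-! ### smoothness -/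

theorem cd_re (m : Fin n) : ContDiff ℝ ((⊤ : ℕ∞) : WithTop ℕ∞) fun x : Fin n → ℂ => (x m).re :=
  (RE m).contDiff

theorem cd_im (m : Fin n) : ContDiff ℝ ((⊤ : ℕ∞) : WithTop ℕ∞) fun x : Fin n → ℂ => (x m).im :=
  (IM m).contDiff

theorem cd_uu (a b : Fin n) : ContDiffOn ℝ ((⊤ : ℕ∞) : WithTop ℕ∞) (uu a b) (conf n) := by
  by_cases h : a = b
  · subst h
    have : uu a a = fun _ : Fin n → ℂ => (0 : ℂ) := by
      funext x
      simp [uu]
    rw [this]
    exact contDiffOn_const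
  · refine ContDiffOn.inv ?_ ?_
    · exact ((contDiff_apply ℝ ℂ a).sub (contDiff_apply ℝ ℂ b)).contDiffOn
    · intro x hx h0
      exact h (hx.1 (sub_eq_zero.mp h0))

theorem cd_uure (a b : Fin n) :
    ContDiffOn ℝ ((⊤ : ℕ∞) : WithTop ℕ∞) (fun x => (uu a b x).re) (conf n) :=
  Complex.reCLM.contDiff.comp_contDiffOn (cd_uu a b)

theorem cd_uuim (a b : Fin n) :
    ContDiffOn ℝ ((⊤ : ℕ∞) : WithTop ℕ∞) (fun x => (uu a b x).im) (conf n) :=
  Complex.imCLM.contDiff.comp_contDiffOn (cd_uu a b)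

theorem cd_thL (a b : Fin n) : ContDiffOn ℝ ((⊤ : ℕ∞) : WithTop ℕ∞) (thL a b) (conf n) :=
  ((cd_uure a b).smul contDiffOn_const).add ((cd_uuim a b).smul contDiffOn_const)

theorem cd_psi (a b : Fin n) : ContDiffOn ℝ ((⊤ : ℕ∞) : WithTop ℕ∞) (psi a b) (conf n) :=
  Real.smoothTransition.contDiff.comp_contDiffOn
    (((contDiffOn_const.mul ((cd_im a).sub (cd_im b)).contDiffOn).mul (cd_uuim a b)).sub
      contDiffOn_const)

theorem cd_NN : ContDiff ℝ ((⊤ : ℕ∞) : WithTop ℕ∞) (NN : (Fin n → ℂ) → ℝ) :=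
  ContDiff.sum fun m _ => ((cd_re m).pow 2).add ((cd_im m).pow 2)

theorem cd_a0L : ContDiff ℝ ((⊤ : ℕ∞) : WithTop ℕ∞) (a0L : (Fin n → ℂ) → _) :=
  ContDiff.sum fun m _ => ((cd_re m).smul contDiff_const).sub ((cd_im m).smul contDiff_const)

theorem cd_alL : ContDiffOn ℝ ((⊤ : ℕ∞) : WithTop ℕ∞) (alL : (Fin n → ℂ) → _) (conf n) :=
  (cd_a0L.contDiffOn.const_smul _).add
    (ContDiffOn.sum fun a _ => ContDiffOn.sum fun b _ => (cd_psi a b).smul (cd_thL a b))

theorem cd_SS : ContDiffOn ℝ ((⊤ : ℕ∞) : WithTop ℕ∞) (SS : (Fin n → ℂ) → ℝ) (conf n) :=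
  (contDiffOn_const.mul cd_NN.contDiffOn).add
    (ContDiffOn.sum fun a _ => ContDiffOn.sum fun b _ => cd_psi a b)

theorem cd_gL : ContDiffOn ℝ ((⊤ : ℕ∞) : WithTop ℕ∞) (gL : (Fin n → ℂ) → _) (conf n) := by
  rw [contDiffOn_clm_apply]
  intro v
  rw [contDiffOn_clm_apply]
  intro w
  simp only [gL_apply]
  have h1 : ∀ v : Fin n → ℂ, ContDiffOn ℝ ((⊤ : ℕ∞) : WithTop ℕ∞) (fun x => alL x v) (conf n) :=
    fun v => cd_alL.clm_apply contDiffOn_const
  have h2 : ∀ a b, ∀ v : Fin n → ℂ,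
      ContDiffOn ℝ ((⊤ : ℕ∞) : WithTop ℕ∞) (fun x => thL a b x v) (conf n) :=
    fun a b v => (cd_thL a b).clm_apply contDiffOn_const
  exact (((contDiffOn_const.mul cd_NN.contDiffOn).mul contDiffOn_const).add
    (ContDiffOn.sum fun a _ => ContDiffOn.sum fun b _ =>
      (cd_psi a b).mul (((h1 v).sub (cd_SS.mul (h2 a b v))).mul
        ((h1 w).sub (cd_SS.mul (h2 a b w)))))).sub ((h1 v).mul (h1 w))

theorem cont_TT : Continuous (TT : (Fin n → ℂ) → _) := by
  unfold TT
  fun_prop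

/-! ### symmetry and invariance -/

theorem gL_symm (x v w : Fin n → ℂ) : gL x v w = gL x w v := by
  rw [gL_apply, gL_apply, ipL_apply, ipL_apply]
  congr 1
  · congr 1
    · congr 1
      exact sum_congr rfl fun m _ => by ring
    · exact sum_congr rfl fun a _ => sum_congr rfl fun b _ => by ring
  · ring

theorem sum2 (ρ : Equiv.Perm (Fin n)) (F : Fin n → Fin n → ℝ) :
    ∑ a, ∑ b, F (ρ a) (ρ b) = ∑ a, ∑ b, F a b := by
  rw [← Equiv.sum_comp ρ (fun a => ∑ b, F a b)]
  exact sum_congr rfl fun a _ => Equiv.sum_comp ρ (fun b => F (ρ a) b)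

theorem gL_perm (ρ : Equiv.Perm (Fin n)) (x v w : Fin n → ℂ) :
    gL (fun m => x (ρ m)) (fun m => v (ρ m)) (fun m => w (ρ m)) = gL x v w := by
  have hth : ∀ a b (w : Fin n → ℂ),
      thL a b (fun m => x (ρ m)) (fun m => w (ρ m)) = thL (ρ a) (ρ b) x w := by
    intro a b w
    rw [thL_apply, thL_apply]
  have hps : ∀ a b, psi a b (fun m => x (ρ m)) = psi (ρ a) (ρ b) x := fun a b => rfl
  have hN : NN (fun m => x (ρ m)) = NN x :=
    Equiv.sum_comp ρ (fun m => (x m).re ^ 2 + (x m).im ^ 2)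
  have hS : SS (fun m => x (ρ m)) = SS x := by
    unfold SS
    rw [hN]
    simp only [hps]
    rw [sum2 ρ (fun a b => psi a b x)]
  have hal : ∀ w : Fin n → ℂ, alL (fun m => x (ρ m)) (fun m => w (ρ m)) = alL x w := by
    intro w
    rw [alL_apply, alL_apply, a0L_apply, a0L_apply,
      Equiv.sum_comp ρ (fun m => (x m).re * (w m).im - (x m).im * (w m).re)]
    simp only [hps, hth]
    rw [sum2 ρ (fun a b => psi a b x * thL a b x w)]
  rw [gL_apply, gL_apply, ipL_apply, ipL_apply, hN, hS, hal, hal,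
    Equiv.sum_comp ρ (fun m => (v m).re * (w m).re + (v m).im * (w m).im)]
  simp only [hps, hth]
  rw [sum2 ρ (fun a b => psi a b x *
    ((alL x v - SS x * thL a b x v) * (alL x w - SS x * thL a b x w)))]

/-! ### signature -/

theorem psi_nonneg (a b : Fin n) (x : Fin n → ℂ) : 0 ≤ psi a b x := Real.smoothTransition.nonneg _

theorem psi_self (a : Fin n) (x : Fin n → ℂ) : psi a a x = 0 :=
  Real.smoothTransition.zero_of_nonpos (by simp)

theorem psi_zero (a b : Fin n) (x : Fin n → ℂ)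
    (h : ((x a).im - (x b).im) ^ 2 ≤ ((x a).re - (x b).re) ^ 2) : psi a b x = 0 := by
  apply Real.smoothTransition.zero_of_nonpos
  simp only [uu, inv_im, normSq_apply, sub_re, sub_im]
  set p := (x a).re - (x b).re
  set q := (x a).im - (x b).im
  rcases eq_or_lt_of_le (add_nonneg (mul_self_nonneg p) (mul_self_nonneg q)) with h0 | h0
  · rw [← h0]
    simp
  · have : -2 * q * (-q / (p * p + q * q)) = 2 * q ^ 2 / (p * p + q * q) := by ring
    rw [this, sub_nonpos, div_le_one h0]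
    nlinarith

theorem psi_one (a b : Fin n) (x : Fin n → ℂ) (h : (x a).re = (x b).re)
    (h' : (x a).im < (x b).im) : psi a b x = 1 := by
  apply Real.smoothTransition.one_of_one_le
  simp only [uu, inv_im, normSq_apply, sub_re, sub_im, h, sub_self, mul_zero, zero_add]
  have : (x a).im - (x b).im ≠ 0 := by
    intro h0
    linarith
  field_simp
  norm_num

theorem NN_pos (hn : 2 ≤ n) {x : Fin n → ℂ} (hx : Function.Injective x) : 0 < NN x := by
  have h0 : ∀ m ∈ (univ : Finset (Fin n)), 0 ≤ (x m).re ^ 2 + (x m).im ^ 2 :=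
    fun m _ => by positivity
  rcases eq_or_lt_of_le (sum_nonneg h0) with h | h
  · exfalso
    have h1 := (sum_eq_zero_iff_of_nonneg h0).mp h.symm
    have h2 : ∀ m, x m = 0 := by
      intro m
      have := h1 m (mem_univ _)
      apply Complex.ext
      · simp only [zero_re]
        nlinarith [sq_nonneg (x m).re, sq_nonneg (x m).im]
      · simp only [zero_im]
        nlinarith [sq_nonneg (x m).re, sq_nonneg (x m).im]
    have := hx ((h2 ⟨0, by omega⟩).trans (h2 ⟨1, by omega⟩).symm)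
    simp at this
  · exact h

theorem eta_pos (hn : 2 ≤ n) : 0 < eta n := by
  have : (0 : ℝ) < n := by exact_mod_cast (by omega : 0 < n)
  unfold eta
  positivity

theorem eps_pos (hn : 2 ≤ n) : 0 < eps n := by
  have : (0 : ℝ) < n := by exact_mod_cast (by omega : 0 < n)
  have := eta_pos hn
  unfold eps
  positivity

theorem eps_lt (hn : 2 ≤ n) : eps n < eta n ^ 2 := by
  have h : (2 : ℝ) ≤ n := by exact_mod_cast hn
  have h1 := eta_pos hn
  have h2 : (1 / (n : ℝ)) ^ 3 < 1 := by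
    apply pow_lt_one₀ (by positivity) _ (by norm_num)
    rw [div_lt_one (by linarith)]
    linarith
  unfold eps
  have : 0 < eta n ^ 2 := by positivity
  nlinarith

theorem Psi_nonneg (x : Fin n → ℂ) : 0 ≤ ∑ a, ∑ b, psi a b x :=
  sum_nonneg fun a _ => sum_nonneg fun b _ => psi_nonneg a b x

theorem SS_pos (hn : 2 ≤ n) {x : Fin n → ℂ} (hx : Function.Injective x) : 0 < SS x := by
  have := mul_pos (eta_pos hn) (NN_pos hn hx)
  have := Psi_nonneg x
  unfold SS
  linarith

theorem SS_sq (hn : 2 ≤ n) {x : Fin n → ℂ} (hx : Function.Injective x) :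
    eps n * NN x * NN x < SS x ^ 2 := by
  have h1 := mul_pos (eta_pos hn) (NN_pos hn hx)
  have h2 := Psi_nonneg x
  have h3 := eps_lt hn
  have h4 := NN_pos hn hx
  have h5 : (eta n * NN x) ^ 2 ≤ SS x ^ 2 := by
    apply pow_le_pow_left₀ h1.le
    unfold SS
    linarith
  have h6 : 0 < NN x * NN x := by positivity
  nlinarith

theorem psi_thT {x : Fin n → ℂ} (hx : Function.Injective x) (a b : Fin n) :
    psi a b x = 0 ∨ thL a b x (TT x) = 1 := by
  by_cases h : a = b
  · left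
    rw [h, psi_self]
  · right
    have h0 : x a - x b ≠ 0 := fun h0 => h (hx (sub_eq_zero.mp h0))
    rw [thL_apply]
    have : (TT x a - TT x b) * (x a - x b)⁻¹ = I := by
      unfold TT
      field_simp
    rw [this, I_im]

theorem a0L_T (x : Fin n → ℂ) : a0L x (TT x) = NN x := by
  rw [a0L_apply]
  exact sum_congr rfl fun m _ => by simp [TT]; ring

theorem alL_T {x : Fin n → ℂ} (hx : Function.Injective x) : alL x (TT x) = SS x := by
  rw [alL_apply, a0L_T]
  unfold SS
  congr 1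
  refine sum_congr rfl fun a _ => sum_congr rfl fun b _ => ?_
  rcases psi_thT hx a b with h | h <;> simp [h]

theorem gL_T {x : Fin n → ℂ} (hx : Function.Injective x) (v : Fin n → ℂ) :
    gL x (TT x) v = eps n * NN x * a0L x v - SS x * alL x v := by
  rw [gL_apply, alL_T hx]
  have h1 : ipL n (TT x) v = a0L x v := by
    rw [ipL_apply, a0L_apply]
    exact sum_congr rfl fun m _ => by simp [TT]; ring
  have h2 : ∑ a, ∑ b, psi a b x *
      ((SS x - SS x * thL a b x (TT x)) * (alL x v - SS x * thL a b x v)) = 0 := by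
    refine sum_eq_zero fun a _ => sum_eq_zero fun b _ => ?_
    rcases psi_thT hx a b with h | h <;> simp [h]
  rw [h1, h2, add_zero]

theorem ip_nonneg (v : Fin n → ℂ) : 0 ≤ ipL n v v := by
  rw [ipL_apply]
  exact sum_nonneg fun m _ => by nlinarith [sq_nonneg (v m).re, sq_nonneg (v m).im]

theorem ip_pos {v : Fin n → ℂ} (hv : v ≠ 0) : 0 < ipL n v v := by
  obtain ⟨m, hm⟩ := Function.ne_iff.mp hv
  rw [ipL_apply]
  refine sum_pos' (fun m _ => by nlinarith [sq_nonneg (v m).re, sq_nonneg (v m).im])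
    ⟨m, mem_univ _, ?_⟩
  have := normSq_pos.mpr hm
  rwa [normSq_apply] at this

theorem cs (x v : Fin n → ℂ) (hx : 0 < NN x) : a0L x v ^ 2 ≤ NN x * ipL n v v := by
  have key : ∀ t : ℝ, 0 ≤ ipL n v v - 2 * t * a0L x v + t ^ 2 * NN x := by
    intro t
    rw [ipL_apply, a0L_apply, NN, mul_sum, mul_sum, ← sum_sub_distrib, ← sum_add_distrib]
    refine sum_nonneg fun m _ => ?_
    nlinarith [sq_nonneg ((v m).re + t * (x m).im), sq_nonneg ((v m).im - t * (x m).re)]
  have h := mul_nonneg hx.le (key (a0L x v / NN x))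
  have e : NN x * (ipL n v v - 2 * (a0L x v / NN x) * a0L x v + (a0L x v / NN x) ^ 2 * NN x) =
      NN x * ipL n v v - a0L x v ^ 2 := by
    field_simp
    ring
  linarith

theorem mid_nonneg (x v : Fin n → ℂ) : 0 ≤ ∑ a, ∑ b, psi a b x *
    ((alL x v - SS x * thL a b x v) * (alL x v - SS x * thL a b x v)) :=
  sum_nonneg fun a _ => sum_nonneg fun b _ => mul_nonneg (psi_nonneg a b x) (mul_self_nonneg _)

theorem gL_TT (hn : 2 ≤ n) {x : Fin n → ℂ} (hx : Function.Injective x) :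
    gL x (TT x) (TT x) < 0 := by
  rw [gL_T hx, a0L_T, alL_T hx]
  have := SS_sq hn hx
  nlinarith

theorem gL_space (hn : 2 ≤ n) {x : Fin n → ℂ} (hx : Function.Injective x) (v : Fin n → ℂ)
    (hv : v ≠ 0) (h : gL x (TT x) v = 0) : 0 < gL x v v := by
  rw [gL_T hx] at h
  rw [gL_apply]
  have h1 := mid_nonneg x v
  have h2 := SS_sq hn hx
  have h3 := cs x v (NN_pos hn hx)
  have h4 := ip_pos hv
  have h5 := SS_pos hn hx
  have h6 : 0 < eps n * NN x := mul_pos (eps_pos hn) (NN_pos hn hx)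
  set e := eps n * NN x
  have h7 : SS x ^ 2 * alL x v ^ 2 < SS x ^ 2 * (e * ipL n v v) := by
    calc SS x ^ 2 * alL x v ^ 2 = (SS x * alL x v) ^ 2 := by ring
      _ = e ^ 2 * a0L x v ^ 2 := by
          rw [show SS x * alL x v = e * a0L x v by linarith]
          ring
      _ ≤ e ^ 2 * (NN x * ipL n v v) := by gcongr
      _ = (e * NN x) * (e * ipL n v v) := by ring
      _ < _ := by gcongr
  have h8 := lt_of_mul_lt_mul_left h7 (by positivity)
  nlinarith

/-- a future time-like vector crosses every vertical wall in the positive direction -/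
theorem cross_pos (hn : 2 ≤ n) {x : Fin n → ℂ} (hx : Function.Injective x) (w : Fin n → ℂ)
    (h1 : gL x w w < 0) (h2 : gL x w (TT x) < 0) (a b : Fin n) (h : (x a).re = (x b).re)
    (h' : (x a).im < (x b).im) : (w b).re < (w a).re := by
  rw [gL_symm, gL_T hx] at h2
  rw [gL_apply] at h1
  have g1 := mid_nonneg x w
  have g2 := SS_sq hn hx
  have g3 := cs x w (NN_pos hn hx)
  have g4 := ip_nonneg w
  have g5 := SS_pos hn hx
  have g6 : 0 < eps n * NN x := mul_pos (eps_pos hn) (NN_pos hn hx)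
  have g7 := NN_pos hn hx
  set e := eps n * NN x
  have hal : 0 < alL x w := by
    by_contra hc
    push Not at hc
    have k1 : e * ipL n w w ≤ alL x w ^ 2 := by nlinarith
    have k2 : (e * a0L x w) ^ 2 ≤ (SS x * alL x w) ^ 2 := by
      calc (e * a0L x w) ^ 2 = e ^ 2 * a0L x w ^ 2 := by ring
        _ ≤ e ^ 2 * (NN x * ipL n w w) := by gcongr
        _ = (e * NN x) * (e * ipL n w w) := by ring
        _ ≤ SS x ^ 2 * alL x w ^ 2 := by gcongr
        _ = _ := by ring
    have k3 : SS x * alL x w ≤ 0 := mul_nonpos_of_nonneg_of_nonpos g5.le hc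
    nlinarith
  have k4 : psi a b x * ((alL x w - SS x * thL a b x w) * (alL x w - SS x * thL a b x w)) ≤
      ∑ a, ∑ b, psi a b x *
        ((alL x w - SS x * thL a b x w) * (alL x w - SS x * thL a b x w)) := by
    refine le_trans ?_ (single_le_sum (f := fun a => ∑ b, psi a b x *
      ((alL x w - SS x * thL a b x w) * (alL x w - SS x * thL a b x w)))
      (fun a _ => sum_nonneg fun b _ => mul_nonneg (psi_nonneg a b x) (mul_self_nonneg _))
      (mem_univ a))
    exact single_le_sum (f := fun b => psi a b x *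
      ((alL x w - SS x * thL a b x w) * (alL x w - SS x * thL a b x w)))
      (fun b _ => mul_nonneg (psi_nonneg a b x) (mul_self_nonneg _)) (mem_univ b)
  rw [psi_one a b x h h', one_mul] at k4
  have k5 : 0 ≤ e * ipL n w w := by positivity
  have hth : 0 < thL a b x w := by
    by_contra hc
    push Not at hc
    have k6 : SS x * thL a b x w ≤ 0 := mul_nonpos_of_nonneg_of_nonpos g5.le hc
    nlinarith
  rw [thL_apply] at hth
  simp only [mul_im, sub_re, sub_im, inv_re, inv_im, normSq_apply, h, sub_self, mul_zero,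
    zero_add, zero_div, add_zero] at hth
  have k7 : 0 < -((x a).im - (x b).im) / (((x a).im - (x b).im) * ((x a).im - (x b).im)) :=
    div_pos (by linarith) (mul_pos_of_neg_of_neg (by linarith) (by linarith))
  have := (pos_iff_pos_of_mul_pos hth).mpr k7
  linarith

end Pool.Agent.H190Z.Lor
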