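import Pool.Agent.H190Z.Lor1

set_option autoImplicit false

/-! The standard half twists are time-like. -/

namespace Pool.Agent.H190Z.Lor

open Finset Complex

variable {n : ℕ}

noncomputable def pt (n j : ℕ) : ℂ := (((2 * (j : ℝ) + 1) / (n : ℝ) - 1 : ℝ) : ℂ)

noncomputable def ex (s : ℝ) : ℂ := Complex.exp ((Real.pi : ℂ) * (s : ℂ) * Complex.I)

noncomputable def pos (n i : ℕ) (s : ℝ) (j : ℕ) : ℂ :=
  if j = i then (((2 * (i : ℝ) + 2) / (n : ℝ) - 1 : ℝ) : ℂ) - ((1 / (n : ℝ) : ℝ) : ℂ) * ex s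
  else if j = i + 1 then
    (((2 * (i : ℝ) + 2) / (n : ℝ) - 1 : ℝ) : ℂ) + ((1 / (n : ℝ) : ℝ) : ℂ) * ex s
  else pt n j

noncomputable def sig (i : ℕ) (ρ : Equiv.Perm (Fin n)) (s : ℝ) : Fin n → ℂ :=
  fun m => pos n i s (ρ m)

noncomputable def vel (n i : ℕ) (κ s : ℝ) (j : ℕ) : ℂ :=
  if j = i then -(((1 / (n : ℝ) : ℝ) : ℂ) * (κ * I * ex s))
  else if j = i + 1 then ((1 / (n : ℝ) : ℝ) : ℂ) * (κ * I * ex s) else 0

theorem ex_re (s : ℝ) : (ex s).re = Real.cos (Real.pi * s) := by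
  unfold ex
  rw [← ofReal_mul, exp_ofReal_mul_I_re]

theorem ex_im (s : ℝ) : (ex s).im = Real.sin (Real.pi * s) := by
  unfold ex
  rw [← ofReal_mul, exp_ofReal_mul_I_im]

theorem ex_norm (s : ℝ) : ‖ex s‖ = 1 := by
  unfold ex
  rw [← ofReal_mul, norm_exp_ofReal_mul_I]

theorem ex_ne (s : ℝ) : ex s ≠ 0 := exp_ne_zero _

theorem pos_re (i : ℕ) (s : ℝ) (j : ℕ) : (pos n i s j).re =
    if j = i then (2 * (i : ℝ) + 2) * (1 / n) - 1 - 1 / n * Real.cos (Real.pi * s)
    else if j = i + 1 then (2 * (i : ℝ) + 2) * (1 / n) - 1 + 1 / n * Real.cos (Real.pi * s)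
    else (2 * (j : ℝ) + 1) * (1 / n) - 1 := by
  unfold pos pt
  split_ifs
  · rw [sub_re, ofReal_re, re_ofReal_mul, ex_re]
    ring
  · rw [add_re, ofReal_re, re_ofReal_mul, ex_re]
    ring
  · rw [ofReal_re]
    ring

theorem pos_im (i : ℕ) (s : ℝ) (j : ℕ) : (pos n i s j).im =
    if j = i then -(1 / n * Real.sin (Real.pi * s))
    else if j = i + 1 then 1 / n * Real.sin (Real.pi * s) else 0 := by
  unfold pos pt
  split_ifs
  · rw [sub_im, ofReal_im, im_ofReal_mul, ex_im]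
    ring
  · rw [add_im, ofReal_im, im_ofReal_mul, ex_im]
    ring
  · rw [ofReal_im]

theorem gap (i : ℕ) (s : ℝ) {j j' : ℕ} (h : j < j') (h' : ¬ (j = i ∧ j' = i + 1)) :
    (pos n i s j).re + 2 * (1 / n) ≤ (pos n i s j').re := by
  rw [pos_re, pos_re]
  have hr : (0 : ℝ) ≤ 1 / n := by positivity
  generalize (1 / n : ℝ) = r at *
  have c1 := mul_nonneg hr (sub_nonneg.mpr (Real.cos_le_one (Real.pi * s)))
  have c2 := mul_nonneg hr (neg_le_iff_add_nonneg.mp (Real.neg_one_le_cos (Real.pi * s)))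
  have key : ∀ a b : ℕ, a ≤ b → 0 ≤ r * ((b : ℝ) - a) := fun a b hab =>
    mul_nonneg hr (sub_nonneg.mpr (by exact_mod_cast hab))
  split_ifs with a1 a2 a3 a4 a5 a6 a7 a8
  · omega
  · omega
  · have := key (i + 2) j' (by omega)
    push_cast at this
    nlinarith
  · omega
  · omega
  · have := key (i + 2) j' (by omega)
    push_cast at this
    nlinarith
  · have := key (j + 1) i (by omega)
    push_cast at this
    nlinarith
  · have := key (j + 1) i (by omega)
    push_cast at this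
    nlinarith
  · have := key (j + 1) j' (by omega)
    push_cast at this
    nlinarith

theorem im_abs (i : ℕ) (s : ℝ) (j : ℕ) : |(pos n i s j).im| ≤ 1 / n := by
  rw [pos_im]
  have hr : (0 : ℝ) ≤ 1 / n := by positivity
  have : |1 / (n : ℝ) * Real.sin (Real.pi * s)| ≤ 1 / n := by
    rw [abs_mul, abs_of_nonneg hr]
    exact mul_le_of_le_one_right hr (Real.abs_sin_le_one _)
  split_ifs
  · rwa [abs_neg]
  · exact this
  · simp

theorem pt_norm {j : ℕ} (hj : j < n) : ‖pt n j‖ < 1 := by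
  have h0 : (0 : ℝ) < n := by exact_mod_cast (by omega : 0 < n)
  have h1 : (j : ℝ) + 1 ≤ n := by exact_mod_cast hj
  unfold pt
  rw [norm_real, Real.norm_eq_abs, abs_lt]
  constructor
  · have : 0 < (2 * (j : ℝ) + 1) / n := by positivity
    linarith
  · rw [sub_lt_iff_lt_add, div_lt_iff₀ h0]
    linarith

theorem pos_norm {i : ℕ} (hi : i + 1 < n) (s : ℝ) {j : ℕ} (hj : j < n) : ‖pos n i s j‖ < 1 := by
  have h0 : (0 : ℝ) < n := by exact_mod_cast (by omega : 0 < n)
  have h1 : (i : ℝ) + 2 ≤ n := by exact_mod_cast hi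
  have hr : (0 : ℝ) < 1 / n := by positivity
  have h2 : ‖(((2 * (i : ℝ) + 2) / (n : ℝ) - 1 : ℝ) : ℂ)‖ + ‖((1 / (n : ℝ) : ℝ) : ℂ) * ex s‖ < 1 := by
    rw [norm_mul, ex_norm, norm_real, norm_real, Real.norm_eq_abs, Real.norm_eq_abs,
      abs_of_pos hr, mul_one, ← lt_sub_iff_add_lt, abs_lt]
    have e1 : (2 * (i : ℝ) + 2) / n = (2 * (i : ℝ) + 2) * (1 / n) := by ring
    have e2 : (n : ℝ) * (1 / n) = 1 := by field_simp
    have h3 : (0 : ℝ) ≤ i := Nat.cast_nonneg _
    rw [e1]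
    constructor <;> nlinarith
  unfold pos
  split_ifs
  · exact (norm_sub_le _ _).trans_lt h2
  · exact (norm_add_le _ _).trans_lt h2
  · exact pt_norm hj

theorem pos_diff (i : ℕ) (s : ℝ) :
    pos n i s i - pos n i s (i + 1) = -(2 * ((1 / (n : ℝ) : ℝ) : ℂ) * ex s) := by
  unfold pos
  rw [if_pos rfl, if_neg (by omega), if_pos rfl]
  ring

theorem pos_ne (hn : 0 < n) (i : ℕ) (s : ℝ) : pos n i s i ≠ pos n i s (i + 1) := by
  intro h
  have h1 := pos_diff (n := n) i s
  rw [h, sub_self, eq_comm, neg_eq_zero] at h1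
  have h0 : (0 : ℝ) < n := by exact_mod_cast hn
  have : ((1 / (n : ℝ) : ℝ) : ℂ) ≠ 0 := by
    rw [ofReal_ne_zero]
    positivity
  exact mul_ne_zero (mul_ne_zero two_ne_zero this) (ex_ne s) h1

theorem pos_zero (i j : ℕ) : pos n i 0 j = pt n j := by
  unfold pos
  split_ifs with a b
  · rw [a]
    simp only [ex, pt, ofReal_zero, mul_zero, zero_mul, exp_zero]
    push_cast
    ring
  · rw [b]
    simp only [ex, pt, ofReal_zero, mul_zero, zero_mul, exp_zero]
    push_cast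
    ring
  · rfl

theorem ex_one : ex 1 = -1 := by
  simp [ex]

theorem pos_one (i j : ℕ) :
    pos n i 1 j = pt n (if j = i then i + 1 else if j = i + 1 then i else j) := by
  unfold pos
  split_ifs with a b
  · simp only [ex_one, pt]
    push_cast
    ring
  · simp only [ex_one, pt]
    push_cast
    ring
  · rfl

theorem pos_im_le (i : ℕ) {s : ℝ} (h0 : 0 ≤ s) (h1 : s ≤ 1) :
    (pos n i s i).im ≤ (pos n i s (i + 1)).im := by
  rw [pos_im, pos_im, if_pos rfl, if_neg (by omega), if_pos rfl]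
  have : 0 ≤ Real.sin (Real.pi * s) :=
    Real.sin_nonneg_of_nonneg_of_le_pi (mul_nonneg Real.pi_pos.le h0)
      (mul_le_of_le_one_right Real.pi_pos.le h1)
  have : 0 ≤ 1 / (n : ℝ) * Real.sin (Real.pi * s) := by positivity
  linarith

theorem sig_conf {i : ℕ} (hi : i + 1 < n) (ρ : Equiv.Perm (Fin n)) (s : ℝ) :
    sig i ρ s ∈ conf n := by
  have h0 : (0 : ℝ) < n := by exact_mod_cast (by omega : 0 < n)
  have hr : (0 : ℝ) < 1 / n := by positivity
  refine ⟨?_, fun m => pos_norm hi s (ρ m).2⟩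
  have key : ∀ j j' : ℕ, j < j' → pos n i s j ≠ pos n i s j' := by
    intro j j' h
    by_cases h' : j = i ∧ j' = i + 1
    · rw [h'.1, h'.2]
      exact pos_ne (by omega) i s
    · intro e
      have := gap (n := n) i s h h'
      rw [e] at this
      linarith
  intro a b hab
  by_contra hne
  have : (ρ a : ℕ) ≠ ρ b := fun e => hne (ρ.injective (Fin.ext e))
  rcases lt_or_gt_of_ne this with h | h
  · exact key _ _ h hab
  · exact key _ _ h hab.symm

theorem ex_deriv (k c t : ℝ) :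
    HasDerivAt (fun t : ℝ => ex (k * t - c)) ((k * Real.pi : ℝ) * I * ex (k * t - c)) t := by
  unfold ex
  have h1 : HasDerivAt (fun t : ℝ => ((k * t - c : ℝ) : ℂ)) (k : ℂ) t := by
    have := (((hasDerivAt_id t).const_mul k).sub_const c).ofReal_comp
    simpa using this
  have h2 := ((h1.const_mul (Real.pi : ℂ)).mul_const I).cexp
  convert h2 using 1
  push_cast
  ring

theorem sig_deriv (i : ℕ) (ρ : Equiv.Perm (Fin n)) (k c t : ℝ) :
    HasDerivAt (fun t : ℝ => sig i ρ (k * t - c))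
      (fun m => vel n i (k * Real.pi) (k * t - c) (ρ m)) t := by
  rw [hasDerivAt_pi]
  intro m
  unfold sig pos vel
  split_ifs
  · exact ((ex_deriv k c t).const_mul _).const_sub _
  · exact ((ex_deriv k c t).const_mul _).const_add _
  · exact hasDerivAt_const _ _

theorem sig_smooth (i : ℕ) (ρ : Equiv.Perm (Fin n)) :
    ContDiff ℝ ((⊤ : ℕ∞) : WithTop ℕ∞) (sig i ρ) := by
  have h : ContDiff ℝ ((⊤ : ℕ∞) : WithTop ℕ∞) ex := by
    unfold ex
    exact ((contDiff_const.mul ofRealCLM.contDiff).mul contDiff_const).cexp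
  rw [contDiff_pi]
  intro m
  unfold sig pos
  split_ifs
  · exact contDiff_const.sub (contDiff_const.mul h)
  · exact contDiff_const.add (contDiff_const.mul h)
  · exact contDiff_const

theorem sum_two {i : ℕ} (hi : i + 1 < n) (ρ : Equiv.Perm (Fin n)) (F : ℕ → ℝ)
    (hF : ∀ j, j ≠ i → j ≠ i + 1 → F j = 0) : ∑ m, F (ρ m) = F i + F (i + 1) := by
  rw [Equiv.sum_comp ρ (fun m : Fin n => F m)]
  rw [Finset.sum_eq_add_of_mem (⟨i, by omega⟩ : Fin n) ⟨i + 1, hi⟩ (mem_univ _) (mem_univ _)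
    (by simp)]
  intro c _ hc
  exact hF c (fun e => hc.1 (Fin.ext e)) (fun e => hc.2 (Fin.ext e))

theorem sig_time (hn : 2 ≤ n) {i : ℕ} (hi : i + 1 < n) (ρ : Equiv.Perm (Fin n)) (s κ : ℝ)
    (hκ : 0 < κ) :
    gL (sig i ρ s) (fun m => vel n i κ s (ρ m)) (fun m => vel n i κ s (ρ m)) < 0 ∧
      gL (sig i ρ s) (fun m => vel n i κ s (ρ m)) (TT (sig i ρ s)) < 0 := by
  have hn2 : (2 : ℝ) ≤ n := by exact_mod_cast hn
  have hr : (0 : ℝ) < 1 / n := by positivity
  have hx := sig_conf hi ρ s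
  set x := sig i ρ s with hxd
  set w : Fin n → ℂ := fun m => vel n i κ s (ρ m) with hwd
  have cs1 := Real.cos_sq_add_sin_sq (Real.pi * s)
  have v1 : vel n i κ s i = -(((1 / (n : ℝ) : ℝ) : ℂ) * (κ * I * ex s)) := by
    unfold vel
    rw [if_pos rfl]
  have v2 : vel n i κ s (i + 1) = ((1 / (n : ℝ) : ℝ) : ℂ) * (κ * I * ex s) := by
    unfold vel
    rw [if_neg (by omega), if_pos rfl]
  have v3 : ∀ j, j ≠ i → j ≠ i + 1 → vel n i κ s j = 0 := by
    intro j a b
    unfold vel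
    rw [if_neg a, if_neg b]
  have e1 : (((1 / (n : ℝ) : ℝ) : ℂ) * (κ * I * ex s)).re =
      -(1 / n * κ * Real.sin (Real.pi * s)) := by
    rw [re_ofReal_mul, mul_assoc, re_ofReal_mul, I_mul_re, ex_im]
    ring
  have e2 : (((1 / (n : ℝ) : ℝ) : ℂ) * (κ * I * ex s)).im =
      1 / n * κ * Real.cos (Real.pi * s) := by
    rw [im_ofReal_mul, mul_assoc, im_ofReal_mul, I_mul_im, ex_re]
    ring
  have ha0 : a0L x w = 2 * κ * (1 / n) ^ 2 := by
    rw [a0L_apply]
    refine (sum_two hi ρ (fun j => (pos n i s j).re * (vel n i κ s j).im -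
      (pos n i s j).im * (vel n i κ s j).re) (fun j a b => by simp [v3 j a b])).trans ?_
    have hii : ¬ (i + 1 = i) := by omega
    rw [v1, v2, neg_re, neg_im, e1, e2, pos_re, pos_re, pos_im, pos_im]
    simp only [hii, if_true, if_false]
    linear_combination 2 * κ * (1 / (n : ℝ)) ^ 2 * cs1
  have hip : ipL n w w = 2 * κ ^ 2 * (1 / n) ^ 2 := by
    rw [ipL_apply]
    refine (sum_two hi ρ (fun j => (vel n i κ s j).re * (vel n i κ s j).re +
      (vel n i κ s j).im * (vel n i κ s j).im) (fun j a b => by simp [v3 j a b])).trans ?_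
    rw [v1, v2, neg_re, neg_im, e1, e2]
    linear_combination 2 * κ ^ 2 * (1 / (n : ℝ)) ^ 2 * cs1
  have hne : ((1 / (n : ℝ) : ℝ) : ℂ) ≠ 0 := by
    rw [ofReal_ne_zero]
    exact hr.ne'
  have hth : ∀ a b, psi a b x = 0 ∨ thL a b x w = κ := by
    have key : ∀ a b, (ρ a : ℕ) < ρ b → (psi a b x = 0 ∨ thL a b x w = κ) ∧
        (psi b a x = 0 ∨ thL b a x w = κ) := by
      intro a b hab
      by_cases h' : (ρ a : ℕ) = i ∧ (ρ b : ℕ) = i + 1
      · have d1 : x a - x b = -(2 * ((1 / (n : ℝ) : ℝ) : ℂ) * ex s) := by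
          rw [← pos_diff i s, hxd]
          simp only [sig, h'.1, h'.2]
        have d2 : w a - w b = -(2 * ((1 / (n : ℝ) : ℝ) : ℂ) * ex s) * (κ * I) := by
          simp only [hwd, h'.1, h'.2, v1, v2]
          ring
        have d3 : -(2 * ((1 / (n : ℝ) : ℝ) : ℂ) * ex s) ≠ 0 :=
          neg_ne_zero.mpr (mul_ne_zero (mul_ne_zero two_ne_zero hne) (ex_ne s))
        constructor
        · right
          rw [thL_apply, d1, d2, mul_comm _ (κ * I : ℂ), mul_assoc, mul_inv_cancel₀ d3]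
          simp
        · right
          rw [thL_apply, ← neg_sub (w a), ← neg_sub (x a), inv_neg, neg_mul_neg, d1, d2,
            mul_comm _ (κ * I : ℂ), mul_assoc, mul_inv_cancel₀ d3]
          simp
      · have g1 := gap (n := n) i s hab h'
        have g2 := abs_le.mp (im_abs (n := n) i s (ρ a))
        have g3 := abs_le.mp (im_abs (n := n) i s (ρ b))
        have g4 : ((x a).im - (x b).im) ^ 2 ≤ ((x a).re - (x b).re) ^ 2 := by
          simp only [hxd, sig]
          nlinarith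
        exact ⟨Or.inl (psi_zero a b x g4), Or.inl (psi_zero b a x (by linarith))⟩
    intro a b
    rcases lt_trichotomy (ρ a : ℕ) (ρ b) with h | h | h
    · exact (key a b h).1
    · left
      rw [ρ.injective (Fin.ext h), psi_self]
    · exact (key b a h).2
  have hsum : ∀ F : ℝ → ℝ, ∑ a, ∑ b, psi a b x * F (thL a b x w) =
      (∑ a, ∑ b, psi a b x) * F κ := by
    intro F
    rw [sum_mul]
    refine sum_congr rfl fun a _ => ?_
    rw [sum_mul]
    refine sum_congr rfl fun b _ => ?_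
    rcases hth a b with h | h <;> simp [h]
  have hP := Psi_nonneg x
  have hN := NN_pos hn hx.1
  have hN2 : NN x ≤ n := by
    have : NN x ≤ ∑ _m : Fin n, (1 : ℝ) := by
      refine sum_le_sum fun m _ => ?_
      have h1 := hx.2 m
      have h2 := Complex.sq_norm (x m)
      rw [normSq_apply] at h2
      nlinarith [norm_nonneg (x m)]
    simpa using this
  have hal : alL x w = eta n * (2 * κ * (1 / n) ^ 2) + (∑ a, ∑ b, psi a b x) * κ := by
    rw [alL_apply, ha0, hsum (fun t => t)]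
  have hrn : (n : ℝ) * (1 / n) = 1 := by field_simp
  have hS : SS x = eta n * NN x + ∑ a, ∑ b, psi a b x := rfl
  have heps : eps n = eta n ^ 2 * (1 / (n : ℝ)) ^ 3 := rfl
  have heta : eta n = (1 / (n : ℝ)) ^ 4 := rfl
  have hη := eta_pos hn
  have hr2 : 1 / (n : ℝ) ≤ 1 / 2 := one_div_le_one_div_of_le (by norm_num) hn2
  have hNr : NN x * (1 / n) ≤ 1 := by
    exact (mul_le_mul_of_nonneg_right hN2 hr.le).trans hrn.le
  constructor
  · rw [gL_apply, hsum (fun t => (alL x w - SS x * t) * (alL x w - SS x * t)), hip, hal, hS, heps]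
    generalize (∑ a, ∑ b, psi a b x) = Ψ at *
    generalize NN x = N at *
    generalize (1 / (n : ℝ)) = r at *
    have k1 : eta n * (2 * r ^ 2 - N) ^ 2 ≤ 4 * r ^ 2 := by
      rw [heta]
      have k2 : (r * (2 * r ^ 2 - N)) ^ 2 ≤ 1 := by
        have k3 : r ^ 3 ≤ (1 / 2) ^ 3 := by gcongr
        have k4 : 0 < r ^ 3 := by positivity
        have k5 : 0 < N * r := by positivity
        rw [sq_le_one_iff_abs_le_one, abs_le]
        constructor <;> nlinarith
      have k6 : 0 < r ^ 2 := by positivity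
      nlinarith
    generalize eta n = η at *
    have k7 : η ^ 2 * r ^ 3 * N * (2 * κ ^ 2 * r ^ 2) +
        Ψ * ((η * (2 * κ * r ^ 2) + Ψ * κ - (η * N + Ψ) * κ) *
          (η * (2 * κ * r ^ 2) + Ψ * κ - (η * N + Ψ) * κ)) -
        (η * (2 * κ * r ^ 2) + Ψ * κ) * (η * (2 * κ * r ^ 2) + Ψ * κ) =
        κ ^ 2 * (2 * (η ^ 2 * r ^ 4) * (N * r - 2) +
          Ψ * η * (η * (2 * r ^ 2 - N) ^ 2 - 4 * r ^ 2) - Ψ ^ 2) := by ring
    rw [k7]
    apply mul_neg_of_pos_of_neg (by positivity)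
    have k8 : 2 * (η ^ 2 * r ^ 4) * (N * r - 2) < 0 :=
      mul_neg_of_pos_of_neg (by positivity) (by linarith)
    have k9 : Ψ * η * (η * (2 * r ^ 2 - N) ^ 2 - 4 * r ^ 2) ≤ 0 :=
      mul_nonpos_of_nonneg_of_nonpos (by positivity) (by linarith)
    nlinarith [sq_nonneg Ψ]
  · rw [gL_symm, gL_T hx.1, ha0, hal, hS]
    have k0 := eps_lt hn
    generalize (∑ a, ∑ b, psi a b x) = Ψ at *
    generalize NN x = N at *
    generalize (1 / (n : ℝ)) = r at *
    generalize eta n = η at *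
    generalize eps n = e at *
    have k1 : 0 < N * (2 * κ * r ^ 2) := by positivity
    have k2 : 0 ≤ Ψ * (η * (2 * κ * r ^ 2)) + (η * N + Ψ) * (Ψ * κ) := by positivity
    nlinarith

end Pool.Agent.H190Z.Lor
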