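import Pool.Agent.H190Z.Lor2

set_option autoImplicit false

/-! Paths with positive crossings are homotopic to positive words. -/

namespace Pool.Agent.H190Z.Lor

open Set unitInterval

variable {n : ℕ}

abbrev XX (n : ℕ) : Type := {f : Fin n → ℂ // Function.Injective f ∧ ∀ m, ‖f m‖ < 1}

theorem star_homotopic {W : Set (Fin n → ℂ)} {c : Fin n → ℂ} (hW : StarConvex ℝ c W)
    (hs : W ⊆ conf n) {x y : XX n} (p q : Path x y) (hp : ∀ t, (p t).1 ∈ W)
    (hq : ∀ t, (q t).1 ∈ W) : p.Homotopic q := by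
  have hx : x.1 ∈ W := by simpa using hp 0
  have hy : y.1 ∈ W := by simpa using hp 1
  have := hW.contractibleSpace ⟨_, hx⟩
  let p' : Path (⟨x.1, hx⟩ : W) ⟨y.1, hy⟩ :=
    { toFun := fun t => ⟨(p t).1, hp t⟩
      continuous_toFun := by fun_prop
      source' := by simp
      target' := by simp }
  let q' : Path (⟨x.1, hx⟩ : W) ⟨y.1, hy⟩ :=
    { toFun := fun t => ⟨(q t).1, hq t⟩
      continuous_toFun := by fun_prop
      source' := by simp
      target' := by simp }
  let f : C(W, XX n) := ⟨fun z => ⟨z.1, hs z.2⟩, by fun_prop⟩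
  exact (SimplyConnectedSpace.paths_homotopic p' q').map f

theorem convex_homotopic {W : Set (Fin n → ℂ)} (hW : Convex ℝ W)
    (hs : W ⊆ conf n) {x y : XX n} (p q : Path x y) (hp : ∀ t, (p t).1 ∈ W)
    (hq : ∀ t, (q t).1 ∈ W) : p.Homotopic q :=
  star_homotopic (hW.starConvex (hp 0)) hs p q hp hq

theorem exists_path {W : Set (Fin n → ℂ)} (hW : Convex ℝ W) (hs : W ⊆ conf n) (x y : XX n)
    (hx : x.1 ∈ W) (hy : y.1 ∈ W) : ∃ p : Path x y, ∀ t, (p t).1 ∈ W := by
  have h : ∀ t, Path.segment x.1 y.1 t ∈ W := fun t =>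
    hW.segment_subset hx hy (Path.range_segment x.1 y.1 ▸ mem_range_self t)
  exact ⟨{ toFun := fun t => ⟨Path.segment x.1 y.1 t, hs (h t)⟩
           continuous_toFun := by fun_prop
           source' := by simp
           target' := by simp }, h⟩

theorem trans_mem {W : Set (Fin n → ℂ)} {x y z : XX n} {p : Path x y} {q : Path y z}
    (hp : ∀ t, (p t).1 ∈ W) (hq : ∀ t, (q t).1 ∈ W) (t : I) : (p.trans q t).1 ∈ W := by
  rw [Path.trans_apply]
  split_ifs
  · exact hp _
  · exact hq _

/-! ### convex pieces -/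

def disc (n : ℕ) : Set (Fin n → ℂ) := {x | ∀ m, ‖x m‖ < 1}

theorem disc_convex : Convex ℝ (disc n) := by
  have : disc n = Set.pi univ fun _ => Metric.ball (0 : ℂ) 1 := by
    ext x
    simp [disc]
  rw [this]
  exact convex_pi fun _ _ => convex_ball _ _

theorem convex_re (p : Fin n → Fin n → Prop) :
    Convex ℝ {x : Fin n → ℂ | ∀ a b, p a b → (x a).re < (x b).re} := by
  intro x hx y hy s t hs ht hst a b hab
  have h1 := hx a b hab
  have h2 := hy a b hab
  simp only [Pi.add_apply, Pi.smul_apply, Complex.add_re, Complex.smul_re, smul_eq_mul]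
  rcases eq_or_lt_of_le hs with h | h
  · rw [← h] at hst ⊢
    rw [show t = 1 by linarith]
    linarith
  · nlinarith

theorem convex_im (p : Fin n → Fin n → Prop) :
    Convex ℝ {x : Fin n → ℂ | ∀ a b, p a b → (x a).im < (x b).im} := by
  intro x hx y hy s t hs ht hst a b hab
  have h1 := hx a b hab
  have h2 := hy a b hab
  simp only [Pi.add_apply, Pi.smul_apply, Complex.add_im, Complex.smul_im, smul_eq_mul]
  rcases eq_or_lt_of_le hs with h | h
  · rw [← h] at hst ⊢
    rw [show t = 1 by linarith]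
    linarith
  · nlinarith

theorem convex_imle (a b : Fin n) : Convex ℝ {x : Fin n → ℂ | (x a).im ≤ (x b).im} := by
  intro x hx y hy s t hs ht hst
  simp only [mem_ofPred_eq, Pi.add_apply, Pi.smul_apply, Complex.add_im, Complex.smul_im,
    smul_eq_mul] at hx hy ⊢
  nlinarith

/-- the chamber of the order `ρ` -/
def Ch (ρ : Equiv.Perm (Fin n)) : Set (Fin n → ℂ) :=
  disc n ∩ {x | ∀ a b, ρ a < ρ b → (x a).re < (x b).re}

theorem Ch_convex (ρ : Equiv.Perm (Fin n)) : Convex ℝ (Ch ρ) := disc_convex.inter (convex_re _)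

theorem Ch_conf (ρ : Equiv.Perm (Fin n)) : Ch ρ ⊆ conf n := by
  intro x hx
  refine ⟨fun a b hab => ?_, hx.1⟩
  rcases lt_trichotomy (ρ a) (ρ b) with h | h | h
  · have := hx.2 a b h
    rw [hab] at this
    exact absurd this (lt_irrefl _)
  · exact ρ.injective h
  · have := hx.2 b a h
    rw [hab] at this
    exact absurd this (lt_irrefl _)

theorem Ch_lt {ρ : Equiv.Perm (Fin n)} {x : Fin n → ℂ} (hx : x ∈ Ch ρ) {a b : Fin n}
    (h : (x a).re < (x b).re) : ρ a < ρ b := by
  rcases lt_trichotomy (ρ a) (ρ b) with h' | h' | h'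
  · exact h'
  · rw [ρ.injective h'] at h
    exact absurd h (lt_irrefl _)
  · exact absurd (hx.2 b a h') (not_lt.mpr h.le)

/-- the convex neighbourhood of `z` -/
def UU (z : Fin n → ℂ) : Set (Fin n → ℂ) :=
  disc n ∩ {x | ∀ a b, (z a).re < (z b).re → (x a).re < (x b).re} ∩
    {x | ∀ a b, ((z a).re = (z b).re ∧ (z a).im < (z b).im) → (x a).im < (x b).im}

theorem UU_convex (z : Fin n → ℂ) : Convex ℝ (UU z) :=
  (disc_convex.inter (convex_re _)).inter (convex_im _)

theorem UU_conf {z : Fin n → ℂ} (hz : Function.Injective z) : UU z ⊆ conf n := by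
  intro x hx
  refine ⟨fun a b hab => ?_, hx.1.1⟩
  rcases lt_trichotomy (z a).re (z b).re with h | h | h
  · have := hx.1.2 a b h
    rw [hab] at this
    exact absurd this (lt_irrefl _)
  · rcases lt_trichotomy (z a).im (z b).im with h' | h' | h'
    · have := hx.2 a b ⟨h, h'⟩
      rw [hab] at this
      exact absurd this (lt_irrefl _)
    · exact hz (Complex.ext h h')
    · have := hx.2 b a ⟨h.symm, h'⟩
      rw [hab] at this
      exact absurd this (lt_irrefl _)
  · have := hx.1.2 b a h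
    rw [hab] at this
    exact absurd this (lt_irrefl _)

theorem UU_nhds {z : Fin n → ℂ} (hz : z ∈ disc n) : UU z ∈ nhds z := by
  refine Filter.inter_mem (Filter.inter_mem ?_ ?_) ?_
  · refine Filter.eventually_all.mpr fun m => ?_
    exact (continuous_apply m).norm.continuousAt.eventually_lt continuousAt_const (hz m)
  · refine Filter.eventually_all.mpr fun a => Filter.eventually_all.mpr fun b => ?_
    by_cases h : (z a).re < (z b).re
    · exact (((RE a).continuous.continuousAt.eventually_lt (RE b).continuous.continuousAt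
        h)).mono fun x hx _ => hx
    · exact Filter.Eventually.of_forall fun x h' => absurd h' h
  · refine Filter.eventually_all.mpr fun a => Filter.eventually_all.mpr fun b => ?_
    by_cases h : (z a).im < (z b).im
    · exact (((IM a).continuous.continuousAt.eventually_lt (IM b).continuous.continuousAt
        h)).mono fun x hx _ => hx
    · exact Filter.Eventually.of_forall fun x h' => absurd h'.2 h

theorem exists_UU_Ch {z : Fin n → ℂ} (hz : z ∈ disc n) (ρ : Equiv.Perm (Fin n))
    (h : ∀ a b, ρ a < ρ b → (z a).re ≤ (z b).re) : ∃ y, y ∈ UU z ∧ y ∈ Ch ρ := by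
  let f : ℝ → Fin n → ℂ := fun e m => z m + ((e * ((ρ m : ℕ) : ℝ) : ℝ) : ℂ)
  have hf : Continuous f := by fun_prop
  have h0 : f 0 = z := by
    funext m
    simp [f]
  have h1 : ∀ᶠ e in nhds (0 : ℝ), f e ∈ UU z := by
    have := UU_nhds hz
    rw [← h0] at this
    have h2 := hf.continuousAt.eventually this
    rw [h0] at h2
    exact h2
  obtain ⟨e, he, he'⟩ := ((h1.filter_mono nhdsWithin_le_nhds).and
    (self_mem_nhdsWithin (s := Ioi (0 : ℝ)))).exists
  refine ⟨f e, he, he.1.1, fun a b hab => ?_⟩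
  have h2 := h a b hab
  have h3 : ((ρ a : ℕ) : ℝ) < ((ρ b : ℕ) : ℝ) := by exact_mod_cast hab
  have h4 : (0 : ℝ) < e := he'
  simp only [f, Complex.add_re, Complex.ofReal_re]
  nlinarith

theorem exists_Ch {x : Fin n → ℂ} (hx : x ∈ disc n)
    (h : Function.Injective fun m => (x m).re) : ∃ ρ, x ∈ Ch ρ := by
  refine ⟨(Tuple.sort fun m => (x m).re).symm, hx, fun a b hab => ?_⟩
  have h1 := Tuple.monotone_sort (fun m => (x m).re) hab.le
  simp only [Function.comp, Equiv.apply_symm_apply] at h1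
  refine lt_of_le_of_ne h1 fun e => ?_
  rw [h e] at hab
  exact lt_irrefl _ hab

/-! ### base points and half twists -/

theorem pt_re_lt (hn : 0 < n) {j j' : ℕ} (h : j < j') : (pt n j).re < (pt n j').re := by
  have h0 : (0 : ℝ) < n := by exact_mod_cast hn
  have h1 : (j : ℝ) < j' := by exact_mod_cast h
  simp only [pt, Complex.ofReal_re]
  gcongr

theorem base_Ch (ρ : Equiv.Perm (Fin n)) : (fun m => pt n (ρ m)) ∈ Ch ρ :=
  ⟨fun m => pt_norm (ρ m).2, fun a _ h => pt_re_lt a.pos h⟩

noncomputable def BB (ρ : Equiv.Perm (Fin n)) : XX n := ⟨fun m => pt n (ρ m), Ch_conf ρ (base_Ch ρ)⟩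

/-- `Γ` is a concatenation of `k` standard half twists -/
def IsWord {x y : XX n} (k : ℕ) (Γ : Path x y) : Prop :=
  ∀ j : ℕ, j < k → ∃ i : ℕ, i + 1 < n ∧ ∃ ρ : Equiv.Perm (Fin n),
    ∀ (t : I) (s : ℝ), 0 ≤ s → s ≤ 1 → (t : ℝ) = ((j : ℝ) + s) / (k : ℝ) →
      ∀ m : Fin n, (Γ t).1 m = sig i ρ s m

def Good {x y : XX n} (γ : Path x y) : Prop :=
  (∃ d : Path x y, d.Homotopic γ ∧ ∀ t, d t = x) ∨
    ∃ Γ : Path x y, Γ.Homotopic γ ∧ ∃ k : ℕ, 1 ≤ k ∧ IsWord k Γ

theorem Good.congr {x y : XX n} {γ γ' : Path x y} (h : Good γ) (e : γ.Homotopic γ') : Good γ' := by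
  rcases h with ⟨d, h1, h2⟩ | ⟨d, h1, h2⟩
  · exact Or.inl ⟨d, h1.trans e, h2⟩
  · exact Or.inr ⟨d, h1.trans e, h2⟩

theorem exists_reparam {X : Type} [TopologicalSpace X] {x y z : X} (p : Path x y) (q : Path y z)
    (k : ℕ) (hk : 1 ≤ k) : ∃ r : Path x z, r.Homotopic (p.trans q) ∧
      (∀ t u : I, (t : ℝ) * (k + 1) = u * k → r t = p u) ∧
      ∀ t u : I, (t : ℝ) * (k + 1) = k + u → r t = q u := by
  have hk' : (1 : ℝ) ≤ k := by exact_mod_cast hk
  have hm : ∀ t : I, max ((t : ℝ) * (k + 1) / (2 * k)) (((t : ℝ) * (k + 1) - k + 1) / 2) ∈ I := by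
    intro t
    have h0 := t.2.1
    have h1 := t.2.2
    refine ⟨le_max_of_le_left (by positivity), max_le ?_ ?_⟩
    · rw [div_le_one (by positivity)]
      nlinarith
    · rw [div_le_one (by positivity)]
      nlinarith
  let f : I → I := fun t => ⟨_, hm t⟩
  have hf : Continuous f := by fun_prop
  have f0 : f 0 = 0 := by
    apply Subtype.ext
    simp only [f, Icc.coe_zero, zero_mul, zero_div]
    exact max_eq_left (by linarith)
  have f1 : f 1 = 1 := by
    apply Subtype.ext
    simp only [f, Icc.coe_one, one_mul]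
    rw [show ((k : ℝ) + 1 - k + 1) / 2 = 1 by ring]
    apply max_eq_right
    rw [div_le_one (by positivity)]
    linarith
  refine ⟨(p.trans q).reparam f hf f0 f1, Path.Homotopic.symm ⟨Path.Homotopy.reparam _ f hf f0 f1⟩,
    ?_, ?_⟩
  · intro t u h
    have h0 := u.2.1
    have h1 := u.2.2
    have e : (f t : ℝ) = u / 2 := by
      simp only [f]
      rw [h, show (u : ℝ) * k / (2 * k) = u / 2 by field_simp]
      apply max_eq_left
      nlinarith
    simp only [Path.coe_reparam, Function.comp]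
    rw [Path.trans_apply, dif_pos (by linarith)]
    congr 1
    apply Subtype.ext
    simp only [e]
    ring
  · intro t u h
    have h0 := u.2.1
    have h1 := u.2.2
    have e : (f t : ℝ) = (u + 1) / 2 := by
      simp only [f]
      rw [h, show ((k : ℝ) + u - k + 1) / 2 = (u + 1) / 2 by ring]
      apply max_eq_right
      rw [div_le_div_iff₀ (by positivity) (by positivity)]
      nlinarith
    simp only [Path.coe_reparam, Function.comp]
    rw [Path.trans_apply]
    split_ifs with c
    · have h2 : (u : ℝ) = 0 := by linarith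
      have h3 : u = 0 := Subtype.ext h2
      rw [h3, q.source]
      refine Eq.trans ?_ p.target
      congr 1
      apply Subtype.ext
      simp only [e, h2, Icc.coe_one]
      ring
    · congr 1
      apply Subtype.ext
      simp only [e]
      ring

theorem Good.step {x y z : XX n} {γ : Path x y} (h : Good γ) (q : Path y z) {i : ℕ}
    (hi : i + 1 < n) (ρ : Equiv.Perm (Fin n)) (hq : ∀ t : I, (q t).1 = sig i ρ t) :
    Good (γ.trans q) := by
  right
  rcases h with ⟨d, h1, h2⟩ | ⟨d, h1, k, hk, h2⟩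
  · obtain rfl : y = x := by rw [← d.target, h2]
    have : d = Path.refl y := by
      ext t
      rw [h2]
      rfl
    rw [this] at h1
    refine ⟨q, (Path.Homotopic.refl_trans q).symm.trans (h1.hcomp (Path.Homotopic.refl q)), 1,
      le_rfl, fun j hj => ⟨i, hi, ρ, fun t s _ _ e m => ?_⟩⟩
    rw [hq, e, show j = 0 by omega]
    simp
  · obtain ⟨r, r1, r2, r3⟩ := exists_reparam d q k hk
    have hk' : (1 : ℝ) ≤ k := by exact_mod_cast hk
    refine ⟨r, r1.trans (h1.hcomp (Path.Homotopic.refl q)), k + 1, by omega, fun j hj => ?_⟩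
    rcases Nat.lt_or_ge j k with c | c
    · obtain ⟨i', hi', ρ', h3⟩ := h2 j c
      refine ⟨i', hi', ρ', fun t s s0 s1 e m => ?_⟩
      have c' : (j : ℝ) + 1 ≤ k := by exact_mod_cast c
      have hu : ((j : ℝ) + s) / k ∈ I :=
        ⟨by positivity, by rw [div_le_one (by positivity)]; linarith⟩
      rw [r2 t ⟨_, hu⟩ (by rw [e]; push_cast; field_simp)]
      exact h3 ⟨_, hu⟩ s s0 s1 rfl m
    · obtain rfl : j = k := by omega
      refine ⟨i, hi, ρ, fun t s s0 s1 e m => ?_⟩
      rw [r3 t ⟨s, s0, s1⟩ (by rw [e]; push_cast; field_simp), hq]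

theorem exists_sig {i : ℕ} (hi : i + 1 < n) (ρ : Equiv.Perm (Fin n)) {a b : Fin n}
    (ha : (ρ a : ℕ) = i) (hb : (ρ b : ℕ) = i + 1) :
    ∃ q : Path (BB ρ) (BB (ρ * Equiv.swap a b)), ∀ t : I, (q t).1 = sig i ρ t := by
  have hc := (sig_smooth i ρ).continuous
  refine ⟨{ toFun := fun t => ⟨sig i ρ t, sig_conf hi ρ t⟩
            continuous_toFun := by fun_prop
            source' := ?_
            target' := ?_ }, fun t => rfl⟩
  · apply Subtype.ext
    funext m
    exact pos_zero i _
  · apply Subtype.ext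
    funext m
    simp only [Icc.coe_one, sig, pos_one, BB, Equiv.Perm.mul_apply]
    congr 1
    by_cases h1 : m = a
    · rw [h1, if_pos ha, Equiv.swap_apply_left, hb]
    · have h1' : (ρ m : ℕ) ≠ i := fun e => h1 (ρ.injective (Fin.ext (e.trans ha.symm)))
      by_cases h2 : m = b
      · rw [if_neg h1', h2, if_pos hb, Equiv.swap_apply_right, ha]
      · have h2' : (ρ m : ℕ) ≠ i + 1 := fun e => h2 (ρ.injective (Fin.ext (e.trans hb.symm)))
        rw [if_neg h1', if_neg h2', Equiv.swap_apply_of_ne_of_ne h1 h2]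

end Pool.Agent.H190Z.Lor
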