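import Pool.Agent.H190Z.Lor3

set_option autoImplicit false

/-! Crossing walls in the positive direction. -/

namespace Pool.Agent.H190Z.Lor

open Set unitInterval

variable {n : ℕ}

def GoodAt {x y : XX n} (ρ : Equiv.Perm (Fin n)) (γ : Path x y) : Prop :=
  ∀ s : Path y (BB ρ), (∀ t, (s t).1 ∈ Ch ρ) → Good (γ.trans s)

theorem goodAt_of {x y : XX n} {ρ : Equiv.Perm (Fin n)} {γ : Path x y} (s : Path y (BB ρ))
    (hs : ∀ t, (s t).1 ∈ Ch ρ) (h : Good (γ.trans s)) : GoodAt ρ γ := fun s' hs' =>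
  h.congr ((Path.Homotopic.refl γ).hcomp (convex_homotopic (Ch_convex ρ) (Ch_conf ρ) s s' hs hs'))

theorem GoodAt.congr {x y : XX n} {ρ : Equiv.Perm (Fin n)} {γ γ' : Path x y} (h : GoodAt ρ γ)
    (e : γ.Homotopic γ') : GoodAt ρ γ' := fun s hs =>
  (h s hs).congr (e.hcomp (Path.Homotopic.refl s))

theorem swap_lt {ρ : Equiv.Perm (Fin n)} {a b : Fin n} (hab : (ρ b : ℕ) = ρ a + 1) (c d : Fin n) :
    (ρ * Equiv.swap a b) c < (ρ * Equiv.swap a b) d ↔
      (c = b ∧ d = a) ∨ (ρ c < ρ d ∧ ¬ (c = a ∧ d = b)) := by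
  have hne : a ≠ b := by
    intro e
    rw [e] at hab
    omega
  have inj : ∀ c d, (ρ c : ℕ) = ρ d ↔ c = d := fun c d =>
    ⟨fun e => ρ.injective (Fin.ext e), fun e => by rw [e]⟩
  simp only [Equiv.Perm.mul_apply, Fin.lt_def, Equiv.swap_apply_def, ← inj]
  have := (inj a b).not.mpr hne
  split_ifs <;> omega

/-- the star-shaped region containing a half twist -/
def WW (ρ : Equiv.Perm (Fin n)) (a b : Fin n) : Set (Fin n → ℂ) :=
  disc n ∩ {x | ∀ c d, (ρ c < ρ d ∧ ¬ (c = a ∧ d = b)) → (x c).re < (x d).re} ∩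
    {x | (x a).im ≤ (x b).im} ∩ {x | x a ≠ x b}

theorem WW_conf (ρ : Equiv.Perm (Fin n)) (a b : Fin n) : WW ρ a b ⊆ conf n := by
  intro x hx
  have key : ∀ c d, ρ c < ρ d → x c ≠ x d := by
    intro c d h
    by_cases h' : c = a ∧ d = b
    · rw [h'.1, h'.2]
      exact hx.2
    · intro e
      have := hx.1.1.2 c d ⟨h, h'⟩
      rw [e] at this
      exact lt_irrefl _ this
  refine ⟨fun c d hcd => ?_, hx.1.1.1⟩
  rcases lt_trichotomy (ρ c) (ρ d) with h | h | h
  · exact absurd hcd (key c d h)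
  · exact ρ.injective h
  · exact absurd hcd.symm (key d c h)

theorem WW_star (ρ : Equiv.Perm (Fin n)) (a b : Fin n) {y : Fin n → ℂ} (hy : y ∈ WW ρ a b)
    (h : (y a).im < (y b).im) : StarConvex ℝ y (WW ρ a b) := by
  intro x hx s t hs ht hst
  refine ⟨((disc_convex.inter (convex_re _)).inter (convex_imle a b)) hy.1 hx.1 hs ht hst, ?_⟩
  rcases eq_or_lt_of_le hs with h0 | h0
  · rw [← h0] at hst ⊢
    rw [show t = 1 by linarith]
    simpa using hx.2
  · intro e
    have e' := congrArg Complex.im e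
    simp only [Pi.add_apply, Pi.smul_apply, Complex.add_im, Complex.smul_im, smul_eq_mul] at e'
    have h1 : (x a).im ≤ (x b).im := hx.1.2
    nlinarith

theorem goodAt_swap {x y y' : XX n} {ρ : Equiv.Perm (Fin n)} {a b : Fin n}
    (hab : (ρ b : ℕ) = ρ a + 1) {γ : Path x y} (h : GoodAt ρ γ) (hy : y.1 ∈ Ch ρ)
    (hy' : y'.1 ∈ Ch (ρ * Equiv.swap a b)) (s : Path y y')
    (hs : ∀ t, (s t).1 ∈ WW ρ a b) (h1 : (y.1 a).im < (y.1 b).im)
    (h2 : (y'.1 a).im < (y'.1 b).im) : GoodAt (ρ * Equiv.swap a b) (γ.trans s) := by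
  have hi : (ρ a : ℕ) + 1 < n := hab ▸ (ρ b).2
  have hlt : ρ a < ρ b := by
    rw [Fin.lt_def]
    omega
  obtain ⟨q, hq⟩ := exists_sig hi ρ rfl hab
  obtain ⟨s0, hs0⟩ := exists_path ((Ch_convex ρ).inter (convex_imle a b))
    (inter_subset_left.trans (Ch_conf ρ)) y (BB ρ) ⟨hy, h1.le⟩
    ⟨base_Ch ρ, by simp [BB, pt]⟩
  obtain ⟨s2, hs2⟩ := exists_path ((Ch_convex (ρ * Equiv.swap a b)).inter (convex_imle a b))
    (inter_subset_left.trans (Ch_conf _)) y' (BB (ρ * Equiv.swap a b)) ⟨hy', h2.le⟩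
    ⟨base_Ch _, by simp [BB, pt]⟩
  have w0 : ∀ t, (s0 t).1 ∈ WW ρ a b := fun t =>
    ⟨⟨⟨(hs0 t).1.1, fun c d hcd => (hs0 t).1.2 c d hcd.1⟩, (hs0 t).2⟩, fun e => by
      have := (hs0 t).1.2 a b hlt
      rw [e] at this
      exact lt_irrefl _ this⟩
  have w2 : ∀ t, (s2 t).1 ∈ WW ρ a b := fun t =>
    ⟨⟨⟨(hs2 t).1.1, fun c d hcd => (hs2 t).1.2 c d ((swap_lt hab c d).mpr (Or.inr hcd))⟩,
      (hs2 t).2⟩, fun e => by
      have := (hs2 t).1.2 b a ((swap_lt hab b a).mpr (Or.inl ⟨rfl, rfl⟩))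
      rw [e] at this
      exact lt_irrefl _ this⟩
  have wq : ∀ t, (q t).1 ∈ WW ρ a b := by
    intro t
    rw [hq]
    have h0 : (0 : ℝ) < n := by exact_mod_cast (by omega : 0 < n)
    have hr : (0 : ℝ) < 1 / n := by positivity
    refine ⟨⟨⟨(sig_conf hi ρ t).2, fun c d hcd => ?_⟩, ?_⟩, ?_⟩
    · have := gap (n := n) (ρ a) t (j := ρ c) (j' := ρ d) hcd.1 (fun e => hcd.2
        ⟨ρ.injective (Fin.ext e.1), ρ.injective (Fin.ext (e.2.trans hab.symm))⟩)
      simp only [sig]
      linarith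
    · simp only [sig, mem_ofPred_eq, hab]
      exact pos_im_le _ t.2.1 t.2.2
    · simp only [sig, mem_ofPred_eq, hab]
      exact pos_ne (by omega) _ _
  have e : (s0.trans q).Homotopic (s.trans s2) :=
    star_homotopic (WW_star ρ a b (by simpa using w0 0) h1) (WW_conf ρ a b) _ _
      (trans_mem w0 wq) (trans_mem hs w2)
  refine goodAt_of s2 (fun t => (hs2 t).1) (((h s0 fun t => (hs0 t).1).step q hi ρ hq).congr ?_)
  exact (Path.Homotopic.trans_assoc _ _ _).trans
    (((Path.Homotopic.refl γ).hcomp e).trans (Path.Homotopic.trans_assoc _ _ _).symm)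

theorem adj_inv {ρ ρ' : Equiv.Perm (Fin n)} (h : ρ ≠ ρ') :
    ∃ a b, (ρ b : ℕ) = ρ a + 1 ∧ ρ' b < ρ' a := by
  by_contra hc
  push Not at hc
  apply h
  have hm : StrictMono fun i => ρ' (ρ.symm i) := by
    cases n with
    | zero => exact fun i => i.elim0
    | succ k =>
      rw [Fin.strictMono_iff_lt_succ]
      intro i
      refine lt_of_le_of_ne (hc _ _ (by simp)) fun e => ?_
      have := ρ.symm.injective (ρ'.injective e)
      exact (Fin.castSucc_lt_succ (i := i)).ne this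
  have := hm.eq_id
  ext m
  have h2 := congrFun this (ρ m)
  simp only [Equiv.symm_apply_apply, id] at h2
  rw [h2]

theorem goodAt_cross {x : XX n} {z : Fin n → ℂ} (hz : z ∈ conf n) (ρ' : Equiv.Perm (Fin n))
    (y' : XX n) (hy' : y'.1 ∈ Ch ρ') (N : ℕ) : ∀ (ρ : Equiv.Perm (Fin n)),
    (Finset.univ.filter fun p : Fin n × Fin n => ρ p.1 < ρ p.2 ∧ ρ' p.2 < ρ' p.1).card = N →
    (∀ a b, (z a).re = (z b).re → (z a).im < (z b).im → ρ b < ρ a → ρ' b < ρ' a) →
    ∀ (y : XX n) (γ : Path x y) (s : Path y y'), y.1 ∈ Ch ρ → (∀ t, (s t).1 ∈ UU z) →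
    GoodAt ρ γ → GoodAt ρ' (γ.trans s) := by
  induction N using Nat.strong_induction_on with
  | _ N ih =>
  intro ρ hN hmono y γ s hy hs h
  have uy : y.1 ∈ UU z := by simpa using hs 0
  have uy' : y'.1 ∈ UU z := by simpa using hs 1
  by_cases e : ρ = ρ'
  · subst e
    intro s' hs'
    obtain ⟨s0, hs0⟩ := exists_path ((UU_convex z).inter (Ch_convex ρ))
      (inter_subset_right.trans (Ch_conf ρ)) y y' ⟨uy, hy⟩ ⟨uy', hy'⟩
    refine (h (s0.trans s') (trans_mem (fun t => (hs0 t).2) hs')).congr ?_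
    exact (Path.Homotopic.trans_assoc _ _ _).symm.trans (((Path.Homotopic.refl γ).hcomp
      (convex_homotopic (UU_convex z) (UU_conf hz.1) s0 s (fun t => (hs0 t).1) hs)).hcomp
      (Path.Homotopic.refl s'))
  · obtain ⟨a, b, hab, hba⟩ := adj_inv e
    have hlt : ρ a < ρ b := by
      rw [Fin.lt_def]
      omega
    have comp : ∀ c d, ρ c < ρ d → (z c).re ≤ (z d).re := fun c d hcd =>
      not_lt.mp fun k => lt_asymm (hy.2 c d hcd) (uy.1.2 d c k)
    have hre : (z a).re = (z b).re :=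
      le_antisymm (comp a b hlt) (not_lt.mp fun k => lt_asymm (hy'.2 b a hba) (uy'.1.2 a b k))
    have him : (z a).im < (z b).im := by
      rcases lt_trichotomy (z a).im (z b).im with k | k | k
      · exact k
      · rw [hz.1 (Complex.ext hre k)] at hlt
        exact absurd hlt (lt_irrefl _)
      · exact absurd (hmono b a hre.symm k hlt) (lt_asymm hba)
    obtain ⟨w, hw1, hw2⟩ := exists_UU_Ch hz.2 (ρ * Equiv.swap a b) (by
      intro c d hcd
      rcases (swap_lt hab c d).mp hcd with k | k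
      · rw [k.1, k.2, hre]
      · exact comp c d k.1)
    let y2 : XX n := ⟨w, Ch_conf _ hw2⟩
    obtain ⟨s1, hs1⟩ := exists_path ((UU_convex z).inter
      (convex_re fun c d => ρ c < ρ d ∧ ¬ (c = a ∧ d = b)))
      (inter_subset_left.trans (UU_conf hz.1)) y y2 ⟨uy, fun c d hcd => hy.2 c d hcd.1⟩
      ⟨hw1, fun c d hcd => hw2.2 c d ((swap_lt hab c d).mpr (Or.inr hcd))⟩
    obtain ⟨s3, hs3⟩ := exists_path (UU_convex z) (UU_conf hz.1) y2 y' hw1 uy'
    have g1 := goodAt_swap hab h hy hw2 s1 (fun t => by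
      have k := (hs1 t).1.2 a b ⟨hre, him⟩
      exact ⟨⟨⟨(hs1 t).1.1.1, (hs1 t).2⟩, k.le⟩, fun e => by
        rw [e] at k
        exact lt_irrefl _ k⟩) (uy.2 a b ⟨hre, him⟩) (hw1.2 a b ⟨hre, him⟩)
    have g2 := ih _ (by
      rw [← hN]
      refine Finset.card_lt_card ⟨fun p hp => ?_, fun k => ?_⟩
      · simp only [Finset.mem_filter, Finset.mem_univ, true_and] at hp ⊢
        rcases (swap_lt hab _ _).mp hp.1 with k | k
        · rw [k.1, k.2] at hp
          exact absurd hp.2 (lt_asymm hba)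
        · exact ⟨k.1, hp.2⟩
      · have k1 := k (x := (a, b)) (by simp [hlt, hba])
        simp only [Finset.mem_filter, Finset.mem_univ, true_and] at k1
        rcases (swap_lt hab _ _).mp k1.1 with k | k
        · rw [k.1] at hlt
          exact lt_irrefl _ hlt
        · exact k.2 ⟨rfl, rfl⟩) (ρ * Equiv.swap a b) rfl (by
      intro c d k1 k2 k3
      rcases (swap_lt hab _ _).mp k3 with k | k
      · rw [k.1, k.2]
        exact hba
      · exact hmono c d k1 k2 k.1) y2 (γ.trans s1) s3 hw2 hs3 g1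
    exact g2.congr ((Path.Homotopic.trans_assoc _ _ _).trans ((Path.Homotopic.refl γ).hcomp
      (convex_homotopic (UU_convex z) (UU_conf hz.1) _ _
        (trans_mem (fun t => (hs1 t).1) hs3) hs)))

/-- a path all of whose wall crossings are positive is good -/
theorem good_of_cross {ρ0 : Equiv.Perm (Fin n)} (d : Path (BB (1 : Equiv.Perm (Fin n))) (BB ρ0))
    (hd : ∀ t0 : I, ∀ a b, ((d t0).1 a).re = ((d t0).1 b).re → ((d t0).1 a).im < ((d t0).1 b).im →
      ∀ᶠ t in nhds t0, (t < t0 → ((d t).1 a).re < ((d t).1 b).re) ∧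
        (t0 < t → ((d t).1 b).re < ((d t).1 a).re)) : Good d := by
  let pth : ∀ t : I, Path (BB (1 : Equiv.Perm (Fin n))) (d t) := fun t =>
    (d.subpath 0 t).cast d.source.symm rfl
  have hpth : ∀ t t' : I, ((pth t).trans (d.subpath t t')).Homotopic (pth t') := fun t t' =>
    Path.Homotopic.pathCast ⟨Path.Homotopy.subpathTransSubpath d 0 t t'⟩ d.source.symm rfl
  let G : I → Prop := fun t => ∀ ρ, (d t).1 ∈ Ch ρ → GoodAt ρ (pth t)
  have hc : Continuous fun t => (d t).1 := by fun_prop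
  have step : ∀ T : I, (∀ t < T, G t) → ∃ δ > 0, ∀ t : I, (t : ℝ) < T + δ → G t := by
    intro T hT
    have ev : ∀ᶠ t in nhds T, (d t).1 ∈ UU (d T).1 ∧ ∀ a b, ((d T).1 a).re = ((d T).1 b).re →
        ((d T).1 a).im < ((d T).1 b).im → (t < T → ((d t).1 a).re < ((d t).1 b).re) ∧
        (T < t → ((d t).1 b).re < ((d t).1 a).re) := by
      refine (hc.continuousAt.eventually (UU_nhds (d T).2.2)).and ?_
      refine Filter.eventually_all.mpr fun a => Filter.eventually_all.mpr fun b => ?_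
      exact Filter.eventually_all.mpr fun h1 => Filter.eventually_all.mpr fun h2 => hd T a b h1 h2
    obtain ⟨δ, hδ, hb⟩ := Metric.eventually_nhds_iff.mp ev
    have start : ∃ t : I, t ≤ T ∧ (T : ℝ) - δ < t ∧ ∃ ρ, (d t).1 ∈ Ch ρ ∧ GoodAt ρ (pth t) := by
      rcases eq_or_lt_of_le (T.2.1) with h0 | h0
      · refine ⟨0, T.2.1, by simp only [Icc.coe_zero]; linarith, 1, ?_, ?_⟩
        · rw [d.source]
          exact base_Ch 1
        · intro s hs
          left
          refine ⟨Path.refl _, ?_, fun t => rfl⟩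
          refine convex_homotopic (Ch_convex 1) (Ch_conf 1) _ _ (fun t => base_Ch 1)
            (trans_mem (fun t => ?_) hs)
          simp only [pth, Path.subpath_self, Path.cast_coe, Path.refl_apply, d.source]
          exact base_Ch 1
      · have hm : max ((T : ℝ) - δ / 2) 0 < T := max_lt (by linarith) h0
        let t : I := ⟨max ((T : ℝ) - δ / 2) 0, le_max_right _ _, hm.le.trans T.2.2⟩
        have ht : t < T := hm
        have ht2 : (T : ℝ) - δ < t := lt_max_of_lt_left (by linarith)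
        have k := hb (y := t) (by
          rw [Subtype.dist_eq, Real.dist_eq, abs_lt]
          constructor <;> linarith)
        obtain ⟨ρ, hρ⟩ := exists_Ch (x := (d t).1) (d t).2.2 (by
          intro a b hab
          simp only at hab
          rcases lt_trichotomy ((d T).1 a).re ((d T).1 b).re with c | c | c
          · exact absurd (k.1.1.2 a b c) (by rw [hab]; exact lt_irrefl _)
          · rcases lt_trichotomy ((d T).1 a).im ((d T).1 b).im with c' | c' | c'
            · exact absurd ((k.2 a b c c').1 ht) (by rw [hab]; exact lt_irrefl _)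
            · exact (d T).2.1 (Complex.ext c c')
            · exact absurd ((k.2 b a c.symm c').1 ht) (by rw [hab]; exact lt_irrefl _)
          · exact absurd (k.1.1.2 b a c) (by rw [hab]; exact lt_irrefl _))
        exact ⟨t, ht.le, ht2, ρ, hρ, hT t ht ρ hρ⟩
    obtain ⟨t, t1, t2, ρ, hρ, hg⟩ := start
    refine ⟨δ, hδ, fun t' ht' => ?_⟩
    rcases lt_or_ge t' T with c | c
    · exact hT t' c
    intro ρ' hρ'
    have near : ∀ u : I, t ≤ u → u ≤ t' → dist u T < δ := by
      intro u u1 u2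
      have u1' : (t : ℝ) ≤ u := u1
      have u2' : (u : ℝ) ≤ t' := u2
      rw [Subtype.dist_eq, Real.dist_eq, abs_lt]
      constructor <;> linarith
    have tt : t ≤ t' := t1.trans c
    refine (goodAt_cross (z := (d T).1) (d T).2 ρ' (d t') hρ' _ ρ rfl ?_ (d t) (pth t)
      (d.subpath t t') hρ ?_ hg).congr (hpth t t')
    · intro a b k1 k2 k3
      have k4 := hρ.2 b a k3
      rcases eq_or_lt_of_le t1 with k5 | k5
      · rw [k5, k1] at k4
        exact absurd k4 (lt_irrefl _)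
      · exact absurd (((hb (near t le_rfl tt)).2 a b k1 k2).1 k5) (lt_asymm k4)
    · intro u
      have : d.subpath t t' u ∈ d '' Icc t t' :=
        Path.range_subpath_of_le d t t' tt ▸ mem_range_self u
      obtain ⟨v, hv, e⟩ := this
      rw [← e]
      exact (hb (near v hv.1 hv.2)).1
  have all : ∀ t, G t := by
    by_contra hc
    push Not at hc
    obtain ⟨t0, ht0⟩ := hc
    let S : Set ℝ := Subtype.val '' {t : I | ¬ G t}
    have hne : S.Nonempty := ⟨t0, t0, ht0, rfl⟩
    have hb : BddBelow S := ⟨0, by rintro _ ⟨t, -, rfl⟩; exact t.2.1⟩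
    have h0 : 0 ≤ sInf S := le_csInf hne (by rintro _ ⟨t, -, rfl⟩; exact t.2.1)
    have h1 : sInf S ≤ 1 := (csInf_le hb ⟨t0, ht0, rfl⟩).trans t0.2.2
    obtain ⟨δ, hδ, h⟩ := step ⟨sInf S, h0, h1⟩ (by
      intro t ht
      by_contra k
      exact absurd (csInf_le hb ⟨t, k, rfl⟩) (not_le.mpr ht))
    have : sInf S + δ ≤ sInf S := le_csInf hne (by
      rintro _ ⟨t, k, rfl⟩
      exact not_lt.mp fun k' => k (h t k'))
    linarith
  have fin := all 1 ρ0 (by rw [d.target]; exact base_Ch ρ0)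
    ((Path.refl (BB ρ0)).cast d.target rfl) (fun t => base_Ch ρ0)
  refine fin.congr ?_
  have : (pth 1).trans ((Path.refl (BB ρ0)).cast d.target rfl) = d.trans (Path.refl _) := by
    ext t
    simp only [Path.trans_apply, pth, Path.subpath_zero_one, Path.cast_coe]
  rw [this]
  exact Path.Homotopic.trans_refl d

end Pool.Agent.H190Z.Lor
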