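import Pool.Agent.H190Z.Lor4

set_option autoImplicit false

/-! Time-like paths and positive words. -/

namespace Pool.Agent.H190Z.Lor

open Set unitInterval Filter Topology

variable {n : ℕ}

/-- piecewise smooth future time-like paths -/
def IsTime {x y : XX n} (d : Path x y) : Prop :=
  ∃ (k : ℕ) (τ : ℕ → ℝ), τ 0 = 0 ∧ τ k = 1 ∧ ∀ j : ℕ, j < k → τ j < τ (j + 1) ∧
    ContDiffOn ℝ ((⊤ : ℕ∞) : WithTop ℕ∞) (fun t : ℝ => (d.extend t).1) (Icc (τ j) (τ (j + 1))) ∧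
    ∀ t ∈ Icc (τ j) (τ (j + 1)),
      gL ((d.extend t).1) (derivWithin (fun t : ℝ => (d.extend t).1) (Icc (τ j) (τ (j + 1))) t)
        (derivWithin (fun t : ℝ => (d.extend t).1) (Icc (τ j) (τ (j + 1))) t) < 0 ∧
      gL ((d.extend t).1) (derivWithin (fun t : ℝ => (d.extend t).1) (Icc (τ j) (τ (j + 1))) t)
        (TT ((d.extend t).1)) < 0

theorem time_of_word (hn : 2 ≤ n) {x y : XX n} (Γ : Path x y) {k : ℕ} (hk : 1 ≤ k)
    (h : IsWord k Γ) : IsTime Γ := by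
  have hk' : (0 : ℝ) < k := by exact_mod_cast hk
  refine ⟨k, fun j => (j : ℝ) / k, by simp, by field_simp, fun j hj => ?_⟩
  obtain ⟨i, hi, ρ, h1⟩ := h j hj
  have hj' : (j : ℝ) + 1 ≤ k := by exact_mod_cast hj
  have hlt : (j : ℝ) / k < ((j + 1 : ℕ) : ℝ) / k := by
    push_cast
    gcongr
    linarith
  have heq : EqOn (fun t : ℝ => (Γ.extend t).1) (fun t : ℝ => sig i ρ (k * t - j))
      (Icc ((j : ℝ) / k) (((j + 1 : ℕ) : ℝ) / k)) := by
    intro t ht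
    have t1 := (div_le_iff₀ hk').mp ht.1
    have t2 := (le_div_iff₀ hk').mp ht.2
    push_cast at t2
    have j0 : (0 : ℝ) ≤ j := Nat.cast_nonneg _
    have t0 : t ∈ I := ⟨by nlinarith, by nlinarith⟩
    simp only [Path.extend_apply Γ t0]
    funext m
    exact h1 ⟨t, t0⟩ _ (by linarith) (by linarith) (by field_simp; ring) m
  refine ⟨hlt, ?_, fun t ht => ?_⟩
  · refine ContDiffOn.congr ?_ heq
    exact ((sig_smooth i ρ).comp ((contDiff_const.mul contDiff_id).sub contDiff_const)).contDiffOn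
  · have e1 : (Γ.extend t).1 = sig i ρ (k * t - j) := heq ht
    rw [derivWithin_congr heq e1, e1,
      (sig_deriv i ρ k j t).hasDerivWithinAt.derivWithin (uniqueDiffOn_Icc hlt t ht)]
    exact sig_time hn hi ρ _ _ (mul_pos hk' Real.pi_pos)

theorem find_right (τ : ℕ → ℝ) (t : ℝ) (h0 : τ 0 ≤ t) (k : ℕ) (h1 : t < τ k) :
    ∃ j < k, τ j ≤ t ∧ t < τ (j + 1) := by
  induction k with
  | zero => exact absurd h1 (not_lt.mpr h0)
  | succ k ih =>
    rcases lt_or_ge t (τ k) with c | c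
    · obtain ⟨j, a, b⟩ := ih c
      exact ⟨j, by omega, b⟩
    · exact ⟨k, by omega, c, h1⟩

theorem find_left (τ : ℕ → ℝ) (t : ℝ) (h0 : τ 0 < t) (k : ℕ) (h1 : t ≤ τ k) :
    ∃ j < k, τ j < t ∧ t ≤ τ (j + 1) := by
  induction k with
  | zero => exact absurd h0 (not_lt.mpr h1)
  | succ k ih =>
    rcases le_or_gt t (τ k) with c | c
    · obtain ⟨j, a, b⟩ := ih c
      exact ⟨j, by omega, b⟩
    · exact ⟨k, by omega, c, h1⟩

theorem good_of_time (hn : 2 ≤ n) {ρ0 : Equiv.Perm (Fin n)}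
    (d : Path (BB (1 : Equiv.Perm (Fin n))) (BB ρ0)) (h : IsTime d) : Good d := by
  obtain ⟨k, τ, τ0, τ1, h⟩ := h
  refine good_of_cross d fun t0 a b h1 h2 => ?_
  let f : ℝ → ℝ := fun t => ((d.extend t).1 a).re - ((d.extend t).1 b).re
  have e0 : d.extend t0 = d t0 := d.extend_extends' t0
  have f0 : f t0 = 0 := by simp only [f, e0, h1, sub_self]
  have slope_pos : ∀ j < k, (t0 : ℝ) ∈ Icc (τ j) (τ (j + 1)) →
      ∀ᶠ t in 𝓝[Icc (τ j) (τ (j + 1)) \ {(t0 : ℝ)}] (t0 : ℝ), 0 < f t / (t - t0) := by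
    intro j hj ht
    obtain ⟨-, c1, c2⟩ := h j hj
    have c3 := (c1.differentiableOn (by simp) _ ht).hasDerivWithinAt
    obtain ⟨c4, c5⟩ := c2 _ ht
    have c6 := cross_pos hn (d.extend t0).2.1 _ c4 c5 a b (by rw [e0]; exact h1)
      (by rw [e0]; exact h2)
    have c7 : HasDerivWithinAt f _ (Icc (τ j) (τ (j + 1))) t0 :=
      ((RE a).hasFDerivAt.comp_hasDerivWithinAt _ c3).sub
        ((RE b).hasFDerivAt.comp_hasDerivWithinAt _ c3)
    have c8 := (hasDerivWithinAt_iff_tendsto_slope.mp c7).eventually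
      (lt_mem_nhds (sub_pos.mpr c6))
    refine c8.mono fun t ht => ?_
    rwa [slope_def_field, f0, sub_zero] at ht
  have L : ∀ᶠ t : ℝ in 𝓝 (t0 : ℝ), t < (t0 : ℝ) → 0 ≤ t → f t < 0 := by
    rcases eq_or_lt_of_le t0.2.1 with c | c
    · exact Eventually.of_forall fun t k1 k2 => by linarith
    · obtain ⟨j, hj, k1, k2⟩ := find_left τ t0 (τ0 ▸ c) k (τ1 ▸ t0.2.2)
      have k3 : ∀ᶠ t in 𝓝[<] (t0 : ℝ), 0 < f t / (t - t0) := by
        refine (slope_pos j hj ⟨k1.le, k2⟩).filter_mono (nhdsWithin_le_of_mem ?_)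
        exact mem_of_superset (Ioo_mem_nhdsLT k1) fun t ht =>
          ⟨⟨ht.1.le, ht.2.le.trans k2⟩, ht.2.ne⟩
      refine (eventually_nhdsWithin_iff.mp k3).mono fun t k4 k5 _ => ?_
      have := (div_pos_iff.mp (k4 k5)).resolve_left fun k6 => by linarith [k6.2]
      exact this.1
  have R : ∀ᶠ t : ℝ in 𝓝 (t0 : ℝ), (t0 : ℝ) < t → t ≤ 1 → 0 < f t := by
    rcases eq_or_lt_of_le t0.2.2 with c | c
    · exact Eventually.of_forall fun t k1 k2 => by linarith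
    · obtain ⟨j, hj, k1, k2⟩ := find_right τ t0 (τ0 ▸ t0.2.1) k (τ1 ▸ c)
      have k3 : ∀ᶠ t in 𝓝[>] (t0 : ℝ), 0 < f t / (t - t0) := by
        refine (slope_pos j hj ⟨k1, k2.le⟩).filter_mono (nhdsWithin_le_of_mem ?_)
        exact mem_of_superset (Ioo_mem_nhdsGT k2) fun t ht =>
          ⟨⟨k1.trans ht.1.le, ht.2.le⟩, ht.1.ne'⟩
      refine (eventually_nhdsWithin_iff.mp k3).mono fun t k4 k5 _ => ?_
      have := (div_pos_iff.mp (k4 k5)).resolve_right fun k6 => by linarith [k6.2]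
      exact this.1
  refine (continuous_subtype_val.continuousAt.eventually (L.and R)).mono fun t ht => ?_
  have e1 : d.extend t = d t := d.extend_extends' t
  simp only [f, e1] at ht
  exact ⟨fun c => by linarith [ht.1 c t.2.1], fun c => by linarith [ht.2 c t.2.2]⟩

theorem main (hn : 2 ≤ n) (P q : XX n) (hP : ∀ m : Fin n, P.1 m = pt n m)
    (hq : ∃ ρ : Equiv.Perm (Fin n), ∀ m, q.1 m = P.1 (ρ m)) (c : Path P q)
    (hc : ¬ ∃ d : Path P q, d.Homotopic c ∧ ∀ t, d t = P) :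
    (∃ Γ : Path P q, Γ.Homotopic c ∧ ∃ k : ℕ, 1 ≤ k ∧ IsWord k Γ) ↔
      ∃ d : Path P q, d.Homotopic c ∧ IsTime d := by
  constructor
  · rintro ⟨Γ, h1, k, hk, h2⟩
    exact ⟨Γ, h1, time_of_word hn Γ hk h2⟩
  · rintro ⟨d, h1, h2⟩
    obtain ⟨ρ, hρ⟩ := hq
    obtain rfl : P = BB 1 := Subtype.ext (funext hP)
    obtain rfl : q = BB ρ := Subtype.ext (funext hρ)
    exact ((good_of_time hn d h2).congr h1).resolve_left hc

end Pool.Agent.H190Z.Lor
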