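import Pool.Agent.H190Z.ShellDefs
import Pool.Agent.Helper930.BL.J02
import Pool.Agent.Helper930.BL.J03
import Pool.Agent.Helper930.BL.J13

set_option autoImplicit false

/-! The integral of the Jacobian of a map which is symplectic near the boundary. -/

namespace Pool.Agent.H190Z.Shell

open MeasureTheory Metric Set Filter Topology H930.BL
open scoped ENNReal ContDiff

/-- determinant of four rows -/
def D4 (A B C D : Fin 4 → ℝ) : ℝ :=
  (A 0 * B 1 - A 1 * B 0) * (C 2 * D 3 - C 3 * D 2) -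
  (A 0 * B 2 - A 2 * B 0) * (C 1 * D 3 - C 3 * D 1) +
  (A 0 * B 3 - A 3 * B 0) * (C 1 * D 2 - C 2 * D 1) +
  (A 1 * B 2 - A 2 * B 1) * (C 0 * D 3 - C 3 * D 0) -
  (A 1 * B 3 - A 3 * B 1) * (C 0 * D 2 - C 2 * D 0) +
  (A 2 * B 3 - A 3 * B 2) * (C 0 * D 1 - C 1 * D 0)

theorem det_D4 (M : Matrix (Fin 4) (Fin 4) ℝ) : M.det = D4 (M 0) (M 1) (M 2) (M 3) := by
  rw [Matrix.det_succ_row_zero]
  simp only [Fin.sum_univ_four, Matrix.det_fin_three, Matrix.submatrix_apply, D4]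
  simp [Fin.succAbove, Fin.lt_def, Fin.succ, Fin.castSucc, Fin.castAdd, Fin.castLE]
  ring

theorem nl4 {h v a b : E 4 → ℝ} (hh : ContDiff ℝ ∞ h) (hc : HasCompactSupport h)
    (hv : ContDiff ℝ ∞ v) (ha : ContDiff ℝ ∞ a) (hb : ContDiff ℝ ∞ b) :
    ∫ x, D4 (fun j => pd h j x) (fun j => pd v j x) (fun j => pd a j x) (fun j => pd b j x) = 0 := by
  have hF : ContDiff ℝ ∞ (fun x : E 4 => (![v x, v x, a x, b x] : E 4)) := by
    rw [contDiff_pi]
    intro i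
    fin_cases i
    · exact hv
    · exact hv
    · exact ha
    · exact hb
  have := null_lagrangian hF hh hc 0
  simp only [det_D4] at this
  exact this

theorem int4 {h v a b : E 4 → ℝ} (hh : ContDiff ℝ ∞ h) (hc : HasCompactSupport h)
    (hv : ContDiff ℝ ∞ v) (ha : ContDiff ℝ ∞ a) (hb : ContDiff ℝ ∞ b) :
    Integrable fun x =>
      D4 (fun j => pd h j x) (fun j => pd v j x) (fun j => pd a j x) (fun j => pd b j x) := by
  have c1 := J02.aux_cont_pd hh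
  have c2 := J02.aux_cont_pd hv
  have c3 := J02.aux_cont_pd ha
  have c4 := J02.aux_cont_pd hb
  refine Continuous.integrable_of_hasCompactSupport (by unfold D4; fun_prop) ?_
  refine HasCompactSupport.intro hc.isCompact fun x hx => ?_
  simp [D4, pd_eq_zero_of_notMem hx]

theorem pd_coord (i j : Fin 4) (x : E 4) : pd (fun y : E 4 => y i) j x = if i = j then 1 else 0 := by
  unfold pd
  rw [show (fun y : E 4 => y i) = ContinuousLinearMap.proj (R := ℝ) (φ := fun _ : Fin 4 => ℝ) i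
    from rfl, ContinuousLinearMap.fderiv]
  simp [Pi.single_apply]

/-- the matrix preserves the symplectic form -/
def Sp (M : Matrix (Fin 4) (Fin 4) ℝ) : Prop :=
  ∀ i j, omega (fun l => M l i) (fun l => M l j) = omega (Pi.single i 1) (Pi.single j 1)

theorem Sp.six {M : Matrix (Fin 4) (Fin 4) ℝ} (h : Sp M) :
    M 0 0 * M 1 1 - M 1 0 * M 0 1 + M 2 0 * M 3 1 - M 3 0 * M 2 1 = 1 ∧
    M 0 0 * M 1 2 - M 1 0 * M 0 2 + M 2 0 * M 3 2 - M 3 0 * M 2 2 = 0 ∧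
    M 0 0 * M 1 3 - M 1 0 * M 0 3 + M 2 0 * M 3 3 - M 3 0 * M 2 3 = 0 ∧
    M 0 1 * M 1 2 - M 1 1 * M 0 2 + M 2 1 * M 3 2 - M 3 1 * M 2 2 = 0 ∧
    M 0 1 * M 1 3 - M 1 1 * M 0 3 + M 2 1 * M 3 3 - M 3 1 * M 2 3 = 0 ∧
    M 0 2 * M 1 3 - M 1 2 * M 0 3 + M 2 2 * M 3 3 - M 3 2 * M 2 3 = 1 := by
  refine ⟨?_, ?_, ?_, ?_, ?_, ?_⟩
  · simpa [omega] using h 0 1
  · simpa [omega] using h 0 2
  · simpa [omega] using h 0 3
  · simpa [omega] using h 1 2
  · simpa [omega] using h 1 3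
  · simpa [omega] using h 2 3

theorem Sp.det {M : Matrix (Fin 4) (Fin 4) ℝ} (h : Sp M) : M.det = 1 := by
  obtain ⟨h1, h2, h3, h4, h5, h6⟩ := h.six
  rw [det_D4, D4]
  linear_combination (M 0 2 * M 1 3 - M 1 2 * M 0 3 + M 2 2 * M 3 3 - M 3 2 * M 2 3) * h1 + h6 -
    (M 0 1 * M 1 3 - M 1 1 * M 0 3 + M 2 1 * M 3 3 - M 3 1 * M 2 3) * h2 +
    (M 0 1 * M 1 2 - M 1 1 * M 0 2 + M 2 1 * M 3 2 - M 3 1 * M 2 2) * h3

/-- contraction of `A ∧ B` with the difference of the pulled back form and the standard form -/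
def SG (M : Matrix (Fin 4) (Fin 4) ℝ) (A B : Fin 4 → ℝ) : ℝ :=
  D4 A B (M 0) (M 1) + D4 A B (M 2) (M 3) -
    D4 A B (fun j => if 0 = j then 1 else 0) (fun j => if 1 = j then 1 else 0) -
    D4 A B (fun j => if 2 = j then 1 else 0) (fun j => if 3 = j then 1 else 0)

theorem Sp.sg {M : Matrix (Fin 4) (Fin 4) ℝ} (h : Sp M) (A B : Fin 4 → ℝ) : SG M A B = 0 := by
  obtain ⟨h1, h2, h3, h4, h5, h6⟩ := h.six
  simp only [SG, D4]
  simp
  linear_combination (A 0 * B 1 - A 1 * B 0) * h6 - (A 0 * B 2 - A 2 * B 0) * h5 +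
    (A 0 * B 3 - A 3 * B 0) * h4 + (A 1 * B 2 - A 2 * B 1) * h3 - (A 1 * B 3 - A 3 * B 1) * h2 +
    (A 2 * B 3 - A 3 * B 2) * h1

theorem sg_sum (M : Matrix (Fin 4) (Fin 4) ℝ) :
    SG M (M 0) (M 1) + SG M (M 2) (M 3) +
      SG M (fun j => if 0 = j then 1 else 0) (fun j => if 1 = j then 1 else 0) +
      SG M (fun j => if 2 = j then 1 else 0) (fun j => if 3 = j then 1 else 0) =
      2 * (M.det - 1) := by
  rw [det_D4]
  simp only [SG, D4]
  simp
  ring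

theorem zero4 {f1 f2 f3 f4 : E 4 → ℝ} (i1 : Integrable f1) (i2 : Integrable f2)
    (i3 : Integrable f3) (i4 : Integrable f4) (k1 : ∫ x, f1 x = 0) (k2 : ∫ x, f2 x = 0)
    (k3 : ∫ x, f3 x = 0) (k4 : ∫ x, f4 x = 0) :
    ∫ x, (f1 x + f2 x - f3 x - f4 x) = 0 ∧ ∫ x, (f1 x + f2 x + f3 x + f4 x) = 0 := by
  have a := integral_add i1 i2
  have b := integral_sub (i1.add i2) i3
  have c := integral_sub ((i1.add i2).sub i3) i4
  have d := integral_add (i1.add i2) i3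
  have e := integral_add ((i1.add i2).add i3) i4
  simp only [Pi.add_apply, Pi.sub_apply] at b c d e
  constructor
  · rw [c, b, a, k1, k2, k3, k4]
    ring
  · rw [e, d, a, k1, k2, k3, k4]
    ring

theorem sg_int {Φ : E 4 → E 4} (hΦ : ContDiff ℝ ∞ Φ) {ψ : E 4 → ℝ} (hψ : ContDiff ℝ ∞ ψ)
    (hc : HasCompactSupport ψ) (hs : ∀ x, (∀ j, pd ψ j x = 0) ∨ Sp (jac Φ x)) {u v : E 4 → ℝ}
    (hu : ContDiff ℝ ∞ u) (hv : ContDiff ℝ ∞ v) :
    Integrable (fun x => ψ x * SG (jac Φ x) (fun j => pd u j x) (fun j => pd v j x)) ∧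
      ∫ x, ψ x * SG (jac Φ x) (fun j => pd u j x) (fun j => pd v j x) = 0 := by
  have hh : ContDiff ℝ ∞ fun x => ψ x * u x := hψ.mul hu
  have hhc : HasCompactSupport fun x => ψ x * u x := hc.mul_right
  have c : ∀ i, ContDiff ℝ ∞ fun y => Φ y i := fun i => contDiff_pi.mp hΦ i
  have p : ∀ i, ContDiff ℝ ∞ fun y : E 4 => y i := fun i => contDiff_apply ℝ ℝ i
  have e : ∀ x, ψ x * SG (jac Φ x) (fun j => pd u j x) (fun j => pd v j x) =
      D4 (fun j => pd (fun x => ψ x * u x) j x) (fun j => pd v j x)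
        (fun j => pd (fun y => Φ y 0) j x) (fun j => pd (fun y => Φ y 1) j x) +
      D4 (fun j => pd (fun x => ψ x * u x) j x) (fun j => pd v j x)
        (fun j => pd (fun y => Φ y 2) j x) (fun j => pd (fun y => Φ y 3) j x) -
      D4 (fun j => pd (fun x => ψ x * u x) j x) (fun j => pd v j x)
        (fun j => pd (fun y : E 4 => y 0) j x) (fun j => pd (fun y : E 4 => y 1) j x) -
      D4 (fun j => pd (fun x => ψ x * u x) j x) (fun j => pd v j x)
        (fun j => pd (fun y : E 4 => y 2) j x) (fun j => pd (fun y : E 4 => y 3) j x) := by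
    intro x
    have e1 : SG (jac Φ x) (fun j => pd (fun x => ψ x * u x) j x) (fun j => pd v j x) =
        ψ x * SG (jac Φ x) (fun j => pd u j x) (fun j => pd v j x) +
        u x * SG (jac Φ x) (fun j => pd ψ j x) (fun j => pd v j x) := by
      simp only [pd_mul (hψ.differentiable (by simp) x) (hu.differentiable (by simp) x), SG, D4]
      ring
    have e2 : SG (jac Φ x) (fun j => pd ψ j x) (fun j => pd v j x) = 0 := by
      rcases hs x with k | k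
      · simp [SG, D4, k]
      · exact k.sg _ _
    rw [e2, mul_zero, add_zero] at e1
    rw [← e1]
    simp only [pd_coord]
    rfl
  simp only [e]
  have i1 := int4 hh hhc hv (c 0) (c 1)
  have i2 := int4 hh hhc hv (c 2) (c 3)
  have i3 := int4 hh hhc hv (p 0) (p 1)
  have i4 := int4 hh hhc hv (p 2) (p 3)
  exact ⟨((i1.add i2).sub i3).sub i4, (zero4 i1 i2 i3 i4 (nl4 hh hhc hv (c 0) (c 1))
    (nl4 hh hhc hv (c 2) (c 3)) (nl4 hh hhc hv (p 0) (p 1)) (nl4 hh hhc hv (p 2) (p 3))).1⟩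

theorem jac_int {Φ : E 4 → E 4} (hΦ : ContDiff ℝ ∞ Φ) {ψ : E 4 → ℝ} (hψ : ContDiff ℝ ∞ ψ)
    (hc : HasCompactSupport ψ) (hs : ∀ x, (∀ j, pd ψ j x = 0) ∨ Sp (jac Φ x)) :
    ∫ x, ψ x * ((jac Φ x).det - 1) = 0 := by
  have c : ∀ i, ContDiff ℝ ∞ fun y => Φ y i := fun i => contDiff_pi.mp hΦ i
  have p : ∀ i, ContDiff ℝ ∞ fun y : E 4 => y i := fun i => contDiff_apply ℝ ℝ i
  obtain ⟨i1, k1⟩ := sg_int hΦ hψ hc hs (c 0) (c 1)
  obtain ⟨i2, k2⟩ := sg_int hΦ hψ hc hs (c 2) (c 3)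
  obtain ⟨i3, k3⟩ := sg_int hΦ hψ hc hs (p 0) (p 1)
  obtain ⟨i4, k4⟩ := sg_int hΦ hψ hc hs (p 2) (p 3)
  have e : ∀ x, ψ x * ((jac Φ x).det - 1) = (1 / 2) *
      (ψ x * SG (jac Φ x) (fun j => pd (fun y => Φ y 0) j x) (fun j => pd (fun y => Φ y 1) j x) +
      ψ x * SG (jac Φ x) (fun j => pd (fun y => Φ y 2) j x) (fun j => pd (fun y => Φ y 3) j x) +
      ψ x * SG (jac Φ x) (fun j => pd (fun y : E 4 => y 0) j x)
        (fun j => pd (fun y : E 4 => y 1) j x) +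
      ψ x * SG (jac Φ x) (fun j => pd (fun y : E 4 => y 2) j x)
        (fun j => pd (fun y : E 4 => y 3) j x)) := by
    intro x
    have := sg_sum (jac Φ x)
    simp only [pd_coord]
    change _ = (1 / 2) * (ψ x * SG (jac Φ x) (jac Φ x 0) (jac Φ x 1) +
      ψ x * SG (jac Φ x) (jac Φ x 2) (jac Φ x 3) + _ + _)
    linear_combination (-(ψ x) / 2) * this
  simp only [e]
  rw [integral_const_mul, (zero4 i1 i2 i3 i4 k1 k2 k3 k4).2, mul_zero]

end Pool.Agent.H190Z.Shell
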