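import Pool.Agent.H190Z.Shell1

set_option autoImplicit false

/-! The degree function of a smooth map on a cube. -/

namespace Pool.Agent.H190Z.Shell

open MeasureTheory Metric Set Filter Topology H930.BL
open scoped ENNReal ContDiff

/-- points whose norm lies in `T` -/
def An (T : Set ℝ) : Set (E 4) := {x | ‖x‖ ∈ T}

theorem An_preconn {T : Set ℝ} (hT : IsPreconnected T) (h0 : ∀ t ∈ T, 0 < t) :
    IsPreconnected (An T) := by
  have e : An T = (fun p : ℝ × E 4 => p.1 • p.2) '' (T ×ˢ sphere (0 : E 4) 1) := by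
    ext x
    constructor
    · intro hx
      have h1 := h0 _ hx
      refine ⟨(‖x‖, ‖x‖⁻¹ • x), ⟨hx, ?_⟩, ?_⟩
      · rw [mem_sphere_zero_iff_norm, norm_smul, norm_inv, norm_norm, inv_mul_cancel₀ h1.ne']
      · simp only
        rw [smul_smul, mul_inv_cancel₀ h1.ne', one_smul]
    · rintro ⟨⟨t, u⟩, ⟨ht, hu⟩, rfl⟩
      rw [mem_sphere_zero_iff_norm] at hu
      simp only at hu ht
      simp only [An, mem_ofPred_eq, norm_smul, hu, mul_one, Real.norm_of_nonneg (h0 t ht).le]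
      exact ht
  rw [e]
  refine (hT.prod (isPreconnected_sphere ?_ _ _)).image _ (by fun_prop)
  rw [← Module.finrank_eq_rank]
  simp

theorem An_open {T : Set ℝ} (hT : IsOpen T) : IsOpen (An T) := hT.preimage continuous_norm

theorem An_nonempty {T : Set ℝ} {t : ℝ} (ht : t ∈ T) (h0 : 0 ≤ t) : (An T).Nonempty :=
  ⟨fun _ => t, by simpa [An, pi_norm_const, abs_of_nonneg h0] using ht⟩

theorem ae_unique {V : Set (E 4)} (hV : IsOpen V) (hne : V.Nonempty) {v : E 4 → ℝ} {c c' : ℝ}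
    (h : ∀ᵐ x, x ∈ V → v x = c) (h' : ∀ᵐ x, x ∈ V → v x = c') : c = c' := by
  by_contra hc
  have : ∀ᵐ x, x ∉ V := by
    filter_upwards [h, h'] with x a b k
    exact hc ((a k).symm.trans (b k))
  exact (hV.measure_pos volume hne).ne' (measure_eq_zero_iff_ae_notMem.mpr this)

theorem ae_const {W : Set (E 4)} (hW : IsOpen W) (hc : IsPreconnected W) {v : E 4 → ℝ}
    (hv : LocallyIntegrable v)
    (h : ∀ f : E 4 → ℝ, ContDiff ℝ ∞ f → HasCompactSupport f → tsupport f ⊆ W →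
      ∀ j, ∫ x, v x * pd f j x = 0) : ∃ c : ℝ, ∀ᵐ x, x ∈ W → v x = c := by
  rcases W.eq_empty_or_nonempty with rfl | ⟨y0, hy0⟩
  · exact ⟨0, Eventually.of_forall fun x hx => hx.elim⟩
  let P : ℝ → Set (E 4) := fun c => {y | ∃ r > 0, ∀ᵐ x, x ∈ ball y r → v x = c}
  have ho : ∀ c, IsOpen (P c) := by
    intro c
    rw [Metric.isOpen_iff]
    rintro y ⟨r, hr, h1⟩
    refine ⟨r / 2, by positivity, fun z hz => ⟨r / 2, by positivity, ?_⟩⟩
    filter_upwards [h1] with x hx k
    apply hx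
    rw [mem_ball] at *
    linarith [dist_triangle x z y]
  have hex : ∀ y ∈ W, ∃ c, y ∈ P c := by
    intro y hy
    obtain ⟨r, hr, h1⟩ := Metric.isOpen_iff.mp hW y hy
    obtain ⟨c, h2⟩ := J13.const_of_weak hr hv fun f a b k => h f a b (k.trans h1)
    rw [ae_restrict_iff' measurableSet_closedBall] at h2
    exact ⟨c, r, hr, h2.mono fun x hx k => hx (ball_subset_closedBall k)⟩
  obtain ⟨c, hc0⟩ := hex y0 hy0
  have hsub : W ⊆ P c := by
    refine hc.subset_left_of_subset_union (ho c) (v := ⋃ c' ∈ {c' | c' ≠ c}, P c')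
      (isOpen_biUnion fun c' _ => ho c') ?_ ?_ ⟨y0, hy0, hc0⟩
    · rw [disjoint_left]
      rintro y ⟨r, hr, h1⟩ h2
      obtain ⟨c', k, r', hr', h3⟩ := mem_iUnion₂.mp h2
      apply k
      refine ae_unique isOpen_ball (nonempty_ball.mpr (lt_min hr hr')) (v := v) (V := ball y _)
        (h3.mono fun x hx k => hx (ball_subset_ball (min_le_right _ _) k))
        (h1.mono fun x hx k => hx (ball_subset_ball (min_le_left _ _) k))
    · intro y hy
      obtain ⟨c', k⟩ := hex y hy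
      by_cases e : c' = c
      · exact Or.inl (e ▸ k)
      · exact Or.inr (mem_iUnion₂.mpr ⟨c', e, k⟩)
  refine ⟨c, ?_⟩
  rw [ae_iff]
  refine measure_null_of_locally_null _ fun y hy => ?_
  simp only [mem_ofPred_eq, Classical.not_imp] at hy
  obtain ⟨r, hr, h1⟩ := hsub hy.1
  refine ⟨_, inter_mem_nhdsWithin _ (ball_mem_nhds y hr), ?_⟩
  refine measure_mono_null ?_ (ae_iff.mp h1)
  intro x hx
  simp only [mem_inter_iff, mem_ofPred_eq, Classical.not_imp] at hx ⊢
  exact ⟨hx.2, hx.1.2⟩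

theorem pd_bump (b : ContDiffBump (0 : E 4)) {x : E 4} (hx : ‖x‖ < b.rIn ∨ b.rOut < ‖x‖)
    (j : Fin 4) : pd b j x = 0 := by
  rcases hx with hx | hx
  · unfold pd
    rw [(b.eventuallyEq_one_of_mem_ball (mem_ball_zero_iff.mpr hx)).fderiv_eq]
    simp
  · apply pd_eq_zero_of_notMem
    rw [b.tsupport_eq, mem_closedBall_zero_iff]
    exact not_le.mpr hx

theorem weak_zero {Φ : E 4 → E 4} (hΦ : ContDiff ℝ ∞ Φ) {t : ℝ} (ht : 0 < t) {f : E 4 → ℝ}
    (hf : ContDiff ℝ ∞ f) (hs : tsupport f ⊆ (Φ '' sphere 0 t)ᶜ) (j : Fin 4) :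
    ∫ x in ball 0 t, pd f j (Φ x) * (jac Φ x).det = 0 := by
  obtain ⟨r, hr, h1⟩ := exists_lt_subset_ball
    (((isClosed_tsupport f).preimage hΦ.continuous).inter (isClosed_closedBall (x := 0) (ε := t)))
    (x := 0) (r := t) (by
      rintro x ⟨h1, h2⟩
      rw [mem_closedBall_zero_iff] at h2
      rw [mem_ball_zero_iff]
      exact lt_of_le_of_ne h2 fun e => hs h1 ⟨x, mem_sphere_zero_iff_norm.mpr e, rfl⟩)
  let b : ContDiffBump (0 : E 4) := ⟨max r (t / 2), t, lt_max_of_lt_right (by linarith),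
    max_lt hr (by linarith)⟩
  have key : ∀ x, ‖x‖ ≤ t → Φ x ∈ tsupport f → ‖x‖ < b.rIn := fun x a k =>
    lt_max_of_lt_left (mem_ball_zero_iff.mp (h1 ⟨k, mem_closedBall_zero_iff.mpr a⟩))
  have h2 := ibp_smooth hΦ b.contDiff b.hasCompactSupport hf j
  have h3 : ∀ x, f (Φ x) * ∑ i, (jac Φ x).adjugate i j * pd b i x = 0 := by
    intro x
    by_cases k : Φ x ∈ tsupport f
    · have : ‖x‖ < b.rIn ∨ b.rOut < ‖x‖ := by
        rcases le_or_gt ‖x‖ t with a | a
        · exact Or.inl (key x a k)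
        · exact Or.inr a
      simp [pd_bump b this]
    · rw [image_eq_zero_of_notMem_tsupport k, zero_mul]
  simp only [h3, integral_zero, neg_zero] at h2
  rw [← h2, ← integral_indicator measurableSet_ball]
  congr 1
  ext x
  by_cases a : x ∈ ball (0 : E 4) t
  · rw [indicator_of_mem a]
    by_cases k : Φ x ∈ tsupport f
    · rw [b.one_of_mem_closedBall
        (mem_closedBall_zero_iff.mpr (key x (mem_ball_zero_iff.mp a).le k).le), one_mul]
    · simp [pd_eq_zero_of_notMem k]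
  · rw [indicator_of_notMem a, b.zero_of_le_dist (by simpa using a), zero_mul, zero_mul]

theorem jac_ball {Φ : E 4 → E 4} (hΦ : ContDiff ℝ ∞ Φ) {a s : ℝ} (ha : 0 < a) (has : a < s)
    (h : ∀ x ∈ An (Icc a s), Sp (jac Φ x)) :
    ∫ x in ball 0 s, (jac Φ x).det = (2 * s) ^ 4 := by
  have hs0 : 0 < s := ha.trans has
  let b : ContDiffBump (0 : E 4) := ⟨a, s, ha, has⟩
  have h1 := jac_int hΦ b.contDiff b.hasCompactSupport (fun x => by
    by_cases k : ‖x‖ < b.rIn ∨ b.rOut < ‖x‖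
    · exact Or.inl (pd_bump b k)
    · push Not at k
      exact Or.inr (h x k))
  have h2 : ∀ x, b x * ((jac Φ x).det - 1) =
      (ball (0 : E 4) s).indicator (fun x => (jac Φ x).det - 1) x := by
    intro x
    by_cases k : x ∈ ball (0 : E 4) s
    · rw [indicator_of_mem k]
      rcases le_or_gt ‖x‖ a with c | c
      · rw [b.one_of_mem_closedBall (mem_closedBall_zero_iff.mpr c), one_mul]
      · rw [(h x ⟨c.le, (mem_ball_zero_iff.mp k).le⟩).det]
        simp
    · rw [indicator_of_notMem k, b.zero_of_le_dist (by simpa using k), zero_mul]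
  simp only [h2] at h1
  have hi : IntegrableOn (fun x => (jac Φ x).det) (ball (0 : E 4) s) :=
    ((continuous_det_jac (hΦ.of_le (by simp))).continuousOn.integrableOn_compact
      (isCompact_closedBall 0 s)).mono_set ball_subset_closedBall
  rw [integral_indicator measurableSet_ball,
    integral_sub hi (integrableOn_const measure_ball_lt_top.ne), sub_eq_zero] at h1
  rw [h1, setIntegral_const, smul_eq_mul, mul_one, Measure.real, Real.volume_pi_ball 0 (by linarith),
    ENNReal.toReal_ofReal (by positivity)]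
  simp

theorem degree_fun {Φ : E 4 → E 4} (hΦ : ContDiff ℝ ∞ Φ) (t : ℝ) :
    ∃ N : E 4 → ℝ, Integrable N ∧ ∀ ψ : E 4 → ℝ, Measurable ψ → (∃ C : ℝ, ∀ y, |ψ y| ≤ C) →
      ∫ x in ball 0 t, ψ (Φ x) * (jac Φ x).det = ∫ y, ψ y * N y := by
  have hi : IntegrableOn (fun x => (jac Φ x).det) (ball (0 : E 4) t) :=
    ((continuous_det_jac (hΦ.of_le (by simp))).continuousOn.integrableOn_compact
      (isCompact_closedBall 0 t)).mono_set ball_subset_closedBall
  obtain ⟨N, -, h1, h2, -⟩ := area_integer (f := Φ) (f' := fderiv ℝ Φ) (s := ball 0 t)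
    measurableSet_ball (fun x _ => (hΦ.differentiable (by simp) x).hasFDerivAt.hasFDerivWithinAt)
    (by simpa only [det_fderiv hΦ] using hi)
  exact ⟨fun y => N y, h1, by simpa only [det_fderiv hΦ] using h2⟩

theorem degree_const {Φ : E 4 → E 4} (hΦ : ContDiff ℝ ∞ Φ) {t : ℝ} (ht : 0 < t) {N : E 4 → ℝ}
    (hN : Integrable N) (h : ∀ ψ : E 4 → ℝ, Measurable ψ → (∃ C : ℝ, ∀ y, |ψ y| ≤ C) →
      ∫ x in ball 0 t, ψ (Φ x) * (jac Φ x).det = ∫ y, ψ y * N y)
    {W : Set (E 4)} (hW : IsOpen W) (hc : IsPreconnected W) (hs : W ⊆ (Φ '' sphere 0 t)ᶜ) :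
    ∃ c : ℝ, ∀ᵐ x, x ∈ W → N x = c := by
  refine ae_const hW hc hN.locallyIntegrable fun f h1 h2 h3 j => ?_
  have c1 := J02.aux_cont_pd h1 j
  obtain ⟨C, hC⟩ := c1.bounded_above_of_compact_support (J01.pd_supp h2 j)
  rw [← weak_zero hΦ ht h1 (h3.trans hs) j, h _ c1.measurable ⟨C, hC⟩]
  simp only [mul_comm]

end Pool.Agent.H190Z.Shell
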