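import Pool.Agent.H190Z.Shell2

set_option autoImplicit false

/-! The region enclosed by a symplectically embedded shell. -/

namespace Pool.Agent.H190Z.Shell

open MeasureTheory Metric Set Filter Topology H930.BL
open scoped ENNReal ContDiff

theorem image_open {Φ : E 4 → E 4} (hΦ : ContDiff ℝ ∞ Φ) {V : Set (E 4)} (hV : IsOpen V)
    (h : ∀ x ∈ V, Sp (jac Φ x)) : IsOpen (Φ '' V) := by
  rw [isOpen_iff_mem_nhds]
  rintro _ ⟨x, hx, rfl⟩
  have h1 : (fderiv ℝ Φ x).det ≠ 0 := by
    rw [det_fderiv hΦ, (h x hx).det]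
    exact one_ne_zero
  have h2 : HasStrictFDerivAt Φ
      ((fderiv ℝ Φ x).toContinuousLinearEquivOfDetNeZero h1 : E 4 →L[ℝ] E 4) x := by
    rw [ContinuousLinearMap.coe_toContinuousLinearEquivOfDetNeZero]
    exact hΦ.contDiffAt.hasStrictFDerivAt (by simp)
  rw [← h2.map_nhds_eq_of_equiv]
  exact image_mem_map (hV.mem_nhds hx)

theorem two_comp {S In Out : Set (E 4)} (hS : IsClosed S) (hne : S.Nonempty)
    (hC : IsOpen (In ∪ S ∪ Out)) (h1 : IsPreconnected In) (h2 : IsPreconnected Out)
    (d1 : In ⊆ Sᶜ) (d2 : Out ⊆ Sᶜ) {p q : E 4} (hp : p ∈ In) (hq : q ∈ Out) :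
    connectedComponentIn Sᶜ p ∪ connectedComponentIn Sᶜ q = Sᶜ := by
  refine Subset.antisymm
    (union_subset (connectedComponentIn_subset _ _) (connectedComponentIn_subset _ _)) ?_
  intro y hy
  have hW : IsOpen (connectedComponentIn Sᶜ y) := hS.isOpen_compl.connectedComponentIn
  have hyW := mem_connectedComponentIn hy
  have : ∃ z ∈ closure (connectedComponentIn Sᶜ y), z ∉ connectedComponentIn Sᶜ y := by
    by_contra hc
    push Not at hc
    have h3 : IsClopen (connectedComponentIn Sᶜ y) := ⟨isClosed_of_closure_subset hc, hW⟩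
    obtain ⟨z, hz⟩ := hne
    have h4 := h3.eq_univ ⟨y, hyW⟩
    exact connectedComponentIn_subset Sᶜ y (h4 ▸ mem_univ z) hz
  obtain ⟨z, hz, hz'⟩ := this
  have hzS : z ∈ S := by
    by_contra k
    obtain ⟨w, hw1, hw2⟩ := mem_closure_iff.mp hz _
      (hS.isOpen_compl.connectedComponentIn (x := z)) (mem_connectedComponentIn k)
    apply hz'
    rw [connectedComponentIn_eq hw2, ← connectedComponentIn_eq hw1]
    exact mem_connectedComponentIn k
  obtain ⟨w, hw1, hw2⟩ := mem_closure_iff.mp hz _ hC (Or.inl (Or.inr hzS))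
  rcases hw1 with (k | k) | k
  · left
    rw [connectedComponentIn_eq (h1.subset_connectedComponentIn hp d1 k),
      ← connectedComponentIn_eq hw2]
    exact hyW
  · exact absurd k (connectedComponentIn_subset _ _ hw2)
  · right
    rw [connectedComponentIn_eq (h2.subset_connectedComponentIn hq d2 k),
      ← connectedComponentIn_eq hw2]
    exact hyW

/-- data describing the two sides of a compact hypersurface `S` inside the set `Y` -/
structure Sides (Y S U O : Set (E 4)) (v : ℝ) : Prop where
  sub : S ⊆ Y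
  null : volume S = 0
  pU : IsPreconnected U
  pO : IsPreconnected O
  oU : IsOpen U
  oO : IsOpen O
  dis : Disjoint U O
  cov : U ∪ O = Sᶜ
  bdd : Bornology.IsBounded U
  bdS : Bornology.IsBounded S
  vol : volume U = ENNReal.ofReal v
  inn : (U ∩ Y).Nonempty
  out : ∃ V, IsOpen V ∧ V.Nonempty ∧ V ⊆ O ∩ Y

theorem fill {Φ : E 4 → E 4} (hΦ : ContDiff ℝ ∞ Φ) {a s b : ℝ} (ha : 0 < a) (has : a < s)
    (hsb : s < b) (hinj : InjOn Φ (An (Ioo a b))) (h : ∀ x ∈ An (Ioo a b), Sp (jac Φ x)) :
    ∃ S U O, Sides (Φ '' An (Ioo a b)) S U O ((2 * s) ^ 4) := by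
  have hc := hΦ.continuous
  have hs : 0 < s := ha.trans has
  obtain ⟨t, ht1, ht2⟩ := exists_between has
  have ht : 0 < t := ha.trans ht1
  have sph : ∀ r, sphere (0 : E 4) r = An {r} := fun r => by
    ext x
    simp [An]
  have mono : ∀ {T T' : Set ℝ}, T ⊆ T' → An T ⊆ An T' := fun k x hx => k hx
  have op : ∀ p q, a ≤ p → q ≤ b → IsOpen (Φ '' An (Ioo p q)) := fun p q k1 k2 =>
    image_open hΦ (An_open isOpen_Ioo) fun x hx => h x (mono (Ioo_subset_Ioo k1 k2) hx)
  have pc : ∀ p q, a ≤ p → IsPreconnected (Φ '' An (Ioo p q)) := fun p q k =>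
    (An_preconn isPreconnected_Ioo fun r hr => by linarith [hr.1]).image _ hc.continuousOn
  have ne : ∀ p q, a ≤ p → p < q → (Φ '' An (Ioo p q)).Nonempty := fun p q k1 k2 =>
    (An_nonempty (T := Ioo p q) (t := (p + q) / 2) ⟨by linarith, by linarith⟩ (by linarith)).image _
  have dj : ∀ {T T' : Set ℝ}, T ⊆ Ioo a b → T' ⊆ Ioo a b → Disjoint T T' →
      Φ '' An T ⊆ (Φ '' An T')ᶜ := by
    rintro T T' k1 k2 k3 _ ⟨x, hx, rfl⟩ ⟨y, hy, e⟩
    rw [hinj (mono k2 hy) (mono k1 hx) e] at hy
    exact disjoint_left.mp k3 hx hy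
  have sS : ({s} : Set ℝ) ⊆ Ioo a b := singleton_subset_iff.mpr ⟨has, hsb⟩
  set S := Φ '' An {s} with hSd
  have hSc : IsCompact S := by
    rw [hSd, ← sph]
    exact (isCompact_sphere _ _).image hc
  have hS0 : volume S = 0 := by
    rw [hSd, ← sph]
    exact addHaar_image_eq_zero_of_differentiableOn_of_addHaar_eq_zero volume
      (hΦ.differentiable (by simp)).differentiableOn (Measure.addHaar_sphere volume _ _)
  have dIn : Φ '' An (Ioo a s) ⊆ Sᶜ := dj (Ioo_subset_Ioo le_rfl hsb.le) sS (by simp)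
  have dOut : Φ '' An (Ioo s b) ⊆ Sᶜ := dj (Ioo_subset_Ioo has.le le_rfl) sS (by simp)
  obtain ⟨p, hp⟩ := ne a s le_rfl has
  obtain ⟨q, hq⟩ := ne s b has.le hsb
  have cov := two_comp hSc.isClosed ((An_nonempty (mem_singleton s) hs.le).image _) (by
    have : Φ '' An (Ioo a s) ∪ S ∪ Φ '' An (Ioo s b) = Φ '' An (Ioo a b) := by
      rw [hSd, ← image_union, ← image_union]
      congr 1
      ext x
      simp only [An, mem_union, mem_ofPred_eq, mem_Ioo, mem_singleton_iff]
      constructor
      · rintro ((k | k) | k)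
        · exact ⟨k.1, k.2.trans hsb⟩
        · exact k ▸ ⟨has, hsb⟩
        · exact ⟨has.trans k.1, k.2⟩
      · intro k
        rcases lt_trichotomy ‖x‖ s with c | c | c
        · exact Or.inl (Or.inl ⟨k.1, c⟩)
        · exact Or.inl (Or.inr c)
        · exact Or.inr ⟨c, k.2⟩
    rw [this]
    exact op a b le_rfl le_rfl) (pc a s le_rfl) (pc s b has.le) dIn dOut hp hq
  set U := connectedComponentIn Sᶜ p
  set O := connectedComponentIn Sᶜ q
  have oU : IsOpen U := hSc.isClosed.isOpen_compl.connectedComponentIn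
  have oO : IsOpen O := hSc.isClosed.isOpen_compl.connectedComponentIn
  have pU : IsPreconnected U := isPreconnected_connectedComponentIn
  have pO : IsPreconnected O := isPreconnected_connectedComponentIn
  have iU : Φ '' An (Ioo a s) ⊆ U := (pc a s le_rfl).subset_connectedComponentIn hp dIn
  have iO : Φ '' An (Ioo s b) ⊆ O := (pc s b has.le).subset_connectedComponentIn hq dOut
  -- degree functions
  obtain ⟨N0, hN0, e0⟩ := degree_fun hΦ t
  have sI : Ico t s ⊆ Ioo a b := fun r hr => ⟨ht1.trans_le hr.1, hr.2.trans hsb⟩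
  have mI : MeasurableSet (An (Ico t s)) := measurableSet_Ico.preimage measurable_norm
  have dI : ∀ x ∈ An (Ico t s), HasFDerivWithinAt Φ (fderiv ℝ Φ x) (An (Ico t s)) x :=
    fun x _ => (hΦ.differentiable (by simp) x).hasFDerivAt.hasFDerivWithinAt
  have mC : MeasurableSet (Φ '' An (Ico t s)) :=
    measurable_image_of_fderivWithin mI dI (hinj.mono (mono sI))
  have hB : IsCompact (Φ '' closedBall 0 s) := (isCompact_closedBall _ _).image hc
  have fC : volume (Φ '' An (Ico t s)) ≠ ⊤ :=
    (lt_of_le_of_lt (measure_mono (image_mono fun x hx =>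
      mem_closedBall_zero_iff.mpr hx.2.le)) hB.measure_lt_top).ne
  let N : E 4 → ℝ := fun y => N0 y + (Φ '' An (Ico t s)).indicator (fun _ => 1) y
  have i1 : Integrable ((Φ '' An (Ico t s)).indicator fun _ => (1 : ℝ)) :=
    (integrable_indicator_iff mC).mpr (integrableOn_const fC)
  have hN : Integrable N := hN0.add i1
  have e1 : ∀ ψ : E 4 → ℝ, Measurable ψ → (∃ C : ℝ, ∀ y, |ψ y| ≤ C) →
      ∫ x in ball 0 s, ψ (Φ x) * (jac Φ x).det = ∫ y, ψ y * N y := by
    intro ψ m1 m2
    obtain ⟨C, hC⟩ := m2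
    have hi : IntegrableOn (fun x => ψ (Φ x) * (jac Φ x).det) (closedBall (0 : E 4) s) :=
      Integrable.bdd_mul (c := C)
        ((continuous_det_jac (hΦ.of_le (by simp))).continuousOn.integrableOn_compact
          (isCompact_closedBall 0 s)) (m1.comp hc.measurable).aestronglyMeasurable
        (Eventually.of_forall fun x => hC _)
    have u1 : ball (0 : E 4) s = ball 0 t ∪ An (Ico t s) := by
      ext x
      simp only [mem_ball_zero_iff, mem_union, An, mem_ofPred_eq, mem_Ico]
      constructor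
      · intro k
        rcases lt_or_ge ‖x‖ t with c | c
        · exact Or.inl c
        · exact Or.inr ⟨c, k⟩
      · rintro (k | k)
        · exact k.trans ht2
        · exact k.2
    rw [u1, setIntegral_union (disjoint_left.mpr fun x k1 k2 =>
        absurd (mem_ball_zero_iff.mp k1) (not_lt.mpr k2.1)) mI
      (hi.mono_set (ball_subset_closedBall.trans (closedBall_subset_closedBall ht2.le)))
      (hi.mono_set fun x hx => mem_closedBall_zero_iff.mpr hx.2.le), e0 ψ m1 ⟨C, hC⟩]
    have u2 : ∫ x in An (Ico t s), ψ (Φ x) * (jac Φ x).det = ∫ y in Φ '' An (Ico t s), ψ y := by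
      rw [integral_image_eq_integral_abs_det_fderiv_smul volume mI dI (hinj.mono (mono sI))]
      refine setIntegral_congr_fun mI fun x hx => ?_
      simp only [det_fderiv hΦ, (h x (mono sI hx)).det, abs_one, mul_one, one_smul]
    rw [u2, ← integral_indicator mC]
    simp only [N, mul_add]
    rw [integral_add (hN0.bdd_mul (c := C) m1.aestronglyMeasurable (Eventually.of_forall hC))
      (i1.bdd_mul (c := C) m1.aestronglyMeasurable (Eventually.of_forall hC))]
    congr 2
    ext y
    by_cases k : y ∈ Φ '' An (Ico t s) <;> simp [k]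
  have tot : ∫ y, N y = (2 * s) ^ 4 := by
    have := e1 (fun _ => 1) measurable_const ⟨1, by simp⟩
    simp only [one_mul] at this
    rw [← this]
    exact jac_ball hΦ ht ht2 fun x hx => h x ⟨ht1.trans_le hx.1, hx.2.trans_lt hsb⟩
  obtain ⟨c, hc0⟩ := degree_const hΦ ht hN0 e0 (op t b ht1.le le_rfl) (pc t b ht1.le) (by
    rw [sph]
    exact dj (Ioo_subset_Ioo ht1.le le_rfl)
      (singleton_subset_iff.mpr ⟨ht1, ht2.trans hsb⟩) (by simp))
  obtain ⟨cU, hcU⟩ := degree_const hΦ hs hN e1 oU pU
    (by rw [sph]; exact connectedComponentIn_subset _ _)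
  obtain ⟨cO, hcO⟩ := degree_const hΦ hs hN e1 oO pO
    (by rw [sph]; exact connectedComponentIn_subset _ _)
  have eU : cU = c + 1 := by
    refine ae_unique (op t s ht1.le hsb.le) (ne t s ht1.le ht2) (v := N)
      (hcU.mono fun x k k' => k (iU (image_mono (mono (Ioo_subset_Ioo ht1.le le_rfl)) k')))
      (hc0.mono fun x k k' => ?_)
    simp only [N]
    rw [k (image_mono (mono (Ioo_subset_Ioo le_rfl hsb.le)) k'),
      indicator_of_mem (image_mono (mono Ioo_subset_Ico_self) k')]
  have eO : cO = c := by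
    refine ae_unique (op s b has.le le_rfl) (ne s b has.le hsb) (v := N)
      (hcO.mono fun x k k' => k (iO k')) (hc0.mono fun x k k' => ?_)
    simp only [N]
    rw [k (image_mono (mono (Ioo_subset_Ioo ht2.le le_rfl)) k'), indicator_of_notMem
      (dj (Ioo_subset_Ioo has.le le_rfl) sI (disjoint_left.mpr fun r k1 k2 =>
        lt_asymm k1.1 k2.2) k'), add_zero]
  have dis : Disjoint U O := by
    rw [disjoint_left]
    intro y k1 k2
    have := ae_unique (oU.inter oO) ⟨y, k1, k2⟩ (v := N) (hcU.mono fun x k k' => k k'.1)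
      (hcO.mono fun x k k' => k k'.2)
    linarith
  have unb : ∀ {W : Set (E 4)} {d : ℝ}, MeasurableSet W → volume W = ⊤ →
      (∀ᵐ x, x ∈ W → N x = d) → d = 0 := by
    intro W d m1 m2 m3
    have : IntegrableOn (fun _ => d) W :=
      hN.integrableOn.congr_fun_ae ((ae_restrict_iff' m1).mpr m3)
    rcases (integrableOn_const_iff (C := d)).mp this with k | k
    · simpa using k
    · exact absurd m2 k.ne
  obtain ⟨R, hR⟩ := hSc.isBounded.subset_closedBall (0 : E 4)
  have hR0 : 0 ≤ R := by
    obtain ⟨z, hz⟩ := (An_nonempty (mem_singleton s) hs.le).image Φ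
    exact (norm_nonneg z).trans (mem_closedBall_zero_iff.mp (hR hz))
  have hF : An (Ioi R) ⊆ U ∪ O := by
    rw [cov]
    intro y k1 k2
    exact absurd (mem_closedBall_zero_iff.mp (hR k2)) (not_le.mpr k1)
  have vF : volume (An (Ioi R)) = ⊤ := by
    by_contra k
    have k1 : (univ : Set (E 4)) ⊆ An (Ioi R) ∪ closedBall 0 R := fun y _ => by
      rcases lt_or_ge R ‖y‖ with c | c
      · exact Or.inl c
      · exact Or.inr (mem_closedBall_zero_iff.mpr c)
    have k2 := (measure_mono (μ := volume) k1).trans (measure_union_le _ _)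
    rw [measure_univ_of_isAddLeftInvariant] at k2
    exact ENNReal.add_ne_top.mpr ⟨k, measure_closedBall_lt_top.ne⟩ (top_le_iff.mp k2)
  have split : ∫ y, N y = cU * volume.real U + cO * volume.real O := by
    rw [← setIntegral_univ, setIntegral_congr_set (t := U ∪ O) (by
        rw [cov]
        exact (ae_eq_univ.mpr (by simpa using hS0)).symm),
      setIntegral_union dis oO.measurableSet hN.integrableOn hN.integrableOn,
      setIntegral_congr_ae oU.measurableSet hcU, setIntegral_congr_ae oO.measurableSet hcO]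
    simp [mul_comm]
  have pos : 0 < (2 * s) ^ 4 := by positivity
  rcases (An_preconn isPreconnected_Ioi fun r hr => hR0.trans_lt hr).subset_or_subset oU oO dis hF
    with k | k
  · exfalso
    have k1 := unb oU.measurableSet (top_le_iff.mp (vF ▸ measure_mono k)) hcU
    have k2 : 0 ≤ volume.real O := measureReal_nonneg
    rw [tot, k1, eO, show c = -1 by linarith] at split
    linarith
  · have k1 := unb oO.measurableSet (top_le_iff.mp (vF ▸ measure_mono k)) hcO
    have bU : U ⊆ closedBall 0 R := fun y hy => mem_closedBall_zero_iff.mpr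
      (not_lt.mp fun c => disjoint_left.mp dis hy (k c))
    rw [tot, k1, eU, show c = 0 by linarith] at split
    refine ⟨S, U, O, image_mono (mono sS), hS0, pU, pO, oU, oO, dis, cov,
      isBounded_closedBall.subset bU, hSc.isBounded, ?_,
      ⟨p, iU hp, image_mono (mono (Ioo_subset_Ioo le_rfl hsb.le)) hp⟩,
      _, op s b has.le le_rfl, ⟨q, hq⟩,
      subset_inter iO (image_mono (mono (Ioo_subset_Ioo has.le le_rfl)))⟩
    rw [split, zero_add, one_mul, zero_mul, add_zero, Measure.real, ENNReal.ofReal_toReal]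
    exact ((measure_mono bU).trans_lt measure_closedBall_lt_top).ne

end Pool.Agent.H190Z.Shell
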