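import Pool.Agent.H190Z.Shell3

set_option autoImplicit false

/-! Packings by shells leave the holes empty. -/

namespace Pool.Agent.H190Z.Shell

open MeasureTheory Metric Set Filter Topology H930.BL
open scoped ENNReal ContDiff Pointwise

theorem Sides.either {Y S U O Z : Set (E 4)} {v : ℝ} (h : Sides Y S U O v)
    (hZ : IsPreconnected Z) (hd : Disjoint Z S) : Z ⊆ U ∨ Z ⊆ O :=
  hZ.subset_or_subset h.oU h.oO h.dis (h.cov ▸ hd.subset_compl_right)

theorem Sides.unb {Y S U O Z : Set (E 4)} {v : ℝ} (h : Sides Y S U O v)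
    (hZ : IsPreconnected Z) (hd : Disjoint Z S) (hb : ¬ Bornology.IsBounded Z) : Z ⊆ O :=
  (h.either hZ hd).resolve_left fun k => hb (h.bdd.subset k)

theorem Sides.unbO {Y S U O : Set (E 4)} {v : ℝ} (h : Sides Y S U O v) :
    ¬ Bornology.IsBounded O := by
  intro k
  have := (h.bdd.union k).union h.bdS
  rw [h.cov, compl_union_self] at this
  exact NormedSpace.unbounded_univ ℝ (E 4) this

theorem Sides.out_of {Y S U O Y' S' U' O' : Set (E 4)} {v : ℝ} (h : Sides Y S U O v)
    (h' : Sides Y' S' U' O' v) (hY : IsPreconnected Y') (hd : Disjoint Y Y') : Y' ⊆ O := by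
  refine (h.either hY (hd.symm.mono_right h.sub)).resolve_left fun k => ?_
  have k1 : O ⊆ O' := h'.unb h.pO (h.dis.symm.mono_right (h'.sub.trans k)) h.unbO
  obtain ⟨V, v1, v2, v3⟩ := h'.out
  have k2 : U' ∪ V ⊆ U ∪ S := by
    rintro y (c | c)
    · by_cases e : y ∈ S
      · exact Or.inr e
      · have : y ∈ U ∪ O := h.cov ▸ e
        exact Or.inl (this.resolve_right fun c' => disjoint_left.mp h'.dis c (k1 c'))
    · exact Or.inl (k (v3 c).2)
  have k3 := (measure_mono (μ := volume) k2).trans (measure_union_le _ _)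
  rw [measure_union (h'.dis.mono_right (v3.trans inter_subset_left)) v1.measurableSet, h.null,
    h.vol, h'.vol] at k3
  have k4 := (ENNReal.add_le_add_iff_left ENNReal.ofReal_ne_top).mp k3
  exact (v1.measure_pos volume v2).ne' (le_antisymm k4 (zero_le))

theorem Sides.disj {Y S U O Y' S' U' O' : Set (E 4)} {v : ℝ} (h : Sides Y S U O v)
    (h' : Sides Y' S' U' O' v) (hY : IsPreconnected Y) (hY' : IsPreconnected Y')
    (hd : Disjoint Y Y') : Disjoint U U' := by
  have k1 := h.out_of h' hY' hd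
  have k2 := h'.out_of h hY hd.symm
  rcases h'.either h.pU (h.dis.mono_right (h'.sub.trans k1)) with k | k
  · obtain ⟨y, y1, y2⟩ := h.inn
    exact absurd (k2 y2) (disjoint_left.mp h'.dis (k y1))
  · exact h'.dis.symm.mono_left k

theorem extend {φ : E 4 → E 4} {a b a' b' : ℝ} (ha : 0 < a) (h1 : a < a') (h2 : a' < b')
    (h3 : b' < b) (hφ : ContDiffOn ℝ ∞ φ (An (Ioo a b))) :
    ∃ Φ : E 4 → E 4, ContDiff ℝ ∞ Φ ∧ EqOn Φ φ (An (Ioo a' b')) := by
  let b1 : ContDiffBump (0 : E 4) := ⟨(a + a') / 2, a', by linarith, by linarith⟩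
  let b2 : ContDiffBump (0 : E 4) := ⟨b', (b' + b) / 2, by linarith, by linarith⟩
  refine ⟨fun x => (b2 x * (1 - b1 x)) • φ x, ?_, fun x hx => ?_⟩
  · rw [contDiff_iff_contDiffAt]
    intro x
    by_cases k : x ∈ An (Ioo a b)
    · exact (b2.contDiff.mul (contDiff_const.sub b1.contDiff)).contDiffAt.smul
        (hφ.contDiffAt ((An_open isOpen_Ioo).mem_nhds k))
    · refine (contDiffAt_const (c := (0 : E 4))).congr_of_eventuallyEq ?_
      rcases le_or_gt ‖x‖ a with c | c
      · filter_upwards [b1.eventuallyEq_one_of_mem_ball (x := x)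
          (mem_ball_zero_iff.mpr (show ‖x‖ < (a + a') / 2 by linarith))] with y hy
        simp [hy]
      · have c' : b ≤ ‖x‖ := not_lt.mp fun c' => k ⟨c, c'⟩
        have : x ∉ tsupport b2 := by
          rw [b2.tsupport_eq, mem_closedBall_zero_iff]
          exact not_le.mpr (show (b' + b) / 2 < ‖x‖ by linarith)
        filter_upwards [notMem_tsupport_iff_eventuallyEq.mp this] with y hy
        simp [hy]
  · simp only
    rw [b2.one_of_mem_closedBall (mem_closedBall_zero_iff.mpr hx.2.le),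
      b1.zero_of_le_dist (by simpa using hx.1.le)]
    simp

theorem emb_sides {φ : E 4 → E 4} {a s b : ℝ} {X : Set (E 4)} (ha : 0 < a) (has : a < s)
    (hsb : s < b) (h : IsSymplEmb φ (An (Ioo a b)) X) :
    ∃ Y S U O, Y ⊆ φ '' An (Ioo a b) ∧ IsPreconnected Y ∧ Sides Y S U O ((2 * s) ^ 4) := by
  obtain ⟨a', a1, a2⟩ := exists_between has
  obtain ⟨b', b1, b2⟩ := exists_between hsb
  obtain ⟨Φ, hΦ, e⟩ := extend ha a1 (a2.trans b1) b2 h.1
  have sub : An (Ioo a' b') ⊆ An (Ioo a b) := fun x hx => Ioo_subset_Ioo a1.le b2.le hx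
  obtain ⟨S, U, O, hS⟩ := fill hΦ (ha.trans a1) a2 b1 ((h.2.1.mono sub).congr e.symm) (by
    intro x hx i j
    have e1 : fderiv ℝ Φ x = fderiv ℝ φ x :=
      (e.eventuallyEq_of_mem ((An_open isOpen_Ioo).mem_nhds hx)).fderiv_eq
    simp only [J02.aux_jac hΦ, e1]
    exact h.2.2.2 x (sub hx) _ _)
  refine ⟨_, S, U, O, ?_, (An_preconn isPreconnected_Ioo fun r hr => by
    linarith [hr.1]).image _ hΦ.continuous.continuousOn, hS⟩
  rw [e.image_eq]
  exact image_mono sub

theorem cube_eq : cube = ball (0 : E 4) 1 := by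
  ext x
  simp [cube, pi_norm_lt_iff one_pos]

theorem shell_eq {a : ℝ} (ha : 0 < a) : shell a = An (Ioo a 1) := by
  ext x
  have := pi_norm_le_iff_of_nonneg (x := x) ha.le
  simp only [Real.norm_eq_abs] at this
  simp only [shell, cube_eq, Set.mem_sdiff, mem_ball_zero_iff, mem_ofPred_eq, ← this, An, mem_Ioo, not_le,
    and_comm]

theorem smul_An {a l : ℝ} (hl : 0 < l) : l • An (Ioo a 1) = An (Ioo (l * a) l) := by
  ext x
  rw [mem_smul_set_iff_inv_smul_mem₀ hl.ne']
  simp only [An, mem_ofPred_eq, mem_Ioo, norm_smul, norm_inv, Real.norm_of_nonneg hl.le]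
  rw [lt_inv_mul_iff₀ hl, inv_mul_lt_iff₀ hl, mul_one]

theorem vol_An {p q : ℝ} (hp : 0 < p) (hpq : p < q) :
    volume (An (Ioo p q)) = ENNReal.ofReal ((2 * q) ^ 4 - (2 * p) ^ 4) := by
  have : An (Ioo p q) = ball 0 q \ closedBall 0 p := by
    ext x
    simp [An, and_comm]
  rw [this, measure_sdiff (closedBall_subset_ball hpq) measurableSet_closedBall.nullMeasurableSet
    measure_closedBall_lt_top.ne, Real.volume_pi_ball 0 (hp.trans hpq),
    Real.volume_pi_closedBall 0 hp.le, ENNReal.ofReal_sub _ (by positivity)]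
  simp

theorem count_le {k : ℕ} {p s q : ℝ} (hp : 0 < p) (h1 : p < s) (h2 : s < q)
    (φ : Fin k → E 4 → E 4) (h : ∀ i, IsSymplEmb (φ i) (An (Ioo p q)) cube)
    (hd : Pairwise fun i j => Disjoint (φ i '' An (Ioo p q)) (φ j '' An (Ioo p q))) :
    k * s ^ 4 ≤ 1 := by
  choose Y S U O k1 k2 k3 using fun i => emb_sides hp h1 h2 (h i)
  have hs : 0 < s := hp.trans h1
  have d : Pairwise (Function.onFun Disjoint U) := fun i j e =>
    (k3 i).disj (k3 j) (k2 i) (k2 j) ((hd e).mono (k1 i) (k1 j))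
  have sub : ∀ i, U i ⊆ ball 0 1 := by
    intro i y hy
    by_contra c
    have := (k3 i).unb (Z := An (Ici 1))
      (An_preconn isPreconnected_Ici fun r hr => one_pos.trans_le hr) (by
        rw [disjoint_left]
        intro z z1 z2
        obtain ⟨x, hx, rfl⟩ := k1 i ((k3 i).sub z2)
        have := (h i).2.2.1 hx
        rw [cube_eq, mem_ball_zero_iff] at this
        exact absurd this (not_lt.mpr z1)) (by
        intro c'
        apply NormedSpace.unbounded_univ ℝ (E 4)
        refine (c'.union (isBounded_ball (x := 0) (r := 1))).subset fun z _ => ?_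
        rcases lt_or_ge ‖z‖ 1 with e | e
        · exact Or.inr (mem_ball_zero_iff.mpr e)
        · exact Or.inl e)
    exact disjoint_left.mp (k3 i).dis hy (this (by simpa [An] using c))
  have m := measure_mono (μ := volume) (iUnion_subset sub)
  rw [measure_iUnion d fun i => (k3 i).oU.measurableSet, tsum_fintype,
    Real.volume_pi_ball 0 one_pos] at m
  simp only [(k3 _).vol, Finset.sum_const, Finset.card_univ, Fintype.card_fin, nsmul_eq_mul] at m
  rw [← ENNReal.ofReal_natCast, ← ENNReal.ofReal_mul (Nat.cast_nonneg _),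
    ENNReal.ofReal_le_ofReal_iff (by positivity)] at m
  nlinarith

theorem pack_le {a : ℝ} (ha : 0 < a) (ha1 : a < 1) (k : ℕ) :
    pack k (shell a) cube ≤ ENNReal.ofReal (1 - a ^ 4) := by
  refine iSup_le fun l => iSup_le fun hl => iSup_le fun φ => iSup_le fun h => iSup_le fun hd => ?_
  rw [shell_eq ha, smul_An hl] at h hd ⊢
  have hp : 0 < l * a := mul_pos hl ha
  have hq : l * a < l := mul_lt_of_lt_one_right hl ha1
  have key : k * l ^ 4 ≤ 1 := by
    have t : Tendsto (fun s : ℝ => k * s ^ 4) (𝓝[<] l) (𝓝 (k * l ^ 4)) :=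
      (Continuous.tendsto (by fun_prop) l).mono_left nhdsWithin_le_nhds
    refine le_of_tendsto t ?_
    filter_upwards [Ioo_mem_nhdsLT hq] with s hs
    exact count_le hp hs.1 hs.2 φ h hd
  have h4 : 0 ≤ 1 - a ^ 4 := sub_nonneg.mpr (pow_le_one₀ ha.le ha1.le)
  rw [vol_An hp hq, cube_eq, Real.volume_pi_ball 0 one_pos, ← ENNReal.ofReal_natCast,
    ← ENNReal.ofReal_mul (Nat.cast_nonneg _), ← ENNReal.ofReal_div_of_pos (by positivity)]
  apply ENNReal.ofReal_le_ofReal
  rw [div_le_iff₀ (by positivity)]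
  simp only [Fintype.card_fin]
  nlinarith [mul_nonneg h4 (sub_nonneg.mpr key)]

theorem pack_pos {a : ℝ} (ha : 0 < a) (ha1 : a < 1) {k : ℕ} (hk : 1 ≤ k) :
    0 < pack k (shell a) cube := by
  have hk' : (1 : ℝ) ≤ k := by exact_mod_cast hk
  have hl : (0 : ℝ) < 1 / k := by positivity
  have hkl : (k : ℝ) * (1 / k) = 1 := by field_simp
  generalize (1 / k : ℝ) = l at hl hkl
  have bd : ∀ x ∈ l • shell a, ∀ j, |x j| < l := by
    intro x hx j
    rw [shell_eq ha, smul_An hl] at hx
    exact (norm_le_pi_norm x j).trans_lt hx.2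
  let φ : Fin k → E 4 → E 4 := fun i x => x + Pi.single 0 ((2 * ((i : ℕ) : ℝ) + 1) * l - 1)
  refine lt_of_lt_of_le ?_ (le_iSup_of_le l (le_iSup_of_le hl (le_iSup_of_le φ
    (le_iSup_of_le ?_ (le_iSup_of_le ?_ le_rfl)))))
  · refine ENNReal.div_pos (mul_ne_zero (by simp; omega) ?_) (cube_eq ▸ measure_ball_lt_top.ne)
    rw [shell_eq ha, smul_An hl]
    have := mul_pos hl ha
    have := mul_lt_of_lt_one_right hl ha1
    exact ((An_open isOpen_Ioo).measure_pos volume (An_nonempty (T := Ioo (l * a) l)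
      (t := (l * a + l) / 2) ⟨by linarith, by linarith⟩ (by linarith))).ne'
  · intro i
    refine ⟨by fun_prop, (add_left_injective _).injOn, fun x hx j => ?_, fun x _ u v => ?_⟩
    · have h1 := abs_lt.mp (bd x hx j)
      have h2 : ((i : ℕ) : ℝ) + 1 ≤ k := by exact_mod_cast i.2
      have h3 : (0 : ℝ) ≤ ((i : ℕ) : ℝ) := Nat.cast_nonneg _
      simp only [φ, Pi.add_apply, Pi.single_apply]
      rw [abs_lt]
      split_ifs <;> constructor <;> nlinarith
    · simp [φ, fderiv_add_const]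
  · have key : ∀ i j : Fin k, i < j → Disjoint (φ i '' (l • shell a)) (φ j '' (l • shell a)) := by
      intro i j hij
      rw [disjoint_left]
      rintro _ ⟨x, hx, rfl⟩ ⟨y, hy, e⟩
      have h1 := abs_lt.mp (bd x hx 0)
      have h2 := abs_lt.mp (bd y hy 0)
      have h3 : ((i : ℕ) : ℝ) + 1 ≤ ((j : ℕ) : ℝ) := by exact_mod_cast hij
      have h4 := congrFun e 0
      simp only [φ, Pi.add_apply, Pi.single_eq_same] at h4
      nlinarith
    intro i j hij
    rcases lt_or_gt_of_ne hij with c | c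
    · exact key i j c
    · exact (key j i c).symm

theorem main {a : ℝ} (ha : 0 < a) (ha1 : a < 1) :
    IsOpen (shell a) ∧ IsConnected (shell a) ∧ Bornology.IsBounded (shell a) ∧
      (∀ k, 1 ≤ k → 0 < pack k (shell a) cube) ∧
      (∀ k, pack k (shell a) cube ≤ ENNReal.ofReal (1 - a ^ 4)) ∧
      liminf (fun k => pack k (shell a) cube) atTop < 1 := by
  refine ⟨?_, ?_, ?_, fun _ => pack_pos ha ha1, pack_le ha ha1, ?_⟩
  · rw [shell_eq ha]
    exact An_open isOpen_Ioo
  · rw [shell_eq ha]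
    exact ⟨An_nonempty (T := Ioo a 1) (t := (a + 1) / 2) ⟨by linarith, by linarith⟩ (by linarith),
      An_preconn isPreconnected_Ioo fun r hr => ha.trans hr.1⟩
  · exact (cube_eq ▸ isBounded_ball).subset sdiff_subset
  · refine lt_of_le_of_lt (liminf_le_of_frequently_le'
      (Eventually.of_forall (pack_le ha ha1)).frequently) ?_
    rw [ENNReal.ofReal_lt_one]
    have := pow_pos ha 4
    linarith

end Pool.Agent.H190Z.Shell
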