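import Mathlib

set_option autoImplicit false

/-! Symplectic packing numbers of domains in `ℝ⁴`. -/

namespace Pool.Agent.H190Z.Shell

open MeasureTheory Set
open scoped ENNReal ContDiff Pointwise

/-- the standard symplectic form `dx₀ ∧ dx₁ + dx₂ ∧ dx₃` of `ℝ⁴` -/
def omega (u v : Fin 4 → ℝ) : ℝ := u 0 * v 1 - u 1 * v 0 + u 2 * v 3 - u 3 * v 2

/-- `φ` is a symplectic embedding of `U ⊆ ℝ⁴` into `X ⊆ ℝ⁴`: smooth and injective on `U`, with
values in `X`, and its derivative preserves `omega` at every point of `U` -/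
def IsSymplEmb (φ : (Fin 4 → ℝ) → Fin 4 → ℝ) (U X : Set (Fin 4 → ℝ)) : Prop :=
  ContDiffOn ℝ ∞ φ U ∧ InjOn φ U ∧ MapsTo φ U X ∧
    ∀ x ∈ U, ∀ u v, omega (fderiv ℝ φ x u) (fderiv ℝ φ x v) = omega u v

/-- the `k`-th packing number `p_{k,D}(X)` -/
noncomputable def pack (k : ℕ) (D X : Set (Fin 4 → ℝ)) : ℝ≥0∞ :=
  ⨆ (l : ℝ) (_ : 0 < l) (φ : Fin k → (Fin 4 → ℝ) → Fin 4 → ℝ)
    (_ : ∀ i, IsSymplEmb (φ i) (l • D) X)
    (_ : Pairwise fun i j => Disjoint (φ i '' (l • D)) (φ j '' (l • D))),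
    k * volume (l • D) / volume X

/-- the open cube `(-1, 1)⁴` -/
def cube : Set (Fin 4 → ℝ) := {x | ∀ i, |x i| < 1}

/-- the open cube `(-1, 1)⁴` with the closed cube `[-a, a]⁴` removed -/
def shell (a : ℝ) : Set (Fin 4 → ℝ) := cube \ {x | ∀ i, |x i| ≤ a}

end Pool.Agent.H190Z.Shell
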