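import Mathlib

set_option autoImplicit false

namespace Pool.Agent.H190Z.Smp

section Green
variable {M : Type} [Monoid M]

/-- the right, left and two-sided divisibility preorders -/
def leR (x y : M) : Prop := ∃ z, x = y * z
/-- left version -/
def leL (x y : M) : Prop := ∃ z, x = z * y
/-- two-sided version -/
def leJ (x y : M) : Prop := ∃ p q, x = p * y * q

theorem leR.refl (x : M) : leR x x := ⟨1, by simp⟩
theorem leL.refl (x : M) : leL x x := ⟨1, by simp⟩
theorem leJ.refl (x : M) : leJ x x := ⟨1, 1, by simp⟩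
theorem leR.trans {x y z : M} (h : leR x y) (h' : leR y z) : leR x z := by
  obtain ⟨a, rfl⟩ := h
  obtain ⟨b, rfl⟩ := h'
  exact ⟨b * a, by simp [mul_assoc]⟩
theorem leL.trans {x y z : M} (h : leL x y) (h' : leL y z) : leL x z := by
  obtain ⟨a, rfl⟩ := h
  obtain ⟨b, rfl⟩ := h'
  exact ⟨a * b, by simp [mul_assoc]⟩
theorem leJ.trans {x y z : M} (h : leJ x y) (h' : leJ y z) : leJ x z := by
  obtain ⟨a, a', rfl⟩ := h
  obtain ⟨b, b', rfl⟩ := h'
  exact ⟨a * b, b' * a', by simp [mul_assoc]⟩
theorem leR.toJ {x y : M} (h : leR x y) : leJ x y := by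
  obtain ⟨a, rfl⟩ := h
  exact ⟨1, a, by simp⟩
theorem leL.toJ {x y : M} (h : leL x y) : leJ x y := by
  obtain ⟨a, rfl⟩ := h
  exact ⟨a, 1, by simp⟩
theorem leR_mul (x y : M) : leR (x * y) x := ⟨y, rfl⟩
theorem leL_mul (x y : M) : leL (x * y) y := ⟨x, rfl⟩
theorem leJ_one (x : M) : leJ x 1 := ⟨x, 1, by simp⟩

variable {n : ℕ} (hN : ∀ x : M, x ^ (n + 2) = x)
include hN

theorem e_mul (x : M) : x ^ (n + 1) * x = x := by rw [← pow_succ]; exact hN x
theorem mul_e (x : M) : x * x ^ (n + 1) = x := by rw [← pow_succ']; exact hN x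
theorem e_idem (x : M) : x ^ (n + 1) * x ^ (n + 1) = x ^ (n + 1) := by
  conv_lhs => rw [pow_succ' x n, ← mul_assoc, ← pow_succ' x n, e_mul hN, ← pow_succ']
theorem idem_pow {ε : M} (h : ε * ε = ε) (j : ℕ) : ε ^ (j + 1) = ε := by
  have := hN
  induction j with
  | zero => simp
  | succ j ih => rw [pow_succ, ih, h]

theorem leR_e (x : M) : leR x (x ^ (n + 1)) := ⟨x, (e_mul hN x).symm⟩
theorem leL_e (x : M) : leL x (x ^ (n + 1)) := ⟨x, (mul_e hN x).symm⟩
omit hN in
theorem e_leR (x : M) : leR (x ^ (n + 1)) x := ⟨x ^ n, pow_succ' x n⟩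
omit hN in
theorem e_leL (x : M) : leL (x ^ (n + 1)) x := ⟨x ^ n, pow_succ x n⟩

theorem absorbR {x y : M} (h : leR y x) : x ^ (n + 1) * y = y := by
  obtain ⟨z, rfl⟩ := h
  rw [← mul_assoc, e_mul hN]
theorem absorbL {x y : M} (h : leL y x) : y * x ^ (n + 1) = y := by
  obtain ⟨z, rfl⟩ := h
  rw [mul_assoc, mul_e hN]

theorem cyc (x y : M) : leJ (x * y) (y * x) := by
  refine ⟨x, (y * x) ^ n * y, ?_⟩
  have h1 := hN (x * y)
  rw [pow_succ, ← mul_assoc, mul_pow_mul, pow_succ'] at h1
  rw [← h1]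
  simp only [mul_assoc]

theorem leJ_mul_self {y z : M} (h : leJ y z) : leJ y (y * z) := by
  obtain ⟨p, q, hy⟩ := h
  have h1 : leJ y (y * p * z) := by
    refine ⟨y ^ n, q, ?_⟩
    calc y = y ^ n * y * y := by rw [← pow_succ, ← pow_succ, hN]
      _ = y ^ n * y * (p * z * q) := by rw [← hy]
      _ = _ := by simp only [mul_assoc]
  have h2 : leJ (z * (y * p)) (z * y) := ⟨1, p, by simp [mul_assoc]⟩
  exact ((h1.trans (cyc hN _ _)).trans h2).trans (cyc hN _ _)

theorem leJ_mul {x a b : M} (ha : leJ x a) (hb : leJ x b) : leJ x (a * b) := by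
  have h1 := leJ_mul_self hN ha
  have h2 := leJ_mul_self hN ((leR_mul x a).toJ.trans hb)
  exact (h1.trans h2).trans ⟨x, 1, by simp [mul_assoc]⟩

theorem stabR {x y : M} (h : leJ x (x * y)) : leR x (x * y) := by
  obtain ⟨p, q, hx⟩ := h
  have h1 : ∀ m : ℕ, x = p ^ m * x * (y * q) ^ m := by
    intro m
    induction m with
    | zero => simp
    | succ m ih =>
      calc x = p ^ m * x * (y * q) ^ m := ih
        _ = p ^ m * (p * (x * y) * q) * (y * q) ^ m := by rw [← hx]
        _ = _ := by rw [pow_succ, pow_succ']; simp only [mul_assoc]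
  have h2 : x * (y * q) ^ (n + 1) = x := by
    conv_lhs => rw [h1 (n + 1), mul_assoc, e_idem hN]
    exact (h1 (n + 1)).symm
  refine ⟨q * (y * q) ^ n, ?_⟩
  conv_lhs => rw [← h2, pow_succ']
  simp only [mul_assoc]

theorem stabL {x y : M} (h : leJ x (y * x)) : leL x (y * x) := by
  obtain ⟨p, q, hx⟩ := h
  have h1 : ∀ m : ℕ, x = (p * y) ^ m * x * q ^ m := by
    intro m
    induction m with
    | zero => simp
    | succ m ih =>
      calc x = (p * y) ^ m * x * q ^ m := ih
        _ = (p * y) ^ m * (p * (y * x) * q) * q ^ m := by rw [← hx]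
        _ = _ := by rw [pow_succ, pow_succ' q]; simp only [mul_assoc]
  have h2 : (p * y) ^ (n + 1) * x = x := by
    conv_lhs => rw [h1 (n + 1), ← mul_assoc, ← mul_assoc, e_idem hN]
    exact (h1 (n + 1)).symm
  refine ⟨(p * y) ^ n * p, ?_⟩
  conv_lhs => rw [← h2, pow_succ]
  simp only [mul_assoc]

theorem stabR' {x y : M} (h : leJ x y) : leR x (x * y) := stabR hN (leJ_mul_self hN h)
theorem stabL' {x y : M} (h : leJ x y) : leL x (y * x) :=
  stabL hN (leJ_mul hN h (leJ.refl x))

theorem sameH {q p : M} (h1 : leR p q) (h2 : leL q p) : q ^ (n + 1) = p ^ (n + 1) := by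
  have a := absorbR hN ((e_leR (n := n) p).trans h1)
  have b := absorbL hN ((e_leL (n := n) q).trans h2)
  rw [← b, a]

theorem leJ_prod {x : M} (l : List M) (h : ∀ a ∈ l, leJ x a) : leJ x l.prod := by
  induction l with
  | nil => exact leJ_one x
  | cons a l ih =>
    rw [List.prod_cons]
    exact leJ_mul hN (h a (by simp)) (ih fun b hb => h b (by simp [hb]))

omit hN

/-- number of elements above `x` -/
noncomputable def depth (x : M) : ℕ := {y | leJ x y}.ncard

theorem depth_mono [Finite M] {w u : M} (h : leJ w u) : depth u ≤ depth w :=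
  Set.ncard_le_ncard (fun _ hy => h.trans hy) (Set.toFinite _)

theorem depth_lt [Finite M] {w u : M} (h : leJ w u) (h' : ¬ leJ u w) : depth u < depth w :=
  Set.ncard_lt_ncard ⟨fun _ hy => h.trans hy, fun hs => h' (hs (leJ.refl w))⟩ (Set.toFinite _)

theorem depth_pos [Finite M] (w : M) : 0 < depth w :=
  (Set.ncard_pos (Set.toFinite _)).2 ⟨w, leJ.refl w⟩

theorem depth_le_card [Finite M] (w : M) : depth w ≤ Nat.card M := by
  rw [← Set.ncard_univ]
  exact Set.ncard_le_ncard (Set.subset_univ _) (Set.toFinite _)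

open MulOpposite in
theorem leJ_op {x y : M} : leJ (op x) (op y) ↔ leJ x y := by
  constructor
  · rintro ⟨p, q, h⟩
    refine ⟨unop q, unop p, ?_⟩
    have := congrArg unop h
    simpa [mul_assoc] using this
  · rintro ⟨p, q, rfl⟩
    exact ⟨op q, op p, by simp [mul_assoc]⟩

open MulOpposite in
theorem leR_op {x y : M} : leR (op x) (op y) ↔ leL x y := by
  constructor
  · rintro ⟨p, h⟩
    refine ⟨unop p, ?_⟩
    have := congrArg unop h
    simpa using this
  · rintro ⟨p, rfl⟩
    exact ⟨op p, by simp⟩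

open MulOpposite in
theorem depth_op (x : M) : depth (op x) = depth x := by
  unfold depth
  rw [← Set.ncard_image_of_injective _ (op_injective (α := M))]
  congr 1
  ext y
  constructor
  · intro h
    exact ⟨unop y, leJ_op.1 h, rfl⟩
  · rintro ⟨z, hz, rfl⟩
    exact leJ_op.2 hz

end Green

section SLP
variable {T : Type}

/-- straight-line programs, as lists of the computed values (newest first) -/
inductive SLP [Mul T] (A : Set T) : List T → Prop
  | nil : SLP A []
  | gen {a : T} {L : List T} : a ∈ A → SLP A L → SLP A (a :: L)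
  | mul {x y : T} {L : List T} : x ∈ L → y ∈ L → SLP A L → SLP A (x * y :: L)

theorem SLP.append [Mul T] {A : Set T} {L L' : List T} (h : SLP A L) (h' : SLP A L') :
    SLP A (L ++ L') := by
  induction h with
  | nil => exact h'
  | gen ha _ ih => exact SLP.gen ha ih
  | mul hx hy _ ih => exact SLP.mul (List.mem_append_left _ hx) (List.mem_append_left _ hy) ih

theorem SLP.mono [Mul T] {A B : Set T} {L : List T} (h : SLP A L) (hAB : A ⊆ B) : SLP B L := by
  induction h with
  | nil => exact SLP.nil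
  | gen ha _ ih => exact SLP.gen (hAB ha) ih
  | mul hx hy _ ih => exact SLP.mul hx hy ih

theorem SLP.mem_closure [Mul T] {A : Set T} {L : List T} (h : SLP A L) :
    ∀ x ∈ L, x ∈ Subsemigroup.closure A := by
  induction h with
  | nil => simp
  | gen ha _ ih =>
    intro x hx
    rcases List.mem_cons.1 hx with rfl | hx
    · exact Subsemigroup.subset_closure ha
    · exact ih x hx
  | mul hx hy _ ih =>
    intro z hz
    rcases List.mem_cons.1 hz with rfl | hz
    · exact mul_mem (ih _ hx) (ih _ hy)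
    · exact ih z hz

open MulOpposite in
theorem SLP.unop [Mul T] {A : Set T} {L : List Tᵐᵒᵖ} (h : SLP (op '' A) L) :
    SLP A (L.map unop) := by
  induction h with
  | nil => exact SLP.nil
  | gen ha _ ih =>
    obtain ⟨b, hb, rfl⟩ := ha
    exact SLP.gen hb ih
  | mul hx hy _ ih =>
    exact SLP.mul (List.mem_map_of_mem hy) (List.mem_map_of_mem hx) ih

theorem SLP.pow [Monoid T] {A : Set T} {L : List T} (h : SLP A L) {t : T} (ht : t ∈ L) (j : ℕ) :
    ∃ L', SLP A L' ∧ L'.length = L.length + j ∧ (∀ x ∈ L, x ∈ L') ∧ t ^ (j + 1) ∈ L' := by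
  induction j with
  | zero => exact ⟨L, h, rfl, fun _ hx => hx, by simpa using ht⟩
  | succ j ih =>
    obtain ⟨L', h1, h2, h3, h4⟩ := ih
    refine ⟨t ^ (j + 1) * t :: L', SLP.mul h4 (h3 t ht) h1, by simp [h2]; omega,
      fun x hx => List.mem_cons_of_mem _ (h3 x hx), ?_⟩
    rw [pow_succ t (j + 1)]
    simp

/-- `x` has a straight-line program of length at most `m` -/
def C1 [Mul T] (A : Set T) (x : T) (m : ℕ) : Prop := ∃ L, SLP A L ∧ L.length ≤ m ∧ x ∈ L

theorem C1.mono [Mul T] {A B : Set T} {x : T} {m m' : ℕ} (h : C1 A x m) (hAB : A ⊆ B)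
    (hm : m ≤ m') : C1 B x m' := by
  obtain ⟨L, h1, h2, h3⟩ := h
  exact ⟨L, h1.mono hAB, h2.trans hm, h3⟩

theorem C1.gen [Mul T] {A : Set T} {a : T} (h : a ∈ A) : C1 A a 1 :=
  ⟨[a], SLP.gen h SLP.nil, le_rfl, by simp⟩

theorem C1.mul [Mul T] {A : Set T} {x y : T} {m m' : ℕ} (h : C1 A x m) (h' : C1 A y m') :
    C1 A (x * y) (m + m' + 1) := by
  obtain ⟨L, h1, h2, h3⟩ := h
  obtain ⟨L', h1', h2', h3'⟩ := h'
  refine ⟨x * y :: (L ++ L'), SLP.mul (List.mem_append_left _ h3) (List.mem_append_right _ h3')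
    (h1.append h1'), by simp; omega, by simp⟩

theorem C1.pow [Monoid T] {A : Set T} {x : T} {m : ℕ} (h : C1 A x m) (j : ℕ) :
    C1 A (x ^ (j + 1)) (m + j) := by
  obtain ⟨L, h1, h2, h3⟩ := h
  obtain ⟨L', a, b, -, d⟩ := h1.pow h3 j
  exact ⟨L', a, by omega, d⟩

theorem C1.mem_closure [Mul T] {A : Set T} {x : T} {m : ℕ} (h : C1 A x m) :
    x ∈ Subsemigroup.closure A := by
  obtain ⟨L, h1, -, h3⟩ := h
  exact h1.mem_closure x h3

open MulOpposite in
theorem C1.unop [Mul T] {A : Set T} {x : Tᵐᵒᵖ} {m : ℕ} (h : C1 (op '' A) x m) :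
    C1 A (unop x) m := by
  obtain ⟨L, h1, h2, h3⟩ := h
  exact ⟨L.map MulOpposite.unop, h1.unop, by simpa using h2, List.mem_map_of_mem h3⟩

open MulOpposite in
theorem op_mem_closure [Mul T] {A : Set T} {w : T} (h : w ∈ Subsemigroup.closure A) :
    op w ∈ Subsemigroup.closure (op '' A) := by
  induction h using Subsemigroup.closure_induction with
  | mem x hx => exact Subsemigroup.subset_closure ⟨x, hx, rfl⟩
  | mul x y _ _ hx hy => exact mul_mem hy hx

theorem exists_list [Monoid T] {A : Set T} {w : T} (h : w ∈ Subsemigroup.closure A) :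
    ∃ l : List T, l ≠ [] ∧ (∀ a ∈ l, a ∈ A) ∧ l.prod = w := by
  induction h using Subsemigroup.closure_induction with
  | mem x hx => exact ⟨[x], by simp, by simpa using hx, by simp⟩
  | mul x y _ _ hx hy =>
    obtain ⟨l, h1, h2, rfl⟩ := hx
    obtain ⟨l', -, h2', rfl⟩ := hy
    refine ⟨l ++ l', by simp [h1], fun a ha => ?_, by simp⟩
    rcases List.mem_append.1 ha with h | h
    · exact h2 a h
    · exact h2' a h

theorem mul_prod_mem [Monoid T] {A : Set T} {e : T} (he : e ∈ Subsemigroup.closure A)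
    (l : List T) (h : ∀ a ∈ l, a ∈ A) : e * l.prod ∈ Subsemigroup.closure A := by
  induction l generalizing e with
  | nil => simpa using he
  | cons a l ih =>
    rw [List.prod_cons, ← mul_assoc]
    exact ih (mul_mem he (Subsemigroup.subset_closure (h a (by simp))))
      fun b hb => h b (by simp [hb])

theorem prod_mem [Monoid T] {A : Set T} (l : List T) (hl : l ≠ []) (h : ∀ a ∈ l, a ∈ A) :
    l.prod ∈ Subsemigroup.closure A := by
  cases l with
  | nil => exact absurd rfl hl
  | cons a l =>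
    rw [List.prod_cons]
    exact mul_prod_mem (Subsemigroup.subset_closure (h a (by simp))) l
      fun b hb => h b (by simp [hb])

theorem list_split {α : Type} (l : List α) (hl : l ≠ []) :
    ∃ u a v, l = u ++ a :: v ∧ a ∉ u ∧ ∀ b ∈ v, b ∈ u ∨ b = a := by
  induction l using List.reverseRecOn with
  | nil => exact absurd rfl hl
  | append_singleton l b ih =>
    by_cases hb : b ∈ l
    · obtain ⟨u, a, v, rfl, h1, h2⟩ := ih (List.ne_nil_of_mem hb)
      refine ⟨u, a, v ++ [b], by simp, h1, fun c hc => ?_⟩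
      rcases List.mem_append.1 hc with h | h
      · exact h2 c h
      · have : c = b := by simpa using h
        subst this
        rcases List.mem_append.1 hb with h | h
        · exact Or.inl h
        · rcases List.mem_cons.1 h with h | h
          · exact Or.inr h
          · exact h2 c h
    · exact ⟨l, b, [], rfl, hb, by simp⟩

theorem leJ_closure {M : Type} [Monoid M] [Monoid T] {n : ℕ} (hN : ∀ x : M, x ^ (n + 2) = x)
    (π : T →* M) {A : Set T} {x : M} (h : ∀ a ∈ A, leJ x (π a)) {t : T}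
    (ht : t ∈ Subsemigroup.closure A) : leJ x (π t) := by
  induction ht using Subsemigroup.closure_induction with
  | mem a ha => exact h a ha
  | mul a b _ _ ha hb => rw [map_mul]; exact leJ_mul hN ha hb

theorem prod_leJ {M : Type} [Monoid M] [Monoid T] (π : T →* M) {l : List T} {a : T}
    (ha : a ∈ l) : leJ (π l.prod) (π a) := by
  obtain ⟨u, v, rfl⟩ := List.append_of_mem ha
  exact ⟨π u.prod, π v.prod, by simp [mul_assoc]⟩

end SLP

end Pool.Agent.H190Z.Smp
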