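import Mathlib
import Pool.Agent.H190Z.Smp1

set_option autoImplicit false

namespace Pool.Agent.H190Z.Smp

section BS
variable {G : Type} [Group G] [DecidableEq G]

/-- the set of subproducts -/
def cube : List G → Finset G
  | [] => {1}
  | z :: zs => cube zs ∪ (cube zs).image (· * z)

/-- an abstract cost system -/
structure CostSys (G : Type) [Group G] (P : Set G → ℕ → Prop) (c : ℕ) : Prop where
  mono : ∀ X Y m m', P X m → Y ⊆ X → m ≤ m' → P Y m'
  union : ∀ X Y m m', P X m → P Y m' → P (X ∪ Y) (m + m')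
  mul : ∀ X m g h, P X m → g ∈ X → h ∈ X → P (insert (g * h) X) (m + 1)
  inv : ∀ X m g, P X m → g ∈ X → P (insert g⁻¹ X) (m + c)

variable {P : Set G → ℕ → Prop} {c : ℕ}

theorem one_mem_cube (zs : List G) : (1 : G) ∈ cube zs := by
  induction zs with
  | nil => simp [cube]
  | cons z zs ih => simp [cube, ih]

theorem cube_cost (h : CostSys G P c) (zs : List G) : ∀ k ∈ cube zs, ∀ X m, P X m → 1 ∈ X →
    (∀ z ∈ zs, z ∈ X) → P (insert k X) (m + zs.length) := by
  induction zs with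
  | nil =>
    intro k hk X m hP h1 _
    have : k = 1 := by simpa [cube] using hk
    subst this
    exact h.mono _ _ _ _ hP (Set.insert_subset h1 le_rfl) le_rfl
  | cons z zs ih =>
    intro k hk X m hP h1 hz
    have hz' : ∀ y ∈ zs, y ∈ X := fun y hy => hz y (by simp [hy])
    rcases Finset.mem_union.1 hk with hk | hk
    · exact h.mono _ _ _ _ (ih k hk X m hP h1 hz') le_rfl (by simp)
    · obtain ⟨k', hk', rfl⟩ := Finset.mem_image.1 hk
      have := h.mul _ _ k' z (ih k' hk' X m hP h1 hz') (by simp) (Or.inr (hz z (by simp)))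
      refine h.mono _ _ _ _ this ?_ (by simp)
      exact Set.insert_subset_insert (Set.subset_insert _ _)

theorem quot_cost (h : CostSys G P c) (zs : List G) {k1 k2 : G} (h1 : k1 ∈ cube zs)
    (h2 : k2 ∈ cube zs) {X : Set G} {m : ℕ} (hP : P X m) (hone : 1 ∈ X)
    (hz : ∀ z ∈ zs, z ∈ X) : P (insert (k1⁻¹ * k2) X) (m + 2 * zs.length + c + 1) := by
  have a := cube_cost h zs k1 h1 X m hP hone hz
  have b := h.inv _ _ k1 a (by simp)
  have d := cube_cost h zs k2 h2 _ _ b (Or.inr (Or.inr hone)) fun z hz' => Or.inr (Or.inr (hz z hz'))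
  have e := h.mul _ _ k1⁻¹ k2 d (by simp) (by simp)
  refine h.mono _ _ _ _ e ?_ (by omega)
  refine Set.insert_subset_insert fun x hx => Or.inr (Or.inr (Or.inr hx))

theorem bs [Finite G] (h : CostSys G P c) {c0 : ℕ} {S : Set G} (hS : ∀ s ∈ S, P {s} c0)
    (h1 : P {1} c0) {l : ℕ} (hl : Nat.card G ≤ 2 ^ l) {g : G} (hg : g ∈ Submonoid.closure S) :
    P {g} (c0 + (l + 1) * (2 * l + c + c0 + 2)) := by
  set D := 2 * l + c + c0 + 2 with hD
  let Good : List G → Prop := fun zs => (cube zs).card = 2 ^ zs.length ∧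
    P (insert 1 {z | z ∈ zs}) (c0 + zs.length * D)
  let Cl : List G → Prop := fun zs => ∀ k1 ∈ cube zs, ∀ k2 ∈ cube zs, ∀ s ∈ S,
    ∃ k3 ∈ cube zs, ∃ k4 ∈ cube zs, k1⁻¹ * k2 * s = k3⁻¹ * k4
  have hlen : ∀ zs, Good zs → zs.length ≤ l := by
    intro zs hzs
    have := Fintype.ofFinite G
    have a : (cube zs).card ≤ Nat.card G := by
      rw [Nat.card_eq_fintype_card]; exact Finset.card_le_univ _
    rw [hzs.1] at a
    exact (Nat.pow_le_pow_iff_right (by norm_num)).1 (a.trans hl)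
  have hstep : ∀ zs, Good zs → ¬ Cl zs → ∃ z, Good (z :: zs) := by
    intro zs hzs hcl
    simp only [Cl, not_forall, not_exists, not_and] at hcl
    obtain ⟨k1, hk1, k2, hk2, s, hs, hne⟩ := hcl
    refine ⟨k1⁻¹ * k2 * s, ?_, ?_⟩
    · change (cube zs ∪ (cube zs).image (· * (k1⁻¹ * k2 * s))).card = _
      rw [Finset.card_union_of_disjoint, Finset.card_image_of_injective _ (mul_left_injective _),
        hzs.1, List.length_cons, pow_succ]
      · ring
      · rw [Finset.disjoint_left]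
        intro k4 hk4 hk4'
        obtain ⟨k3, hk3, rfl⟩ := Finset.mem_image.1 hk4'
        exact hne k3 hk3 _ hk4 (by simp)
    · have a := quot_cost h zs hk1 hk2 hzs.2 (by simp) fun z hz => Or.inr hz
      have b := h.union _ _ _ _ a (hS s hs)
      have d := h.mul _ _ (k1⁻¹ * k2) s b (by simp) (by simp)
      refine h.mono _ _ _ _ d ?_ ?_
      · rintro x (rfl | hx)
        · simp
        · rcases List.mem_cons.1 hx with rfl | hx
          · simp
          · exact Or.inr (Or.inl (Or.inr (Or.inr hx)))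
      · have := hlen zs hzs
        rw [List.length_cons, add_mul, one_mul]
        omega
  have hex : ∃ zs, Good zs ∧ Cl zs := by
    by_contra hcon
    have : ∀ j, ∃ zs, Good zs ∧ zs.length = j := by
      intro j
      induction j with
      | zero => exact ⟨[], ⟨by simp [cube], by simpa using h1⟩, rfl⟩
      | succ j ih =>
        obtain ⟨zs, hzs, rfl⟩ := ih
        obtain ⟨z, hz⟩ := hstep zs hzs fun hc => hcon ⟨zs, hzs, hc⟩
        exact ⟨z :: zs, hz, rfl⟩
    obtain ⟨zs, hzs, hl'⟩ := this (l + 1)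
    have := hlen zs hzs
    omega
  obtain ⟨zs, hzs, hcl⟩ := hex
  have key : ∃ k1 ∈ cube zs, ∃ k2 ∈ cube zs, g = k1⁻¹ * k2 := by
    induction hg using Submonoid.closure_induction_right with
    | one => exact ⟨1, one_mem_cube zs, 1, one_mem_cube zs, by simp⟩
    | mul_right x _ y hy ih =>
      obtain ⟨k1, hk1, k2, hk2, rfl⟩ := ih
      exact hcl k1 hk1 k2 hk2 y hy
  obtain ⟨k1, hk1, k2, hk2, rfl⟩ := key
  have a := quot_cost h zs hk1 hk2 hzs.2 (by simp) fun z hz => Or.inr hz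
  refine h.mono _ _ _ _ a (by simp) ?_
  have := hlen zs hzs
  have h3 : zs.length * D ≤ l * D := Nat.mul_le_mul_right _ this
  rw [add_mul, one_mul]
  omega

end BS

section HClass
variable {Q : Type} [Monoid Q] {n : ℕ}

/-- the maximal subgroup at an idempotent -/
def HG (n : ℕ) (ε : Q) : Type := {g : Q // g ^ (n + 1) = ε}

theorem HG_mul_mem (hN : ∀ x : Q, x ^ (n + 2) = x) {ε g h : Q} (hg : g ^ (n + 1) = ε)
    (hh : h ^ (n + 1) = ε) : (g * h) ^ (n + 1) = ε := by
  have a : leJ g h := (leL_e hN g).toJ.trans (by rw [hg, ← hh]; exact (e_leL h).toJ)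
  have b : leL h g := (leL_e hN h).trans (by rw [hh, ← hg]; exact e_leL g)
  have c : leL g h := (leL_e hN g).trans (by rw [hg, ← hh]; exact e_leL h)
  rw [← hg]
  refine sameH hN (stabR' hN a) ((leL_mul g h).trans b)

/-- the group structure -/
@[reducible] def HG.group (hN : ∀ x : Q, x ^ (n + 2) = x) {ε : Q} (hε : ε * ε = ε) :
    Group (HG n ε) :=
  letI : Mul (HG n ε) := ⟨fun g h => ⟨g.1 * h.1, HG_mul_mem hN g.2 h.2⟩⟩
  letI : One (HG n ε) := ⟨⟨ε, idem_pow hN hε n⟩⟩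
  letI : Inv (HG n ε) := ⟨fun g => ⟨g.1 ^ (2 * n + 1), by
    rw [← pow_mul, mul_comm, pow_mul, g.2, idem_pow hN hε]⟩⟩
  Group.ofLeftAxioms (fun a b c => Subtype.ext (mul_assoc a.1 b.1 c.1))
    (fun a => Subtype.ext (by
      change ε * a.1 = a.1
      have h := e_mul hN a.1
      rwa [a.2] at h))
    (fun a => Subtype.ext (by
      change a.1 ^ (2 * n + 1) * a.1 = ε
      rw [← pow_succ, show 2 * n + 1 + 1 = (n + 1) + (n + 1) by ring, pow_add, a.2, hε]))

end HClass

section FStep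
variable {T Q : Type} [Monoid T] [Monoid Q] [Finite Q] {n : ℕ}

theorem fstep (hN : ∀ x : Q, x ^ (n + 2) = x) (ρ : T →* Q) {A : Set T} {w : T}
    (hw : w ∈ Subsemigroup.closure A) (hFC : ∀ a ∈ A, leJ (ρ w) (ρ a)) {r l : ℕ}
    (hl : Nat.card Q ≤ 2 ^ l)
    (hR : ∃ x, C1 A x r ∧ leR (ρ x) (ρ w) ∧ leR (ρ w) (ρ x))
    (hL : ∀ p ∈ Subsemigroup.closure A, ∃ y, C1 A y r ∧ leL (ρ y) (ρ p) ∧ leL (ρ p) (ρ y)) :
    ∃ x, C1 A x (2 * (3 * r + 3 * n + 4) +
      (l + 1) * (2 * l + 2 * n + (3 * r + 3 * n + 4) + 2) + 1) ∧ ρ x = ρ w := by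
  classical
  obtain ⟨x, hx, hx1, hx2⟩ := hR
  set c0 := 3 * r + 3 * n + 4 with hc0
  let e : T := x ^ (n + 1)
  have he : C1 A e (r + n) := hx.pow n
  set ε : Q := ρ e with hε
  have hε' : ε = ρ x ^ (n + 1) := by rw [hε, map_pow]
  have hεε : ε * ε = ε := by rw [hε']; exact e_idem hN _
  have hεN : ε ^ (n + 1) = ε := idem_pow hN hεε n
  have hεw : leR ε (ρ w) := by rw [hε']; exact (e_leR _).trans hx1
  have hwε : leR (ρ w) ε := by rw [hε']; exact hx2.trans (leR_e hN _)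
  have hεA : ∀ a ∈ A, leJ ε (ρ a) := fun a ha => hεw.toJ.trans (hFC a ha)
  have hεcl : ∀ t ∈ Subsemigroup.closure A, leJ ε (ρ t) := fun t ht => leJ_closure hN ρ hεA ht
  have hidem : ∀ p ∈ Subsemigroup.closure A, leR (ρ p) ε → leR ε (ρ p) →
      ∃ f, C1 A f (2 * r + 2 * n + 1) ∧ ρ f = ρ p ^ (n + 1) := by
    intro p hp h1 h2
    obtain ⟨y, hy, hy1, hy2⟩ := hL p hp
    refine ⟨(e * y) ^ (n + 1), ((he.mul hy).pow n).mono le_rfl (by omega), ?_⟩
    rw [map_pow, map_mul]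
    refine sameH hN (h1.trans (stabR' hN (hεcl y hy.mem_closure))) ((leL_mul _ _).trans hy1)
  letI : Group (HG n ε) := HG.group hN hεε
  have hmulv : ∀ g h : HG n ε, (g * h).1 = g.1 * h.1 := fun _ _ => rfl
  have honev : (1 : HG n ε).1 = ε := rfl
  have hinvv : ∀ g : HG n ε, (g⁻¹).1 = g.1 ^ (2 * n + 1) := fun _ => rfl
  haveI : Finite (HG n ε) := Subtype.finite
  let P : Set (HG n ε) → ℕ → Prop := fun X m =>
    ∃ L, SLP A L ∧ L.length ≤ m ∧ ∀ g ∈ X, ∃ t ∈ L, ρ t = g.1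
  have hP : CostSys (HG n ε) P (2 * n) := by
    refine ⟨?_, ?_, ?_, ?_⟩
    · rintro X Y m m' ⟨L, h1, h2, h3⟩ hY hm
      exact ⟨L, h1, h2.trans hm, fun g hg => h3 g (hY hg)⟩
    · rintro X Y m m' ⟨L, h1, h2, h3⟩ ⟨L', h1', h2', h3'⟩
      refine ⟨L ++ L', h1.append h1', by simp; omega, ?_⟩
      rintro g (hg | hg)
      · obtain ⟨t, ht, ht'⟩ := h3 g hg
        exact ⟨t, List.mem_append_left _ ht, ht'⟩
      · obtain ⟨t, ht, ht'⟩ := h3' g hg
        exact ⟨t, List.mem_append_right _ ht, ht'⟩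
    · rintro X m g h ⟨L, h1, h2, h3⟩ hg hh
      obtain ⟨t, ht, ht'⟩ := h3 g hg
      obtain ⟨s, hs, hs'⟩ := h3 h hh
      refine ⟨t * s :: L, SLP.mul ht hs h1, by simp; omega, ?_⟩
      rintro k (rfl | hk)
      · exact ⟨t * s, by simp, by rw [map_mul, ht', hs', hmulv]⟩
      · obtain ⟨u, hu, hu'⟩ := h3 k hk
        exact ⟨u, List.mem_cons_of_mem _ hu, hu'⟩
    · rintro X m g ⟨L, h1, h2, h3⟩ hg
      obtain ⟨t, ht, ht'⟩ := h3 g hg
      obtain ⟨L', a, b, c, d⟩ := h1.pow ht (2 * n)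
      refine ⟨L', a, by omega, ?_⟩
      rintro k (rfl | hk)
      · exact ⟨_, d, by rw [map_pow, ht', hinvv]⟩
      · obtain ⟨u, hu, hu'⟩ := h3 k hk
        exact ⟨u, c u hu, hu'⟩
  let S : Set (HG n ε) := {g | ∃ t, C1 A t c0 ∧ ρ t = g.1}
  have hS : ∀ s ∈ S, P {s} c0 := by
    rintro s ⟨t, ⟨L, h1, h2, h3⟩, ht⟩
    exact ⟨L, h1, h2, fun g hg => ⟨t, h3, by rw [hg]; exact ht⟩⟩
  have h1S : (1 : HG n ε) ∈ S := ⟨e, he.mono le_rfl (by omega), rfl⟩
  have hcard : Nat.card (HG n ε) ≤ 2 ^ l :=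
    (Nat.card_le_card_of_injective Subtype.val Subtype.val_injective).trans hl
  have key : ∀ u : List T, (∀ a ∈ u, a ∈ A) →
      ∃ g ∈ Submonoid.closure S, g.1 = ε * ρ u.prod * ε := by
    intro u
    induction u using List.reverseRecOn with
    | nil => exact fun _ => ⟨1, one_mem _, by simp [honev, hεε]⟩
    | append_singleton u a ih =>
      intro hu
      have hu' : ∀ b ∈ u, b ∈ A := fun b hb => hu b (by simp [hb])
      have ha : a ∈ A := hu a (by simp)
      obtain ⟨g, hg, hg'⟩ := ih hu'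
      have hp : e * u.prod ∈ Subsemigroup.closure A := mul_prod_mem he.mem_closure u hu'
      have hp1 : leR (ρ (e * u.prod)) ε := by rw [map_mul]; exact leR_mul _ _
      have hp2 : leR ε (ρ (e * u.prod)) := by
        rw [map_mul]
        refine stabR hN ?_
        rw [← map_mul]
        exact hεcl _ hp
      obtain ⟨f, hf, hf'⟩ := hidem _ hp hp1 hp2
      set p := ρ (e * u.prod) with hpdef
      have hq1 : leR ε (p ^ (n + 1) * (ρ a * ε)) := by
        refine (hp2.trans (leR_e hN p)).trans (stabR' hN ?_)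
        have : leJ (p ^ (n + 1)) ε := ((e_leR p).trans hp1).toJ
        exact leJ_mul hN (this.trans (hεA a ha)) this
      have hq : (p ^ (n + 1) * (ρ a * ε)) ^ (n + 1) = ε := by
        conv_rhs => rw [← hεN]
        refine sameH hN hq1 ?_
        rw [← mul_assoc]
        exact leL_mul _ _
      let γ : HG n ε := ⟨_, hq⟩
      have hγ : γ ∈ S := by
        refine ⟨f * (a * e), (hf.mul ((C1.gen ha).mul he)).mono le_rfl (by omega), ?_⟩
        rw [map_mul, map_mul, hf']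
      refine ⟨g * γ, mul_mem hg (Submonoid.subset_closure hγ), ?_⟩
      rw [hmulv, hg']
      change ε * ρ u.prod * ε * (p ^ (n + 1) * (ρ a * ε)) = _
      have h5 : ε * p ^ (n + 1) = p ^ (n + 1) := by
        have := absorbR hN ((e_leR (n := n) p).trans hp1)
        rwa [hεN] at this
      have h6 : ε * ρ u.prod = p := by rw [hpdef, map_mul]
      rw [h6, mul_assoc p, ← mul_assoc ε, h5, ← mul_assoc p, mul_e hN, ← h6, List.prod_append,
        List.prod_singleton, map_mul]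
      simp only [mul_assoc]
  obtain ⟨u, -, hu, huw⟩ := exists_list hw
  obtain ⟨g, hg, hg'⟩ := key u hu
  obtain ⟨L, h1, h2, h3⟩ := bs hP hS (hS 1 h1S) hcard hg
  obtain ⟨t, ht, ht'⟩ := h3 g rfl
  obtain ⟨f, hf, hf'⟩ := hidem w hw hwε hεw
  refine ⟨t * f, (C1.mul ⟨L, h1, h2, ht⟩ hf).mono le_rfl (by omega), ?_⟩
  have h5 : ε * ρ w = ρ w := by
    have := absorbR hN hwε
    rwa [hεN] at this
  have h6 : ε * ρ w ^ (n + 1) = ρ w ^ (n + 1) := by
    have := absorbR hN ((e_leR (n := n) (ρ w)).trans hwε)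
    rwa [hεN] at this
  rw [map_mul, ht', hg', hf', huw, h5, mul_assoc, h6, mul_e hN]

end FStep

end Pool.Agent.H190Z.Smp
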