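import Mathlib
import Pool.Agent.H190Z.Smp2

set_option autoImplicit false

namespace Pool.Agent.H190Z.Smp

section RStep
variable {M T ι : Type} [Monoid M] [Finite M] [Monoid T] {n : ℕ}

theorem rstep (hN : ∀ x : M, x ^ (n + 2) = x) (π : ι → T →* M) {s d F : ℕ}
    (hF : ∀ (A : Finset T) (w : T) (I : Set ι), A.card ≤ s → w ∈ Subsemigroup.closure (A : Set T) →
      (∀ i ∈ I, depth (π i w) ≤ d) → ∃ x, C1 (A : Set T) x F ∧ ∀ i ∈ I, π i x = π i w) :
    ∀ k ≤ s, ∀ (A : Finset T) (w : T) (I : Set ι), A.card ≤ k →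
      w ∈ Subsemigroup.closure (A : Set T) → (∀ i ∈ I, depth (π i w) ≤ d + 1) →
      ∃ x, C1 (A : Set T) x (k * (F + n + 3)) ∧
        ∀ i ∈ I, leR (π i x) (π i w) ∧ leR (π i w) (π i x) := by
  classical
  intro k
  induction k with
  | zero =>
    intro _ A w I hA hw _
    obtain ⟨l, hl, hlA, -⟩ := exists_list hw
    obtain ⟨a, ha⟩ := List.exists_mem_of_ne_nil l hl
    have := Finset.card_pos.2 ⟨a, hlA a ha⟩
    omega
  | succ k ih =>
    intro hk A w I hA hw hd
    obtain ⟨l, hl, hlA, rfl⟩ := exists_list hw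
    obtain ⟨u, a, v, rfl, hau, hv⟩ := list_split l hl
    have haA : a ∈ (A : Set T) := hlA a (by simp)
    have hG : ∀ i, leR (π i (u.prod * a)) (π i (u ++ a :: v).prod) ∧
        leR (π i (u ++ a :: v).prod) (π i (u.prod * a)) := by
      intro i
      have e1 : π i (u ++ a :: v).prod = π i (u.prod * a) * π i v.prod := by
        simp [mul_assoc]
      rw [e1]
      refine ⟨stabR' hN ?_, leR_mul _ _⟩
      rw [map_list_prod]
      refine leJ_prod hN _ fun b hb => ?_
      obtain ⟨c, hc, rfl⟩ := List.mem_map.1 hb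
      rw [map_mul]
      rcases hv c hc with h | rfl
      · exact (leR_mul _ _).toJ.trans (prod_leJ (π i) h)
      · exact (leL_mul _ _).toJ
    by_cases hu : u = []
    · subst hu
      refine ⟨a, (C1.gen haA).mono le_rfl (by nlinarith), fun i _ => ?_⟩
      simpa using hG i
    · have hsub : u.toFinset ⊆ A.erase a := by
        intro b hb
        have hb' : b ∈ u := List.mem_toFinset.1 hb
        exact Finset.mem_erase.2 ⟨fun h => hau (h ▸ hb'), hlA b (by simp [hb'])⟩
      have hsub' : (u.toFinset : Set T) ⊆ A := fun b hb => Finset.mem_of_mem_erase (hsub hb)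
      have hcard : u.toFinset.card ≤ k := by
        have := Finset.card_le_card hsub
        rw [Finset.card_erase_of_mem haA] at this
        omega
      have hucl : u.prod ∈ Subsemigroup.closure (u.toFinset : Set T) :=
        prod_mem u hu fun b hb => by simpa using hb
      have hwu : ∀ i, leR (π i (u ++ a :: v).prod) (π i u.prod) := by
        intro i
        rw [List.prod_append, map_mul]
        exact leR_mul _ _
      obtain ⟨y, hy, hy'⟩ := ih (by omega) u.toFinset u.prod I hcard hucl
        fun i hi => (depth_mono (hwu i).toJ).trans (hd i hi)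
      obtain ⟨z, hz, hz'⟩ := hF u.toFinset u.prod
        {i | i ∈ I ∧ ¬ leJ (π i u.prod) (π i (u ++ a :: v).prod)} (by omega) hucl
        fun i hi => by
          have := depth_lt (hwu i).toJ hi.2
          have := hd i hi.1
          omega
      refine ⟨y ^ (n + 1) * (z * a), (((hy.pow n).mono hsub' le_rfl).mul
        ((hz.mono hsub' le_rfl).mul (C1.gen haA))).mono le_rfl (by nlinarith), fun i hi => ?_⟩
      rw [map_mul, map_mul, map_pow]
      by_cases hJ : leJ (π i u.prod) (π i (u ++ a :: v).prod)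
      · have h1 : leR (π i u.prod) (π i (u ++ a :: v).prod) := by
          rw [List.prod_append, map_mul] at hJ ⊢
          exact stabR hN hJ
        have h2 : leR (π i y ^ (n + 1)) (π i u.prod) := (e_leR _).trans (hy' i hi).1
        refine ⟨((leR_mul _ _).trans h2).trans h1, ?_⟩
        refine (((hwu i).trans (hy' i hi).2).trans (leR_e hN _)).trans (stabR' hN ?_)
        refine leJ_mul hN (leJ_closure hN (π i) (fun b hb => ?_) hz.mem_closure) ?_
        · exact h2.toJ.trans (prod_leJ (π i) (by simpa using hb))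
        · exact (h2.toJ.trans hJ).trans (prod_leJ (π i) (by simp))
      · rw [hz' i ⟨hi, hJ⟩, ← mul_assoc, absorbR hN (hy' i hi).2, ← map_mul]
        exact hG i

end RStep

theorem leR_pi {ι : Type} {M : Type} [Monoid M] {x y : ι → M} (h : ∀ i, leR (x i) (y i)) :
    leR x y := by
  choose z hz using h
  exact ⟨z, funext hz⟩

theorem leL_pi {ι : Type} {M : Type} [Monoid M] {x y : ι → M} (h : ∀ i, leL (x i) (y i)) :
    leL x y := by
  choose z hz using h
  exact ⟨z, funext hz⟩

open MulOpposite in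
theorem main_poly (n μ d : ℕ) : ∃ f : Polynomial ℕ, ∀ (M T ι : Type) [Monoid M] [Finite M]
    [Monoid T] [Finite ι] (π : ι → T →* M), (∀ x : M, x ^ (n + 2) = x) → Nat.card M ≤ μ →
    ∀ s, Nat.card ι ≤ s → ∀ (A : Finset T) (w : T) (I : Set ι), A.card ≤ s →
      w ∈ Subsemigroup.closure (A : Set T) → (∀ i ∈ I, depth (π i w) ≤ d) →
      ∃ x, C1 (A : Set T) x (f.eval s) ∧ ∀ i ∈ I, π i x = π i w := by
  induction d with
  | zero =>
    refine ⟨1, fun M T ι _ _ _ _ π _ _ s _ A w I _ hw hd => ?_⟩
    obtain ⟨l, hl, hlA, -⟩ := exists_list hw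
    obtain ⟨a, ha⟩ := List.exists_mem_of_ne_nil l hl
    refine ⟨a, by simpa using C1.gen (hlA a ha), fun i hi => ?_⟩
    have := depth_pos (π i w)
    have := hd i hi
    omega
  | succ d ih =>
    obtain ⟨f, hf⟩ := ih
    let r : Polynomial ℕ := Polynomial.X * (f + Polynomial.C n + 3)
    let l : Polynomial ℕ := Polynomial.C μ * Polynomial.X
    refine ⟨2 * (3 * r + 3 * Polynomial.C n + 4) +
      (l + 1) * (2 * l + 2 * Polynomial.C n + (3 * r + 3 * Polynomial.C n + 4) + 2) + 1,
      fun M T ι _ _ _ _ π hN hμ s hs A w I hA hw hd => ?_⟩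
    classical
    obtain ⟨u, hu, huA, rfl⟩ := exists_list hw
    have hsub : (u.toFinset : Set T) ⊆ A := fun b hb => huA b (by simpa using hb)
    have hcard : u.toFinset.card ≤ s := (Finset.card_le_card fun b hb => hsub hb).trans hA
    have hucl : u.prod ∈ Subsemigroup.closure (u.toFinset : Set T) :=
      prod_mem u hu fun b hb => by simpa using hb
    let ρ : T →* (I → M) := MonoidHom.pi fun i : I => π i.1
    have hρ : ∀ t (i : I), ρ t i = π i.1 t := fun _ _ => rfl
    have hNQ : ∀ x : I → M, x ^ (n + 2) = x := fun x => funext fun i => hN (x i)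
    have hQ : Nat.card (I → M) ≤ 2 ^ (μ * s) := by
      rw [Nat.card_fun, pow_mul]
      have h1 : Nat.card I ≤ s :=
        (Nat.card_le_card_of_injective Subtype.val Subtype.val_injective).trans hs
      have h2 : Nat.card M ≤ 2 ^ μ := hμ.trans Nat.lt_two_pow_self.le
      calc Nat.card M ^ Nat.card I ≤ (2 ^ μ) ^ Nat.card I := Nat.pow_le_pow_left h2 _
        _ ≤ (2 ^ μ) ^ s := Nat.pow_le_pow_right (by positivity) h1
    have hfinop : Finite Mᵐᵒᵖ := Finite.of_equiv M opEquiv
    have hNop : ∀ x : Mᵐᵒᵖ, x ^ (n + 2) = x := fun x => by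
      rw [← op_unop x, ← op_pow, hN]
    have hμop : Nat.card Mᵐᵒᵖ ≤ μ := by rwa [Nat.card_congr (opEquiv (α := M)).symm]
    obtain ⟨x, hx, hx'⟩ := fstep hNQ ρ hucl
      (fun a ha => prod_leJ ρ (by simpa using ha)) (r := s * (f.eval s + n + 3)) hQ
      (by
        obtain ⟨x, hx, hx'⟩ := rstep hN π (hf M T ι π hN hμ s hs) s le_rfl u.toFinset u.prod I
          hcard hucl hd
        exact ⟨x, hx, leR_pi fun i => (hx' i.1 i.2).1, leR_pi fun i => (hx' i.1 i.2).2⟩)
      (by
        intro p hp
        have hA' : ((u.toFinset.map ⟨op, op_injective⟩ : Finset Tᵐᵒᵖ) : Set Tᵐᵒᵖ) =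
            op '' (u.toFinset : Set T) := by
          rw [Finset.coe_map]; rfl
        obtain ⟨y, hy, hy'⟩ := rstep hNop (fun i => MonoidHom.op (π i))
          (hf Mᵐᵒᵖ Tᵐᵒᵖ ι (fun i => MonoidHom.op (π i)) hNop hμop s hs) s le_rfl
          (u.toFinset.map ⟨op, op_injective⟩) (op p) I (by simpa using hcard)
          (by rw [hA']; exact op_mem_closure hp)
          (fun i hi => by
            change depth (op (π i p)) ≤ _
            rw [depth_op]
            refine (depth_mono ?_).trans (hd i hi)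
            exact leJ_closure hN (π i) (fun a ha => prod_leJ (π i) (by simpa using ha)) hp)
        rw [hA'] at hy
        exact ⟨unop y, hy.unop, leL_pi fun i => leR_op.1 (hy' i.1 i.2).1,
          leL_pi fun i => leR_op.1 (hy' i.1 i.2).2⟩)
    refine ⟨x, hx.mono hsub (le_of_eq ?_), fun i hi => congrFun hx' ⟨i, hi⟩⟩
    simp [r, l]

/-- in a finite completely regular semigroup with an identity adjoined some identity
`x ^ (n + 2) = x` holds -/
theorem exists_exponent (M : Type) [Monoid M] [Finite M]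
    (h : ∀ a : M, ∃ x, a = a * x * a ∧ a * x = x * a) : ∃ n, ∀ x : M, x ^ (n + 2) = x := by
  have h1 : ∀ a : M, ∃ m, 0 < m ∧ a ^ (m + 1) = a := by
    intro a
    obtain ⟨x, hx1, hx2⟩ := h a
    have hc : Commute a x := hx2
    have key : ∀ j, a ^ (j + 1) * x ^ j = a := by
      intro j
      induction j with
      | zero => simp
      | succ j ih =>
        have : a ^ (j + 1 + 1) * x ^ (j + 1) = a ^ j * (a * x * a) * x ^ j := by
          rw [pow_succ' x, mul_assoc a x a, ← hx2, pow_succ, pow_succ]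
          simp only [mul_assoc]
        rw [this, ← hx1, ← pow_succ, ih]
    obtain ⟨i, j, hij, he⟩ := Finite.exists_ne_map_eq_of_infinite (fun k : ℕ => a ^ (k + 1))
    wlog hlt : i < j generalizing i j
    · exact this j i hij.symm he.symm (by omega)
    obtain ⟨m, rfl⟩ := Nat.exists_eq_add_of_lt hlt
    refine ⟨m + 1, by omega, ?_⟩
    have h2 : a ^ (i + m + 1 + 1) * x ^ i = a ^ (m + 1) * (a ^ (i + 1) * x ^ i) := by
      rw [← mul_assoc, ← pow_add]
      congr 2
      ring
    have he' : a ^ (i + 1) = a ^ (i + m + 1 + 1) := he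
    rw [← he', key, ← pow_succ] at h2
    exact h2.symm
  choose m hm hm' using h1
  have := Fintype.ofFinite M
  have hpos : 0 < ∏ a, m a := Finset.prod_pos fun a _ => hm a
  refine ⟨∏ a, m a - 1, fun x => ?_⟩
  obtain ⟨c, hc⟩ : m x ∣ ∏ a, m a := Finset.dvd_prod_of_mem _ (Finset.mem_univ x)
  have : ∏ a, m a - 1 + 2 = m x * c + 1 := by omega
  rw [this]
  clear this hc
  induction c with
  | zero => simp
  | succ c ih => rw [mul_add, mul_one, add_assoc, pow_add, hm', ← pow_succ, ih]

/-- polynomial straight-line programs in powers of a finite completely regular semigroup -/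
theorem slp_semigroup (S : Type) [Semigroup S] [Finite S]
    (hS : ∀ a : S, ∃ x, a = a * x * a ∧ a * x = x * a) :
    ∃ f : Polynomial ℕ, ∀ (n k : ℕ) (a : Fin k → Fin n → S) (b : Fin n → S),
      b ∈ Subsemigroup.closure (Set.range a) → ∀ s, n ≤ s → k ≤ s →
      C1 (Set.range a) b (f.eval s) := by
  classical
  have hfin : Finite (WithOne S) := inferInstanceAs (Finite (Option S))
  obtain ⟨N, hN⟩ := exists_exponent (WithOne S) (by
    intro a
    induction a using WithOne.recOneCoe with
    | one => exact ⟨1, by simp, by simp⟩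
    | coe a =>
      obtain ⟨x, h1, h2⟩ := hS a
      exact ⟨x, by exact_mod_cast h1, by exact_mod_cast h2⟩)
  obtain ⟨f, hf⟩ := main_poly N (Nat.card (WithOne S)) (Nat.card (WithOne S))
  refine ⟨f, fun n k a b hb s hn hk => ?_⟩
  let π : Fin n → WithOne (Fin n → S) →* WithOne S := fun i =>
    WithOne.mapMulHom (Pi.evalMulHom (fun _ => S) i)
  have hπ : ∀ i (t : Fin n → S), π i (t : WithOne (Fin n → S)) = (t i : WithOne S) :=
    fun _ _ => rfl
  let A : Finset (WithOne (Fin n → S)) := Finset.univ.image fun j => (a j : WithOne (Fin n → S))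
  have hA : A.card ≤ s := Finset.card_image_le.trans (by simpa using hk)
  have hb' : (b : WithOne (Fin n → S)) ∈ Subsemigroup.closure (A : Set _) := by
    clear hA
    induction hb using Subsemigroup.closure_induction with
    | mem x hx =>
      obtain ⟨j, rfl⟩ := hx
      exact Subsemigroup.subset_closure (by simp [A])
    | mul x y _ _ hx hy => rw [WithOne.coe_mul]; exact mul_mem hx hy
  obtain ⟨x, ⟨L, hL1, hL2, hL3⟩, hx⟩ := hf (WithOne S) (WithOne (Fin n → S)) (Fin n) π hN le_rfl s
    (by simpa using hn) A b Set.univ hA hb' fun i _ => depth_le_card _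
  have pull : ∀ L : List (WithOne (Fin n → S)), SLP (A : Set _) L →
      ∃ L' : List (Fin n → S), SLP (Set.range a) L' ∧ L'.map (fun t : Fin n → S => (t : WithOne (Fin n → S))) = L := by
    intro L hL
    induction hL with
    | nil => exact ⟨[], SLP.nil, rfl⟩
    | gen ha _ ih =>
      obtain ⟨L', h1, h2⟩ := ih
      obtain ⟨j, -, rfl⟩ := Finset.mem_image.1 ha
      exact ⟨a j :: L', SLP.gen ⟨j, rfl⟩ h1, by simp [h2]⟩
    | mul hx hy _ ih =>
      obtain ⟨L', h1, rfl⟩ := ih
      obtain ⟨x', hx', rfl⟩ := List.mem_map.1 hx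
      obtain ⟨y', hy', rfl⟩ := List.mem_map.1 hy
      exact ⟨x' * y' :: L', SLP.mul hx' hy' h1, by simp⟩
  obtain ⟨L', h1, rfl⟩ := pull L hL1
  obtain ⟨t, ht, rfl⟩ := List.mem_map.1 hL3
  have : t = b := funext fun i => by
    have := hx i (Set.mem_univ i)
    rw [hπ, hπ] at this
    exact_mod_cast this
  exact ⟨L', h1, by simpa using hL2, this ▸ ht⟩

end Pool.Agent.H190Z.Smp
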