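import Pool.Agent.NPC.Defs

set_option autoImplicit false

namespace Pool.Agent.H190Z.SmpDefs

/-- A semigroup is completely regular if for every `a` there is `x` with `a = a x a` and
`a x = x a`. -/
def CompletelyRegular (S : Type) [Semigroup S] : Prop :=
  ∀ a : S, ∃ x : S, a = a * x * a ∧ a * x = x * a

/-- The subpower membership problem of `S`, the elements of `S` being written as natural numbers
by `c`.  An input is a list of lists (the generators) and a list (the target).  It is a
yes-instance if it is the code of tuples `a_1, …, a_k, b` in `S ^ n` such that `b` lies in the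
subsemigroup of `S ^ n` generated by `a_1, …, a_k`. -/
def SMP (S : Type) [Semigroup S] (c : S → ℕ) (I : List (List ℕ) × List ℕ) : Prop :=
  ∃ (n k : ℕ) (a : Fin k → Fin n → S) (b : Fin n → S),
    I = (List.ofFn fun j => List.ofFn fun i => c (a j i), List.ofFn fun i => c (b i)) ∧
      b ∈ Subsemigroup.closure (Set.range a)

end Pool.Agent.H190Z.SmpDefs
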