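import Pool.Agent.H190Z.Smp3
import Pool.Agent.H190Z.SmpDefs
import Pool.Agent.NPC.Dec
import Pool.Agent.H671R2.PolyAuto

set_option autoImplicit false

namespace Pool.Agent.H190Z.Smp

open Pool.Agent.NPC Pool.Agent.H190Z.SmpDefs

/-- test that `t` is the coordinatewise product of `s` and `s'` according to a table -/
def isMul (tab : List (ℕ × ℕ × ℕ)) (t s s' : List ℕ) : Bool :=
  decide (t.length = s.length) && decide (s'.length = s.length) &&
    (t.zip (s.zip s')).all fun p => decide ((p.2.1, p.2.2, p.1) ∈ tab)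

/-- the verifier -/
def verif (codes : List ℕ) (tab : List (ℕ × ℕ × ℕ))
    (x : (List (List ℕ) × List ℕ) × List (List ℕ)) : Bool :=
  (x.1.1.all fun g => decide (g.length = x.1.2.length) && g.all fun y => decide (y ∈ codes)) &&
  decide (x.1.2 ∈ x.2) &&
  x.2.zipIdx.all fun t => decide (t.1 ∈ x.1.1) ||
    x.2.zipIdx.any fun s => x.2.zipIdx.any fun s' =>
      decide (t.2 < s.2) && decide (t.2 < s'.2) && isMul tab t.1 s.1 s'.1

theorem poly_verif (codes : List ℕ) (tab : List (ℕ × ℕ × ℕ)) : Poly (verif codes tab) := by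
  unfold verif isMul
  fun_prop

theorem SLP.getElem {T : Type} [Mul T] {A : Set T} {L : List T} (h : SLP A L) :
    ∀ (p : ℕ) (t : T), L[p]? = some t → t ∈ A ∨ ∃ (q r : ℕ) (x y : T), p < q ∧ p < r ∧
      L[q]? = some x ∧ L[r]? = some y ∧ t = x * y := by
  induction h with
  | nil => simp
  | gen ha _ ih =>
    intro p t ht
    cases p with
    | zero =>
      left
      simp only [List.getElem?_cons_zero, Option.some.injEq] at ht
      exact ht ▸ ha
    | succ p =>
      rcases ih p t (by simpa using ht) with h | ⟨q, r, x, y, h1, h2, h3, h4, h5⟩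
      · exact Or.inl h
      · exact Or.inr ⟨q + 1, r + 1, x, y, by omega, by omega, by simpa using h3,
          by simpa using h4, h5⟩
  | mul hx hy _ ih =>
    intro p t ht
    cases p with
    | zero =>
      right
      have := ht
      simp only [List.getElem?_cons_zero, Option.some.injEq] at this
      obtain ⟨q, hq⟩ := List.getElem?_of_mem hx
      obtain ⟨r, hr⟩ := List.getElem?_of_mem hy
      exact ⟨q + 1, r + 1, _, _, by omega, by omega, by simpa using hq, by simpa using hr,
        this.symm⟩
    | succ p =>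
      rcases ih p t (by simpa using ht) with h | ⟨q, r, x, y, h1, h2, h3, h4, h5⟩
      · exact Or.inl h
      · exact Or.inr ⟨q + 1, r + 1, x, y, by omega, by omega, by simpa using h3,
          by simpa using h4, h5⟩

section
variable {S : Type} [Semigroup S] (c : S → ℕ)

/-- the code of a tuple -/
def code {n : ℕ} (t : Fin n → S) : List ℕ := List.ofFn fun i => c (t i)

theorem isMul_code {tab : List (ℕ × ℕ × ℕ)} (htab : ∀ x y : S, (c x, c y, c (x * y)) ∈ tab)
    {n : ℕ} (x y : Fin n → S) : isMul tab (code c (x * y)) (code c x) (code c y) = true := by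
  simp only [isMul, code, List.length_ofFn, decide_true, Bool.and_self, Bool.true_and,
    List.all_eq_true, decide_eq_true_eq]
  intro p hp
  obtain ⟨i, hi, rfl⟩ := List.mem_iff_getElem.1 hp
  simp only [List.getElem_zip, List.getElem_ofFn]
  exact htab _ _

theorem eq_of_isMul (hc : Function.Injective c) {tab : List (ℕ × ℕ × ℕ)}
    (htab : ∀ p ∈ tab, ∃ x y : S, p = (c x, c y, c (x * y)))
    {n : ℕ} (x y : Fin n → S) (t : List ℕ) (h : isMul tab t (code c x) (code c y) = true) :
    t = code c (x * y) := by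
  simp only [isMul, code, List.length_ofFn, decide_true, Bool.and_true, Bool.and_eq_true,
    List.all_eq_true, decide_eq_true_eq] at h
  obtain ⟨h1, h2⟩ := h
  refine List.ext_getElem (by simp [code, h1]) fun i hi hi' => ?_
  have hin : i < n := h1 ▸ hi
  have := h2 (t[i], c (x ⟨i, hin⟩), c (y ⟨i, hin⟩)) (List.mem_iff_getElem.2 ⟨i, by simp [h1, hin],
    by simp⟩)
  obtain ⟨a, b, hab⟩ := htab _ this
  simp only [Prod.mk.injEq] at hab
  obtain ⟨e1, e2, e3⟩ := hab
  rw [e3, ← hc e1, ← hc e2]
  simp [code]

omit [Semigroup S] in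
theorem exists_decode {codes : List ℕ} (hcodes : ∀ y ∈ codes, ∃ x, c x = y) (n : ℕ) (g : List ℕ)
    (h1 : g.length = n) (h2 : ∀ y ∈ g, y ∈ codes) : ∃ t : Fin n → S, code c t = g := by
  subst h1
  choose t ht using fun i : Fin g.length => hcodes g[i] (h2 _ (List.getElem_mem i.2))
  refine ⟨t, List.ext_getElem (by simp [code]) fun i hi hi' => ?_⟩
  simp only [code, List.getElem_ofFn]
  exact ht ⟨i, hi'⟩

end

theorem smp_np (S : Type) [Semigroup S] [Finite S] (hS : CompletelyRegular S) (c : S → ℕ)
    (hc : Function.Injective c) : InNPP (SMP S c) := by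
  classical
  have := Fintype.ofFinite S
  obtain ⟨f, hf⟩ := slp_semigroup S hS
  let codes : List ℕ := (Finset.univ : Finset S).toList.map c
  let tab : List (ℕ × ℕ × ℕ) :=
    (Finset.univ : Finset (S × S)).toList.map fun p => (c p.1, c p.2, c (p.1 * p.2))
  let B : ℕ := ∑ x : S, sz (c x)
  have hB : ∀ x, sz (c x) ≤ B := fun x =>
    Finset.single_le_sum (f := fun x => sz (c x)) (fun _ _ => Nat.zero_le _) (Finset.mem_univ x)
  refine inNPP_of (poly_verif codes tab)
    (f * (Polynomial.X * (Polynomial.C B + 1) + 2) + 1) ?_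
  rintro ⟨gens, b⟩
  constructor
  · rintro ⟨n, k, a, b', hI, hb⟩
    simp only [Prod.mk.injEq] at hI
    obtain ⟨hg, hb'⟩ := hI
    have hg' : gens = List.ofFn fun j => code c (a j) := hg
    have hb'' : b = code c b' := hb'
    have hn : n ≤ sz (gens, b) := by
      have := length_lt_sz b
      rw [sz_pair]
      have h2 : b.length = n := by simp [hb'', code]
      omega
    have hk : k ≤ sz (gens, b) := by
      have := length_lt_sz gens
      rw [sz_pair]
      have h2 : gens.length = k := by simp [hg']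
      omega
    obtain ⟨L, hL1, hL2, hL3⟩ := hf n k a b' hb _ hn hk
    refine ⟨L.map (code c), ?_, ?_⟩
    · have h1 : ∀ t ∈ L.map (code c), sz t ≤ sz (gens, b) * (B + 1) + 1 := by
        intro t ht
        obtain ⟨x, -, rfl⟩ := List.mem_map.1 ht
        refine (sz_le_length_mul _ B fun y hy => ?_).trans ?_
        · obtain ⟨i, rfl⟩ := (List.mem_ofFn' _ _).1 hy
          exact hB _
        · simp only [code, List.length_ofFn]
          gcongr
      refine (sz_le_length_mul _ _ h1).trans ?_
      simp only [List.length_map, Polynomial.eval_add, Polynomial.eval_mul, Polynomial.eval_X,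
        Polynomial.eval_C, Polynomial.eval_one, Polynomial.eval_ofNat]
      exact Nat.add_le_add_right (Nat.mul_le_mul hL2 le_rfl) 1
    · simp only [verif, Bool.and_eq_true, List.all_eq_true, decide_eq_true_eq, Bool.or_eq_true,
        List.any_eq_true]
      refine ⟨⟨fun g hg => ?_, hb'' ▸ List.mem_map_of_mem hL3⟩, fun t ht => ?_⟩
      · rw [hg'] at hg
        obtain ⟨j, rfl⟩ := (List.mem_ofFn' _ _).1 hg
        refine ⟨by simp [code, hb''], fun y hy => ?_⟩
        obtain ⟨i, rfl⟩ := (List.mem_ofFn' _ _).1 hy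
        exact List.mem_map_of_mem (by simp)
      · rw [List.mem_zipIdx_iff_getElem?, List.getElem?_map, Option.map_eq_some_iff] at ht
        obtain ⟨x, hx, hx'⟩ := ht
        rcases hL1.getElem _ _ hx with ⟨j, rfl⟩ | ⟨q, r, y, z, h1, h2, h3, h4, rfl⟩
        · left
          rw [← hx', hg']
          exact (List.mem_ofFn' _ _).2 ⟨j, rfl⟩
        · right
          refine ⟨(code c y, q), ?_, (code c z, r), ?_, ⟨h1, h2⟩, ?_⟩
          · rw [List.mem_zipIdx_iff_getElem?, List.getElem?_map, h3]; rfl
          · rw [List.mem_zipIdx_iff_getElem?, List.getElem?_map, h4]; rfl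
          · rw [← hx']
            exact isMul_code c (fun x y => List.mem_map.2 ⟨(x, y), by simp, rfl⟩) y z
  · rintro ⟨w, -, hw⟩
    simp only [verif, Bool.and_eq_true, List.all_eq_true, decide_eq_true_eq, Bool.or_eq_true,
      List.any_eq_true] at hw
    obtain ⟨⟨h1, h2⟩, h3⟩ := hw
    have hcodes : ∀ y ∈ codes, ∃ x, c x = y := by
      intro y hy
      obtain ⟨x, -, rfl⟩ := List.mem_map.1 hy
      exact ⟨x, rfl⟩
    have htab : ∀ p ∈ tab, ∃ x y : S, p = (c x, c y, c (x * y)) := by
      intro p hp
      obtain ⟨x, -, rfl⟩ := List.mem_map.1 hp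
      exact ⟨x.1, x.2, rfl⟩
    choose a ha using fun j : Fin gens.length =>
      exists_decode c hcodes b.length gens[j] (h1 _ (List.getElem_mem j.2)).1
        (h1 _ (List.getElem_mem j.2)).2
    have key : ∀ (m p : ℕ) (t : List ℕ), w.length - p ≤ m → w[p]? = some t →
        ∃ x ∈ Subsemigroup.closure (Set.range a), code c x = t := by
      intro m
      induction m with
      | zero =>
        intro p t hp ht
        have := (List.getElem?_eq_some_iff.1 ht).1
        omega
      | succ m ih =>
        intro p t hp ht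
        rcases h3 (t, p) (List.mem_zipIdx_iff_getElem?.2 ht) with
          h | ⟨s, hs, s', hs', ⟨h4, h5⟩, h6⟩
        · obtain ⟨j, hj, rfl⟩ := List.mem_iff_getElem.1 h
          exact ⟨a ⟨j, hj⟩, Subsemigroup.subset_closure ⟨_, rfl⟩, ha ⟨j, hj⟩⟩
        · rw [List.mem_zipIdx_iff_getElem?] at hs hs'
          simp only at h4 h5 h6
          obtain ⟨x, hx, hx'⟩ := ih s.2 s.1 (by omega) hs
          obtain ⟨y, hy, hy'⟩ := ih s'.2 s'.1 (by omega) hs'
          rw [← hx', ← hy'] at h6
          exact ⟨x * y, mul_mem hx hy, (eq_of_isMul c hc htab x y t h6).symm⟩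
    obtain ⟨p, hp⟩ := List.getElem?_of_mem h2
    obtain ⟨x, hx, hx'⟩ := key _ p b le_rfl hp
    refine ⟨b.length, gens.length, a, x, ?_, hx⟩
    refine Prod.ext ?_ hx'.symm
    refine List.ext_getElem (by simp) fun j hj hj' => ?_
    simp only [List.getElem_ofFn]
    exact (ha ⟨j, hj⟩).symm

end Pool.Agent.H190Z.Smp
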