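import Mathlib

set_option autoImplicit false

open Filter Topology

namespace Pool.Agent.H190Z.WotK

theorem reflexive_transfer {E F : Type} [NormedAddCommGroup E] [NormedSpace ℂ E]
    [NormedAddCommGroup F] [NormedSpace ℂ F] (φ : E ≃L[ℂ] F)
    (h : Function.Surjective (NormedSpace.inclusionInDoubleDual ℂ E)) :
    Function.Surjective (NormedSpace.inclusionInDoubleDual ℂ F) := by
  intro ξ
  let T : StrongDual ℂ E →L[ℂ] StrongDual ℂ F :=
    (ContinuousLinearMap.compL ℂ F E ℂ).flip (φ.symm : F →L[ℂ] E)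
  obtain ⟨x, hx⟩ := h (ξ.comp T)
  refine ⟨φ x, ?_⟩
  ext f
  rw [NormedSpace.dual_def]
  have h1 := congrArg (fun k : StrongDual ℂ (StrongDual ℂ E) => k (f.comp (φ : E →L[ℂ] F))) hx
  simp only [NormedSpace.dual_def] at h1
  have h2 : T (f.comp (φ : E →L[ℂ] F)) = f := by
    ext y
    change f (φ (φ.symm y)) = f y
    rw [φ.apply_symm_apply]
  change f (φ x) = ξ (T (f.comp (φ : E →L[ℂ] F))) at h1
  rw [h2] at h1
  exact h1

theorem hilbert_reflexive (E : Type) [NormedAddCommGroup E] [InnerProductSpace ℂ E]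
    [CompleteSpace E] : Function.Surjective (NormedSpace.inclusionInDoubleDual ℂ E) := by
  intro ξ
  let g0 : E →ₗ[ℂ] ℂ :=
    { toFun := fun y => (starRingEnd ℂ) (ξ (innerSL ℂ y))
      map_add' := fun a b => by simp
      map_smul' := fun c a => by simp }
  let g : E →L[ℂ] ℂ := g0.mkContinuous ‖ξ‖ (fun y => by
    change ‖(starRingEnd ℂ) (ξ (innerSL ℂ y))‖ ≤ _
    rw [RCLike.norm_conj]
    refine (ξ.le_opNorm _).trans ?_
    rw [innerSL_apply_norm])
  refine ⟨(InnerProductSpace.toDual ℂ E).symm g, ?_⟩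
  ext f
  rw [NormedSpace.dual_def]
  have h1 : f = innerSL ℂ ((InnerProductSpace.toDual ℂ E).symm f) := by
    ext y
    change f y = inner ℂ ((InnerProductSpace.toDual ℂ E).symm f) y
    rw [InnerProductSpace.toDual_symm_apply]
  have h2 : f ((InnerProductSpace.toDual ℂ E).symm g) =
      inner ℂ ((InnerProductSpace.toDual ℂ E).symm f)
        ((InnerProductSpace.toDual ℂ E).symm g) := by
    rw [InnerProductSpace.toDual_symm_apply]
  rw [h2, ← inner_conj_symm, InnerProductSpace.toDual_symm_apply]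
  change (starRingEnd ℂ) ((starRingEnd ℂ) (ξ (innerSL ℂ _))) = ξ f
  rw [← h1]
  simp

/-- contractions, to carry the weak operator topology -/
def KW (Y : Type) [NormedAddCommGroup Y] [NormedSpace ℂ Y] : Type :=
  {T : Y →L[ℂ] Y // ‖T‖ ≤ 1}

section
variable {Y : Type} [NormedAddCommGroup Y] [NormedSpace ℂ Y]

/-- all matrix coefficients -/
noncomputable def coef (T : KW Y) (p : Y × (Y →L[ℂ] ℂ)) : ℂ := p.2 (T.1 p.1)

noncomputable instance : TopologicalSpace (KW Y) :=
  TopologicalSpace.induced (fun (T : KW Y) (p : Y × (Y →L[ℂ] ℂ)) => p.2 (T.1 p.1))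
    (Pi.topologicalSpace : TopologicalSpace (Y × (Y →L[ℂ] ℂ) → ℂ))

instance : Nonempty (KW Y) := ⟨⟨0, by simp⟩⟩

theorem inducing_coef : IsInducing (coef (Y := Y)) := ⟨rfl⟩

theorem injective_coef : Function.Injective (coef (Y := Y)) := by
  intro S T h
  apply Subtype.ext
  ext x
  rw [SeparatingDual.eq_iff_forall_dual_eq (R := ℂ)]
  intro g
  exact congrFun h (x, g)

instance : T2Space (KW Y) := (IsEmbedding.mk inducing_coef injective_coef).t2Space

theorem continuous_coef (x : Y) (f : Y →L[ℂ] ℂ) : Continuous fun T : KW Y => f (T.1 x) :=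
  (continuous_apply (x, f)).comp inducing_coef.continuous

theorem compactSpace (h : Function.Surjective (NormedSpace.inclusionInDoubleDual ℂ Y)) :
    CompactSpace (KW Y) := by
  refine ⟨?_⟩
  rw [inducing_coef.isCompact_iff]
  let S : Set (Y × (Y →L[ℂ] ℂ) → ℂ) :=
    {b | (∀ x y f, b (x + y, f) = b (x, f) + b (y, f)) ∧
      (∀ (c : ℂ) x f, b (c • x, f) = c • b (x, f)) ∧
      (∀ x f g, b (x, f + g) = b (x, f) + b (x, g)) ∧
      (∀ (c : ℂ) x f, b (x, c • f) = c • b (x, f)) ∧
      (∀ x f, ‖b (x, f)‖ ≤ 1 * ‖x‖ * ‖f‖)}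
  have hS : coef '' (Set.univ : Set (KW Y)) = S := by
    ext b
    constructor
    · rintro ⟨T, -, rfl⟩
      refine ⟨fun x y f => by simp [coef], fun c x f => by simp [coef],
        fun x f g => by simp [coef], fun c x f => by simp [coef], fun x f => ?_⟩
      change ‖f (T.1 x)‖ ≤ _
      refine (f.le_opNorm _).trans ?_
      rw [mul_comm]
      gcongr
      exact (T.1.le_opNorm _).trans (by gcongr; exact T.2)
    · rintro ⟨h1, h2, h3, h4, h5⟩
      let B0 : Y →ₗ[ℂ] (Y →L[ℂ] ℂ) →ₗ[ℂ] ℂ :=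
        LinearMap.mk₂ ℂ (fun x f => b (x, f)) h1 h2 h3 h4
      let B : Y →L[ℂ] (Y →L[ℂ] ℂ) →L[ℂ] ℂ := B0.mkContinuous₂ 1 h5
      have hB : ∀ x, ‖B x‖ ≤ 1 * ‖x‖ := fun x =>
        ContinuousLinearMap.opNorm_le_bound _ (by positivity) fun f => h5 x f
      let e : Y ≃ₗᵢ[ℂ] StrongDual ℂ (StrongDual ℂ Y) :=
        LinearIsometryEquiv.ofSurjective (NormedSpace.inclusionInDoubleDualLi ℂ) h
      let T : Y →L[ℂ] Y := (e.symm.toContinuousLinearEquiv : _ →L[ℂ] Y).comp B
      have hT : ‖T‖ ≤ 1 := by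
        refine ContinuousLinearMap.opNorm_le_bound _ zero_le_one fun x => ?_
        change ‖e.symm (B x)‖ ≤ _
        rw [e.symm.norm_map]
        exact hB x
      refine ⟨⟨T, hT⟩, Set.mem_univ _, ?_⟩
      funext p
      obtain ⟨x, f⟩ := p
      have : e (e.symm (B x)) f = B x f := by rw [e.apply_symm_apply]
      exact this
  rw [hS]
  have hcl : IsClosed S := by
    simp only [S, Set.ofPred_and, Set.ofPred_forall]
    refine IsClosed.inter ?_ (IsClosed.inter ?_ (IsClosed.inter ?_ (IsClosed.inter ?_ ?_)))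
    · exact isClosed_iInter fun x => isClosed_iInter fun y => isClosed_iInter fun f =>
        isClosed_eq (by fun_prop) (by fun_prop)
    · exact isClosed_iInter fun x => isClosed_iInter fun y => isClosed_iInter fun f =>
        isClosed_eq (by fun_prop) (by fun_prop)
    · exact isClosed_iInter fun x => isClosed_iInter fun y => isClosed_iInter fun f =>
        isClosed_eq (by fun_prop) (by fun_prop)
    · exact isClosed_iInter fun x => isClosed_iInter fun y => isClosed_iInter fun f =>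
        isClosed_eq (by fun_prop) (by fun_prop)
    · exact isClosed_iInter fun x => isClosed_iInter fun y =>
        isClosed_le (by fun_prop) (by fun_prop)
  refine (isCompact_univ_pi
    (s := fun p : Y × (Y →L[ℂ] ℂ) => Metric.closedBall (0 : ℂ) (1 * ‖p.1‖ * ‖p.2‖))
    fun p => isCompact_closedBall _ _).of_isClosed_subset hcl ?_
  intro b hb p _
  simpa using hb.2.2.2.2 p.1 p.2

end

end Pool.Agent.H190Z.WotK
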