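import Mathlib
import Pool.Agent.H190Z.WotK

set_option autoImplicit false

open Filter Topology

namespace Pool.Agent.H190Z.Stab

open Pool.Agent.H190Z.WotK

/-- the space: the `l2`-sum of two-dimensional spaces with the sup norm -/
abbrev X : Type := lp (fun _ : ℕ => ℂ × ℂ) 2

theorem X_reflexive : Function.Surjective (NormedSpace.inclusionInDoubleDual ℂ X) := by
  let H : Type := lp (fun _ : ℕ => WithLp 2 (ℂ × ℂ)) 2
  let φ : WithLp 2 (ℂ × ℂ) ≃L[ℂ] ℂ × ℂ := WithLp.prodContinuousLinearEquiv 2 ℂ ℂ ℂ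
  let a : H →L[ℂ] X := lp.mapCLM 2 (fun _ => (φ : WithLp 2 (ℂ × ℂ) →L[ℂ] ℂ × ℂ))
    (norm_nonneg _) (fun _ => le_rfl)
  let b : X →L[ℂ] H := lp.mapCLM 2 (fun _ => (φ.symm : ℂ × ℂ →L[ℂ] WithLp 2 (ℂ × ℂ)))
    (norm_nonneg _) (fun _ => le_rfl)
  let e : H ≃L[ℂ] X := ContinuousLinearEquiv.equivOfInverse a b
    (fun x => by
      apply lp.ext
      funext k
      exact φ.symm_apply_apply (x k))
    (fun x => by
      apply lp.ext
      funext k
      exact φ.apply_symm_apply (x k))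
  exact reflexive_transfer e (hilbert_reflexive H)

instance : CompactSpace (KW X) := compactSpace X_reflexive

/-- a vector supported in one block -/
noncomputable def sg (k : ℕ) : (ℂ × ℂ) →L[ℂ] X :=
  lp.singleContinuousLinearMap ℂ (fun _ : ℕ => ℂ × ℂ) 2 k

/-- evaluation at a block -/
noncomputable def ev (k : ℕ) : X →L[ℂ] (ℂ × ℂ) := lp.evalCLM ℂ (fun _ : ℕ => ℂ × ℂ) 2 k

theorem ev_apply (k : ℕ) (x : X) : ev k x = x k := rfl

theorem ev_sg (k j : ℕ) (v : ℂ × ℂ) : ev k (sg j v) = if k = j then v else 0 := by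
  change (lp.single 2 j v : X) k = _
  split_ifs with h
  · subst h; exact lp.single_apply_self _ _ _
  · exact lp.single_apply_ne _ _ _ h

theorem norm_sg (k : ℕ) (v : ℂ × ℂ) : ‖sg k v‖ = ‖v‖ :=
  lp.norm_single (p := 2) (E := fun _ : ℕ => ℂ × ℂ) (by norm_num) k v

theorem norm_ev_le (k : ℕ) (x : X) : ‖ev k x‖ ≤ ‖x‖ :=
  lp.norm_apply_le_norm (by norm_num) x k

theorem X_ext {x y : X} (h : ∀ k, ev k x = ev k y) : x = y := by
  apply lp.ext
  funext k
  exact h k

/-- projection on the first `N` blocks -/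
noncomputable def P (N : ℕ) : X →L[ℂ] X := ∑ k ∈ Finset.range N, (sg k).comp (ev k)

theorem P_apply (N : ℕ) (x : X) : P N x = ∑ k ∈ Finset.range N, sg k (ev k x) := by
  simp [P]

theorem ev_P (N k : ℕ) (x : X) : ev k (P N x) = if k < N then ev k x else 0 := by
  rw [P_apply, map_sum]
  simp only [ev_sg]
  rw [Finset.sum_ite_eq]
  simp

theorem hasSum_sq (x : X) : HasSum (fun k => ‖ev k x‖ ^ 2) (‖x‖ ^ 2) := by
  have := lp.hasSum_norm (p := 2) (by norm_num) x
  simpa [ev_apply] using this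

theorem norm_sq_of_supp (M : ℕ) (x : X) (h : ∀ k, M ≤ k → ev k x = 0) :
    ‖x‖ ^ 2 = ∑ k ∈ Finset.range M, ‖ev k x‖ ^ 2 := by
  refine (hasSum_sq x).unique (hasSum_sum_of_ne_finset_zero fun k hk => ?_)
  rw [h k (by simpa using hk)]
  simp

theorem sum_sq_le (M : ℕ) (x : X) : ∑ k ∈ Finset.range M, ‖ev k x‖ ^ 2 ≤ ‖x‖ ^ 2 :=
  sum_le_hasSum _ (fun _ _ => by positivity) (hasSum_sq x)

theorem norm_P_sq (N : ℕ) (x : X) : ‖P N x‖ ^ 2 = ∑ k ∈ Finset.range N, ‖ev k x‖ ^ 2 := by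
  rw [norm_sq_of_supp N _ (fun k hk => by rw [ev_P, if_neg (by omega)])]
  refine Finset.sum_congr rfl fun k hk => ?_
  rw [ev_P, if_pos (by simpa using hk)]

theorem norm_P_le (N : ℕ) (x : X) : ‖P N x‖ ≤ ‖x‖ := by
  have := sum_sq_le N x
  rw [← norm_P_sq] at this
  exact (pow_le_pow_iff_left₀ (norm_nonneg _) (norm_nonneg _) two_ne_zero).1 this

theorem pyth (N : ℕ) (x : X) : ‖x‖ ^ 2 = ‖P N x‖ ^ 2 + ‖x - P N x‖ ^ 2 := by
  refine (hasSum_sq x).unique ?_
  convert (hasSum_sq (P N x)).add (hasSum_sq (x - P N x)) using 2 with k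
  rw [map_sub, ev_P]
  split_ifs <;> simp

theorem P_P (N : ℕ) (x : X) : P N (P N x) = P N x := by
  refine X_ext fun k => ?_
  rw [ev_P, ev_P]
  split_ifs <;> rfl

theorem P_eq_of_supp (M : ℕ) (x : X) (h : ∀ k, M ≤ k → ev k x = 0) : P M x = x := by
  refine X_ext fun k => ?_
  rw [ev_P]
  split_ifs with hk
  · rfl
  · exact (h k (by omega)).symm

theorem tendsto_P (x : X) : Tendsto (fun N => P N x) atTop (𝓝 x) := by
  have := (lp.hasSum_single (p := 2) (by norm_num) x).tendsto_sum_nat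
  refine this.congr fun N => ?_
  rw [P_apply]
  rfl

theorem continuous_ev (k : ℕ) (x : X) : Continuous fun T : KW X => ev k (T.1 x) := by
  refine continuous_prodMk.2 ⟨?_, ?_⟩
  · exact continuous_coef x ((ContinuousLinearMap.fst ℂ ℂ ℂ).comp (ev k))
  · exact continuous_coef x ((ContinuousLinearMap.snd ℂ ℂ ℂ).comp (ev k))

theorem continuous_P (M : ℕ) (x : X) : Continuous fun T : KW X => P M (T.1 x) := by
  simp only [P_apply]
  exact continuous_finsetSum _ fun k _ => (sg k).continuous.comp (continuous_ev k x)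

theorem contr (T : KW X) (x : X) : ‖T.1 x‖ ≤ ‖x‖ :=
  (T.1.le_opNorm x).trans (by simpa using mul_le_mul_of_nonneg_right T.2 (norm_nonneg x))

theorem contr_pow (T : KW X) (n : ℕ) (x : X) : ‖(T.1 ^ n) x‖ ≤ ‖x‖ := by
  induction n with
  | zero => simp
  | succ n ih =>
    rw [pow_succ']
    exact (contr T _).trans ih

/-- asymptotic Pythagoras -/
theorem asym (T0 : KW X) (x : X) (M : ℕ) (h : P M (T0.1 x) = T0.1 x) {θ : ℝ} (hθ : 0 < θ) :
    ∀ᶠ T : KW X in 𝓝 T0, ‖T0.1 x‖ ^ 2 + ‖T.1 x - T0.1 x‖ ^ 2 ≤ ‖x‖ ^ 2 + θ := by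
  have hc : Continuous fun T : KW X =>
      ‖T0.1 x‖ ^ 2 - ‖P M (T.1 x)‖ ^ 2 + ‖P M (T.1 x) - T0.1 x‖ ^ 2 := by
    have := continuous_P M x
    fun_prop
  have h0 : (fun T : KW X =>
      ‖T0.1 x‖ ^ 2 - ‖P M (T.1 x)‖ ^ 2 + ‖P M (T.1 x) - T0.1 x‖ ^ 2) T0 < θ := by
    simp only [h]
    simpa using hθ
  filter_upwards [hc.continuousAt.eventually_lt continuousAt_const h0] with T hT
  have h1 := pyth M (T.1 x)
  have h2 := pyth M (T.1 x - T0.1 x)
  rw [map_sub, h, show T.1 x - T0.1 x - (P M (T.1 x) - T0.1 x) = T.1 x - P M (T.1 x) by abel] at h2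
  have h3 : ‖T.1 x‖ ^ 2 ≤ ‖x‖ ^ 2 := by
    have := contr T x
    gcongr
  linarith

/-- basis vectors -/
noncomputable def e (b : Bool) (k : ℕ) : X := sg k (cond b (1, 0) (0, 1))

theorem norm_e (b : Bool) (k : ℕ) : ‖e b k‖ = 1 := by
  rw [e, norm_sg]
  cases b <;> simp [Prod.norm_def]

theorem sg_eq (k : ℕ) (v : ℂ × ℂ) : sg k v = v.1 • e true k + v.2 • e false k := by
  rw [e, e, ← map_smul, ← map_smul, ← map_add]
  congr 1
  ext <;> simp

theorem P_e (N k : ℕ) (b : Bool) (hk : k < N) : P N (e b k) = e b k :=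
  P_eq_of_supp _ _ fun j hj => by rw [e, ev_sg, if_neg (by omega)]

theorem norm_le_of_basis (S : X →L[ℂ] X) (N : ℕ) {c : ℝ}
    (h : ∀ k < N, ∀ b, ‖S (e b k)‖ ≤ c) (x : X) : ‖S (P N x)‖ ≤ 2 * N * c * ‖x‖ := by
  rw [P_apply, map_sum]
  refine (norm_sum_le _ _).trans ?_
  have : ∀ k ∈ Finset.range N, ‖S (sg k (ev k x))‖ ≤ 2 * c * ‖x‖ := by
    intro k hk
    have hk' : k < N := by simpa using hk
    rw [sg_eq, map_add, map_smul, map_smul]
    refine (norm_add_le _ _).trans ?_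
    rw [norm_smul, norm_smul]
    have h1 : ‖(ev k x).1‖ ≤ ‖x‖ := (norm_fst_le _).trans (norm_ev_le k x)
    have h2 : ‖(ev k x).2‖ ≤ ‖x‖ := (norm_snd_le _).trans (norm_ev_le k x)
    have h3 := h k hk' true
    have h4 := h k hk' false
    have h5 : ‖(ev k x).1‖ * ‖S (e true k)‖ ≤ ‖x‖ * c := by gcongr
    have h6 : ‖(ev k x).2‖ * ‖S (e false k)‖ ≤ ‖x‖ * c := by gcongr
    linarith
  refine (Finset.sum_le_sum this).trans ?_
  simp only [Finset.sum_const, Finset.card_range, nsmul_eq_mul]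
  apply le_of_eq
  ring

theorem ext_basis {S T : X →L[ℂ] X} (h : ∀ b k, S (e b k) = T (e b k)) : S = T := by
  ext1 x
  have h1 : ∀ N, S (P N x) = T (P N x) := by
    intro N
    have := norm_le_of_basis (S - T) N (c := 0) (fun k _ b => by simp [h b k]) x
    rw [mul_zero, zero_mul] at this
    exact sub_eq_zero.1 (norm_le_zero_iff.1 this)
  have h2 := (S.continuous.tendsto x).comp (tendsto_P x)
  have h3 := (T.continuous.tendsto x).comp (tendsto_P x)
  exact tendsto_nhds_unique (h2.congr h1) h3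

/-- neighbourhoods are described by finitely many matrix entries -/
theorem nbhd (T1 : KW X) {U : Set (KW X)} (hU : U ∈ 𝓝 T1) :
    ∃ N : ℕ, ∀ T : KW X, (∀ k < N, ∀ j < N, ∀ b,
      ‖ev j (T.1 (e b k)) - ev j (T1.1 (e b k))‖ ≤ 1 / ((N : ℝ) + 1)) → T ∈ U := by
  by_contra hcon
  push Not at hcon
  let C : ℕ → Set (KW X) := fun N => (interior U)ᶜ ∩ {T | ∀ k < N, ∀ j < N, ∀ b,
      ‖ev j (T.1 (e b k)) - ev j (T1.1 (e b k))‖ ≤ 1 / ((N : ℝ) + 1)}
  have hcl : ∀ N, IsClosed (C N) := by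
    intro N
    refine isOpen_interior.isClosed_compl.inter ?_
    simp only [Set.ofPred_forall]
    refine isClosed_iInter fun k => isClosed_iInter fun _ => isClosed_iInter fun j =>
      isClosed_iInter fun _ => isClosed_iInter fun b => isClosed_le ?_ continuous_const
    have := continuous_ev j (e b k)
    fun_prop
  have hne : ∀ N, (C N).Nonempty := by
    intro N
    obtain ⟨T, hT, hT'⟩ := hcon N
    exact ⟨T, fun h => hT' (interior_subset h), hT⟩
  have hmono : ∀ N, C (N + 1) ⊆ C N := by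
    rintro N T ⟨h1, h2⟩
    refine ⟨h1, fun k hk j hj b => (h2 k (by omega) j (by omega) b).trans ?_⟩
    push_cast
    gcongr
    linarith
  obtain ⟨T, hT⟩ := IsCompact.nonempty_iInter_of_sequence_nonempty_isCompact_isClosed C hmono hne
    (hcl 0).isCompact hcl
  rw [Set.mem_iInter] at hT
  have hTT : T = T1 := by
    apply Subtype.ext
    refine ext_basis fun b k => X_ext fun j => ?_
    rw [← sub_eq_zero, ← norm_le_zero_iff]
    refine ge_of_tendsto tendsto_one_div_add_atTop_nhds_zero_nat ?_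
    filter_upwards [eventually_gt_atTop k, eventually_gt_atTop j] with N hk hj
    exact (hT N).2 k hk j hj b
  exact (hT 0).1 (hTT ▸ mem_interior_iff_mem_nhds.2 hU)

theorem separable : TopologicalSpace.SeparableSpace X := by
  rw [← TopologicalSpace.isSeparable_univ_iff]
  have h1 : TopologicalSpace.IsSeparable
      (Set.range fun p : Bool × ℕ => e p.1 p.2) := (Set.countable_range _).isSeparable
  refine (h1.span (R := ℂ)).closure.mono fun x _ => ?_
  refine mem_closure_of_tendsto (tendsto_P x) (Eventually.of_forall fun N => ?_)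
  rw [P_apply]
  refine Submodule.sum_mem _ fun k _ => ?_
  rw [sg_eq]
  exact Submodule.add_mem _
    (Submodule.smul_mem _ _ (Submodule.subset_span ⟨(true, k), rfl⟩))
    (Submodule.smul_mem _ _ (Submodule.subset_span ⟨(false, k), rfl⟩))

theorem not_finiteDimensional : ¬ FiniteDimensional ℂ X := by
  intro h
  have hli : LinearIndependent ℂ (e true) := by
    rw [linearIndependent_iff']
    intro s g hg i hi
    have := congrArg (fun x => (ev i x).1) hg
    simp only [map_sum, map_smul, e, ev_sg, map_zero, cond_true, smul_ite, smul_zero] at this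
    rw [Finset.sum_ite_eq, if_pos hi] at this
    simpa using this
  exact Module.Finite.not_linearIndependent_of_infinite _ hli

end Pool.Agent.H190Z.Stab
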