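import Mathlib
import Pool.Agent.H190Z.Stab1

set_option autoImplicit false

open Filter Topology

namespace Pool.Agent.H190Z.Stab

open Pool.Agent.H190Z.WotK

/-- admissible families of functionals -/
def Adm (A : X →L[ℂ] X) (N m : ℕ) (φ : ℕ → X →L[ℂ] ℂ) : Prop :=
  ∀ x, P N x = x → ‖A x‖ ^ 2 + ∑ j ∈ Finset.range m, ‖φ j x‖ ^ 2 ≤ ‖x‖ ^ 2

/-- the quantity that is nearly maximised -/
noncomputable def Psi (N m : ℕ) (φ : ℕ → X →L[ℂ] ℂ) : ℝ :=
  ∑ j ∈ Finset.range m, ∑ k ∈ Finset.range N, ∑ b : Bool, ‖φ j (e b k)‖ ^ 2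

theorem Psi_le {A : X →L[ℂ] X} {N m : ℕ} {φ : ℕ → X →L[ℂ] ℂ} (h : Adm A N m φ) :
    Psi N m φ ≤ 2 * N := by
  unfold Psi
  rw [Finset.sum_comm]
  have : ∀ k ∈ Finset.range N,
      ∑ j ∈ Finset.range m, ∑ b : Bool, ‖φ j (e b k)‖ ^ 2 ≤ 2 := by
    intro k hk
    rw [Finset.sum_comm]
    have h1 : ∀ b : Bool, ∑ j ∈ Finset.range m, ‖φ j (e b k)‖ ^ 2 ≤ 1 := by
      intro b
      have := h (e b k) (P_e N k b (by simpa using hk))
      rw [norm_e] at this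
      nlinarith [sq_nonneg ‖A (e b k)‖]
    rw [Fintype.sum_bool]
    linarith [h1 true, h1 false]
  refine (Finset.sum_le_sum this).trans ?_
  simp [mul_comm]

/-- the extension of `A` -/
noncomputable def ext0 (A : X →L[ℂ] X) (N m : ℕ) (φ : ℕ → X →L[ℂ] ℂ) : X →L[ℂ] X :=
  A + ∑ j ∈ Finset.range m, (sg (N + j)).comp
    (((ContinuousLinearMap.fst ℂ ℂ ℂ).comp (ev (N + j))).prod ((φ j).comp (P N)))

theorem ext0_apply (A : X →L[ℂ] X) (N m : ℕ) (φ : ℕ → X →L[ℂ] ℂ) (x : X) :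
    ext0 A N m φ x =
      A x + ∑ j ∈ Finset.range m, sg (N + j) ((ev (N + j) x).1, φ j (P N x)) := by
  simp [ext0]

section
variable {A : X →L[ℂ] X} {N m : ℕ} {φ : ℕ → X →L[ℂ] ℂ}

theorem ev_A (hA : ∀ x, P N (A x) = A x) (x : X) {k : ℕ} (hk : N ≤ k) : ev k (A x) = 0 := by
  rw [← hA, ev_P, if_neg (by omega)]

theorem ev_ext0_lt (x : X) {k : ℕ} (hk : k < N) : ev k (ext0 A N m φ x) = ev k (A x) := by
  rw [ext0_apply, map_add, map_sum]
  simp only [ev_sg]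
  rw [Finset.sum_eq_zero (fun j _ => if_neg (by omega)), add_zero]

theorem ev_ext0_mid (hA : ∀ x, P N (A x) = A x) (x : X) {j : ℕ} (hj : j < m) :
    ev (N + j) (ext0 A N m φ x) = ((ev (N + j) x).1, φ j (P N x)) := by
  rw [ext0_apply, map_add, map_sum, ev_A hA x (by omega), zero_add]
  simp only [ev_sg]
  rw [Finset.sum_eq_single j (fun i _ hi => if_neg (by omega))
    (fun h => absurd (Finset.mem_range.2 hj) h), if_pos rfl]

theorem ev_ext0_ge (hA : ∀ x, P N (A x) = A x) (x : X) {k : ℕ} (hk : N + m ≤ k) :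
    ev k (ext0 A N m φ x) = 0 := by
  rw [ext0_apply, map_add, map_sum, ev_A hA x (by omega), zero_add]
  simp only [ev_sg]
  refine Finset.sum_eq_zero (fun j hj => if_neg ?_)
  have := Finset.mem_range.1 hj
  omega

theorem norm_ext0_sq (hA : ∀ x, P N (A x) = A x) (x : X) :
    ‖ext0 A N m φ x‖ ^ 2 =
      ‖A x‖ ^ 2 + ∑ j ∈ Finset.range m, ‖((ev (N + j) x).1, φ j (P N x))‖ ^ 2 := by
  rw [norm_sq_of_supp (N + m) _ (fun k hk => ev_ext0_ge hA x hk), Finset.sum_range_add,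
    norm_sq_of_supp N (A x) (fun k hk => ev_A hA x hk)]
  congr 1
  · exact Finset.sum_congr rfl fun k hk => by rw [ev_ext0_lt x (Finset.mem_range.1 hk)]
  · exact Finset.sum_congr rfl fun k hk => by rw [ev_ext0_mid hA x (Finset.mem_range.1 hk)]

theorem norm_pair_sq (a b : ℂ) : ‖(a, b)‖ ^ 2 ≤ ‖a‖ ^ 2 + ‖b‖ ^ 2 := by
  rw [Prod.norm_def]
  rcases le_total ‖a‖ ‖b‖ with h | h
  · simp only [max_eq_right h]; nlinarith [sq_nonneg ‖a‖]
  · simp only [max_eq_left h]; nlinarith [sq_nonneg ‖b‖]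

theorem norm_ext0_le (hA : ∀ x, P N (A x) = A x) (hA' : ∀ x, A (P N x) = A x)
    (h : Adm A N m φ) : ‖ext0 A N m φ‖ ≤ 1 := by
  refine ContinuousLinearMap.opNorm_le_bound _ zero_le_one fun x => ?_
  rw [one_mul]
  refine (pow_le_pow_iff_left₀ (norm_nonneg _) (norm_nonneg _) two_ne_zero).1 ?_
  rw [norm_ext0_sq hA]
  have h1 := h (P N x) (P_P N x)
  rw [hA', norm_P_sq] at h1
  have h2 := sum_sq_le (N + m) x
  rw [Finset.sum_range_add] at h2
  have h3 : ∑ j ∈ Finset.range m, ‖((ev (N + j) x).1, φ j (P N x))‖ ^ 2 ≤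
      ∑ j ∈ Finset.range m, (‖ev (N + j) x‖ ^ 2 + ‖φ j (P N x)‖ ^ 2) := by
    refine Finset.sum_le_sum fun j _ => (norm_pair_sq _ _).trans ?_
    have := norm_fst_le (ev (N + j) x)
    gcongr
  rw [Finset.sum_add_distrib] at h3
  linarith

theorem norm_ext0_sq_F (hA : ∀ x, P N (A x) = A x) (x : X) (hx : P N x = x) :
    ‖ext0 A N m φ x‖ ^ 2 = ‖A x‖ ^ 2 + ∑ j ∈ Finset.range m, ‖φ j x‖ ^ 2 := by
  rw [norm_ext0_sq hA]
  congr 1
  refine Finset.sum_congr rfl fun j _ => ?_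
  have : ev (N + j) x = 0 := by rw [← hx, ev_P, if_neg (by omega)]
  rw [this, hx]
  simp [Prod.norm_def]

theorem ext0_sub_F (x : X) (hx : P N x = x) :
    ext0 A N m φ x - A x = ∑ j ∈ Finset.range m, φ j x • e false (N + j) := by
  rw [ext0_apply, add_sub_cancel_left]
  refine Finset.sum_congr rfl fun j _ => ?_
  have : ev (N + j) x = 0 := by rw [← hx, ev_P, if_neg (by omega)]
  rw [this, hx, sg_eq]
  simp

theorem P_ext0 (hA : ∀ x, P N (A x) = A x) (x : X) :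
    P (N + m) (ext0 A N m φ x) = ext0 A N m φ x :=
  P_eq_of_supp _ _ fun _ hk => ev_ext0_ge hA x hk

theorem ext0_sg (hA' : ∀ x, A (P N x) = A x) {j : ℕ} (hj : j < m) (c : ℂ) :
    ext0 A N m φ (sg (N + j) (1, c)) = e true (N + j) := by
  have h0 : P N (sg (N + j) (1, c)) = 0 := by
    refine X_ext fun k => ?_
    rw [ev_P, ev_sg, map_zero]
    split_ifs with h1 h2
    · omega
    · rfl
    · rfl
  rw [ext0_apply, ← hA', h0, map_zero, zero_add,
    Finset.sum_eq_single j _ (fun h => absurd (Finset.mem_range.2 hj) h)]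
  · rw [ev_sg, if_pos rfl, map_zero]
    rfl
  · intro i _ hi
    rw [ev_sg, if_neg (by omega), map_zero]
    exact map_zero (sg (N + i))

/-- near the extension, the kernel directions have small image -/
theorem small_ker (hA : ∀ x, P N (A x) = A x) (hA' : ∀ x, A (P N x) = A x) (T0 : KW X)
    (hT0 : T0.1 = ext0 A N m φ) {j : ℕ} (hj : j < m) {η : ℝ} (hη : 0 < η) :
    ∀ᶠ T : KW X in 𝓝 T0, ‖T.1 (e false (N + j))‖ ≤ η := by
  have key : ∀ c : ℂ, ‖c‖ = 1 →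
      ∀ᶠ T : KW X in 𝓝 T0, ‖T.1 (sg (N + j) (1, c)) - e true (N + j)‖ ≤ η := by
    intro c hc
    have := asym T0 (sg (N + j) (1, c)) (N + m) (by rw [hT0]; exact P_ext0 hA _)
      (θ := η ^ 2) (by positivity)
    filter_upwards [this] with T hT
    rw [hT0, ext0_sg hA' hj, norm_e, norm_sg] at hT
    have h1 : ‖((1 : ℂ), c)‖ = 1 := by simp [Prod.norm_def, hc]
    rw [h1] at hT
    exact (pow_le_pow_iff_left₀ (norm_nonneg _) hη.le two_ne_zero).1 (by linarith)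
  filter_upwards [key 1 (by simp), key (-1) (by simp)] with T h1 h2
  have h3 : (2 : ℂ) • T.1 (e false (N + j)) =
      (T.1 (sg (N + j) (1, 1)) - e true (N + j)) - (T.1 (sg (N + j) (1, -1)) - e true (N + j)) := by
    rw [sub_sub_sub_cancel_right, ← map_sub, ← map_sub, ← map_smul, e, ← map_smul]
    congr 2
    ext <;> simp
    norm_num
  have h4 := norm_sub_le (T.1 (sg (N + j) (1, 1)) - e true (N + j))
    (T.1 (sg (N + j) (1, -1)) - e true (N + j))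
  rw [← h3, norm_smul] at h4
  have h5 : ‖(2 : ℂ)‖ = 2 := by simp
  rw [h5] at h4
  linarith

/-- if contractions near the extension are not close in norm on a basis vector, one more
functional can be added -/
theorem add_functional (hA : ∀ x, P N (A x) = A x) (T0 : KW X)
    (hT0 : T0.1 = ext0 A N m φ) (y : X) {η : ℝ}
    (h : ∃ᶠ T : KW X in 𝓝 T0, η ≤ ‖T.1 y - T0.1 y‖) :
    ∃ ψ : X →L[ℂ] ℂ, η ≤ ‖ψ y‖ ∧
      ∀ x, P N x = x → ‖A x‖ ^ 2 + ∑ j ∈ Finset.range m, ‖φ j x‖ ^ 2 + ‖ψ x‖ ^ 2 ≤ ‖x‖ ^ 2 := by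
  have hne : (𝓝 T0 ⊓ 𝓟 {T : KW X | η ≤ ‖T.1 y - T0.1 y‖}).NeBot := frequently_iff_neBot.1 h
  obtain ⟨U, hU0⟩ := Filter.exists_ultrafilter_le
    (𝓝 T0 ⊓ 𝓟 {T : KW X | η ≤ ‖T.1 y - T0.1 y‖})
  have hU : (U : Filter (KW X)) ≤ 𝓝 T0 := hU0.trans inf_le_left
  have hU' : ∀ᶠ T in (U : Filter (KW X)), η ≤ ‖T.1 y - T0.1 y‖ :=
    le_principal_iff.1 (hU0.trans inf_le_right)
  choose g hg1 hg2 using fun T : KW X => exists_dual_vector'' ℂ (T.1 y - T0.1 y)
  have hb : ∀ (T : KW X) (x : X), ‖g T (T.1 x - T0.1 x)‖ ≤ ‖T.1 x - T0.1 x‖ := fun T x =>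
    ((g T).le_opNorm _).trans (by simpa using mul_le_mul_of_nonneg_right (hg1 T) (norm_nonneg _))
  have hb2 : ∀ (T : KW X) (x : X), ‖g T (T.1 x - T0.1 x)‖ ≤ 2 * ‖x‖ := fun T x => by
    have := norm_sub_le (T.1 x) (T0.1 x)
    linarith [hb T x, contr T x, contr T0 x]
  have hlim : ∀ x : X, ∃ c : ℂ,
      Tendsto (fun T : KW X => g T (T.1 x - T0.1 x)) (U : Filter (KW X)) (𝓝 c) := by
    intro x
    obtain ⟨c, -, hc⟩ := (isCompact_closedBall (0 : ℂ) (2 * ‖x‖)).ultrafilter_le_nhds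
      (U.map fun T : KW X => g T (T.1 x - T0.1 x)) (by
        rw [le_principal_iff]
        exact Filter.mem_map.2 (Eventually.of_forall fun T => by simpa using hb2 T x))
    exact ⟨c, hc⟩
  choose c hc using hlim
  let ψ0 : X →ₗ[ℂ] ℂ :=
    { toFun := c
      map_add' := fun a b => by
        refine tendsto_nhds_unique (hc (a + b)) (((hc a).add (hc b)).congr fun T => ?_)
        rw [← map_add, map_add T.1, map_add T0.1]
        congr 1
        abel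
      map_smul' := fun r a => by
        refine tendsto_nhds_unique (hc (r • a)) (((hc a).const_smul r).congr fun T => ?_)
        rw [← map_smul, map_smul T.1, map_smul T0.1, smul_sub] }
  let ψ : X →L[ℂ] ℂ := ψ0.mkContinuous 2 fun x =>
    le_of_tendsto' (hc x).norm fun T => hb2 T x
  refine ⟨ψ, ?_, fun x hx => ?_⟩
  · refine ge_of_tendsto (hc y).norm ?_
    filter_upwards [hU'] with T hT
    rw [hg2]
    simpa using hT
  · rw [← norm_ext0_sq_F hA x hx, ← hT0]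
    refine le_of_forall_pos_le_add fun θ hθ => ?_
    have h1 := hU (asym T0 x (N + m) (by rw [hT0]; exact P_ext0 hA _) hθ)
    have h2 : Tendsto (fun T : KW X => ‖T0.1 x‖ ^ 2 + ‖g T (T.1 x - T0.1 x)‖ ^ 2)
        (U : Filter (KW X)) (𝓝 (‖T0.1 x‖ ^ 2 + ‖ψ x‖ ^ 2)) :=
      tendsto_const_nhds.add ((hc x).norm.pow 2)
    refine le_of_tendsto h2 ?_
    filter_upwards [h1] with T hT
    have h3 := hb T x
    have h4 : ‖g T (T.1 x - T0.1 x)‖ ^ 2 ≤ ‖T.1 x - T0.1 x‖ ^ 2 := by gcongr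
    have hT' : ‖T0.1 x‖ ^ 2 + ‖T.1 x - T0.1 x‖ ^ 2 ≤ ‖x‖ ^ 2 + θ := hT
    linarith

/-- a nearly maximal extension -/
theorem exists_nearly_max (hA : ∀ x, P N (A x) = A x) (hA' : ∀ x, A (P N x) = A x)
    (hAn : ∀ x, ‖A x‖ ≤ ‖x‖) {η : ℝ} (hη : 0 < η) :
    ∃ (m : ℕ) (φ : ℕ → X →L[ℂ] ℂ) (T0 : KW X), Adm A N m φ ∧ T0.1 = ext0 A N m φ ∧
      ∀ᶠ T : KW X in 𝓝 T0, ∀ k < N, ∀ b, ‖T.1 (e b k) - T0.1 (e b k)‖ ≤ η := by
  let S : Set ℝ := {s | ∃ m φ, Adm A N m φ ∧ s = Psi N m φ}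
  have hne : S.Nonempty := by
    refine ⟨_, 0, fun _ => 0, fun x _ => ?_, rfl⟩
    have := hAn x
    simp only [Finset.range_zero, Finset.sum_empty, add_zero]
    gcongr
  have hbdd : BddAbove S := ⟨2 * N, by rintro s ⟨m, φ, h, rfl⟩; exact Psi_le h⟩
  obtain ⟨s, ⟨m, φ, hadm, rfl⟩, hs⟩ := exists_lt_of_lt_csSup hne
    (show sSup S - η ^ 2 < sSup S by linarith [pow_pos hη 2])
  let T0 : KW X := ⟨ext0 A N m φ, norm_ext0_le hA hA' hadm⟩
  refine ⟨m, φ, T0, hadm, rfl, ?_⟩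
  have key : ∀ k < N, ∀ b, ∀ᶠ T : KW X in 𝓝 T0, ‖T.1 (e b k) - T0.1 (e b k)‖ ≤ η := by
    intro k hk b
    by_contra hcon
    have h1 : ∃ᶠ T : KW X in 𝓝 T0, η ≤ ‖T.1 (e b k) - T0.1 (e b k)‖ :=
      (not_eventually.1 hcon).mono fun T hT => (not_le.1 hT).le
    obtain ⟨ψ, hψ1, hψ2⟩ := add_functional (m := m) (φ := φ) hA T0 rfl (e b k) h1
    let φ' : ℕ → X →L[ℂ] ℂ := fun j => Nat.casesOn j ψ φ
    have hadm' : Adm A N (m + 1) φ' := by
      intro x hx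
      rw [Finset.sum_range_succ', ← add_assoc]
      exact hψ2 x hx
    have h2 : Psi N (m + 1) φ' ≤ sSup S := le_csSup hbdd ⟨m + 1, φ', hadm', rfl⟩
    have h3 : Psi N (m + 1) φ' =
        Psi N m φ + ∑ k ∈ Finset.range N, ∑ b : Bool, ‖ψ (e b k)‖ ^ 2 := by
      unfold Psi
      rw [Finset.sum_range_succ']
      rfl
    have h4 : ‖ψ (e b k)‖ ^ 2 ≤ ∑ k ∈ Finset.range N, ∑ b : Bool, ‖ψ (e b k)‖ ^ 2 := by
      refine le_trans ?_ (Finset.single_le_sum (f := fun k => ∑ b : Bool, ‖ψ (e b k)‖ ^ 2)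
        (fun _ _ => by positivity) (Finset.mem_range.2 hk))
      exact Finset.single_le_sum (f := fun b => ‖ψ (e b k)‖ ^ 2)
        (fun _ _ => by positivity) (Finset.mem_univ b)
    have h5 : η ^ 2 ≤ ‖ψ (e b k)‖ ^ 2 := by gcongr
    linarith
  have := (Finset.range N).eventually_all.2 fun k hk =>
    eventually_all.2 fun b => key k (Finset.mem_range.1 hk) b
  filter_upwards [this] with T hT k hk b
  exact hT k (Finset.mem_range.2 hk) b

end

end Pool.Agent.H190Z.Stab
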