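import Mathlib
import Pool.Agent.H190Z.Stab2

set_option autoImplicit false

open Filter Topology

namespace Pool.Agent.H190Z.Stab

open Pool.Agent.H190Z.WotK

/-- power estimate from the two approximate relations -/
theorem pow_bound (T : KW X) (A B : X →L[ℂ] X) (N : ℕ) {r η : ℝ} (hr0 : 0 ≤ r) (hr : r < 1)
    (hη : 0 ≤ η) (hA : ∀ x, P N (A x) = A x) (hAr : ∀ x, ‖A x‖ ≤ r * ‖x‖)
    (h1 : ∀ x, P N x = x → ‖T.1 x - A x - B x‖ ≤ η * ‖x‖)
    (h2 : ∀ x, P N x = x → ‖T.1 (B x)‖ ≤ η * ‖x‖) (n : ℕ) :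
    ∀ x, P N x = x → ‖(T.1 ^ (n + 1)) x‖ ≤ (r ^ n + 2 * η / (1 - r)) * ‖x‖ := by
  have hr' : 0 < 1 - r := by linarith
  have hq : 0 ≤ 2 * η / (1 - r) := by positivity
  induction n with
  | zero =>
    intro x _
    have := contr_pow T (0 + 1) x
    rw [pow_zero]
    nlinarith [norm_nonneg x]
  | succ n ih =>
    intro x hx
    have e1 : (T.1 ^ (n + 1 + 1)) x = (T.1 ^ (n + 1)) (A x) + (T.1 ^ n) (T.1 (B x)) +
        (T.1 ^ (n + 1)) (T.1 x - A x - B x) := by
      have e2 : (T.1 ^ n) (T.1 (B x)) = (T.1 ^ (n + 1)) (B x) := by rw [pow_succ]; rfl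
      have e3 : (T.1 ^ (n + 1 + 1)) x = (T.1 ^ (n + 1)) (T.1 x) := by rw [pow_succ _ (n + 1)]; rfl
      rw [e2, e3, ← map_add, ← map_add]
      congr 1
      abel
    have b1 := ih (A x) (hA x)
    have b2 := (contr_pow T n (T.1 (B x))).trans (h2 x hx)
    have b3 := (contr_pow T (n + 1) (T.1 x - A x - B x)).trans (h1 x hx)
    have b4 : (r ^ n + 2 * η / (1 - r)) * ‖A x‖ ≤ (r ^ n + 2 * η / (1 - r)) * (r * ‖x‖) := by
      have := hAr x
      gcongr
    have b5 : (r ^ n + 2 * η / (1 - r)) * (r * ‖x‖) + η * ‖x‖ + η * ‖x‖ =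
        (r ^ (n + 1) + 2 * η / (1 - r)) * ‖x‖ := by
      field_simp
      ring
    rw [e1]
    refine (norm_add₃_le).trans ?_
    linarith

theorem dense_good (b : Bool) (k : ℕ) {ε : ℝ} (hε : 0 < ε) :
    Dense (interior {T : KW X | ∃ n, ‖(T.1 ^ n) (e b k)‖ < ε}) := by
  intro T1
  rw [mem_closure_iff_nhds]
  intro U hU
  obtain ⟨N0, hN0⟩ := nbhd T1 hU
  let N := max N0 (k + 1)
  have hkN : k < N := lt_of_lt_of_le (Nat.lt_succ_self k) (le_max_right _ _)
  have hN0N : N0 ≤ N := le_max_left _ _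
  let r : ℝ := 1 - 1 / ((N0 : ℝ) + 1)
  have hpos : (0 : ℝ) < 1 / ((N0 : ℝ) + 1) := by positivity
  have hle : 1 / ((N0 : ℝ) + 1) ≤ 1 := by
    rw [div_le_one (by positivity)]
    linarith [Nat.cast_nonneg (α := ℝ) N0]
  have hr0 : 0 ≤ r := by simp only [r]; linarith
  have hr : r < 1 := by simp only [r]; linarith
  have hr' : 0 < 1 - r := by linarith
  let A : X →L[ℂ] X := (r : ℂ) • ((P N).comp (T1.1.comp (P N)))
  have hAx : ∀ x, A x = (r : ℂ) • P N (T1.1 (P N x)) := fun x => rfl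
  have hA : ∀ x, P N (A x) = A x := fun x => by rw [hAx, map_smul, P_P]
  have hA' : ∀ x, A (P N x) = A x := fun x => by rw [hAx, hAx, P_P]
  have hAr : ∀ x, ‖A x‖ ≤ r * ‖x‖ := fun x => by
    rw [hAx, norm_smul, Complex.norm_real, Real.norm_of_nonneg hr0]
    have := ((norm_P_le N _).trans (contr T1 _)).trans (norm_P_le N x)
    gcongr
  have hAn : ∀ x, ‖A x‖ ≤ ‖x‖ := fun x => (hAr x).trans (by nlinarith [norm_nonneg x])
  let η : ℝ := ε * (1 - r) / 8
  have hη : 0 < η := by positivity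
  obtain ⟨m, φ, T0, hadm, hT0, hev⟩ := exists_nearly_max (N := N) hA hA' hAn
    (η := η / (2 * N + 1)) (by positivity)
  have hker : ∀ᶠ T : KW X in 𝓝 T0, ∀ j ∈ Finset.range m,
      ‖T.1 (e false (N + j))‖ ≤ η / (m + 1) :=
    (Finset.range m).eventually_all.2 fun j hj =>
      small_ker hA hA' T0 hT0 (Finset.mem_range.1 hj) (by positivity)
  obtain ⟨n, hn⟩ := exists_pow_lt_of_lt_one (show 0 < ε / 2 by positivity) hr
  refine ⟨T0, hN0 T0 fun i hi j hj c => ?_, mem_interior_iff_mem_nhds.2 ?_⟩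
  · rw [hT0, ev_ext0_lt _ (by omega), hAx, P_e N i c (by omega), map_smul, ev_P,
      if_pos (by omega)]
    have h1 : (r : ℂ) • ev j (T1.1 (e c i)) - ev j (T1.1 (e c i)) =
        ((-(1 / ((N0 : ℝ) + 1)) : ℝ) : ℂ) • ev j (T1.1 (e c i)) := by
      simp only [r]
      push_cast
      rw [sub_smul, one_smul, neg_smul]
      abel
    rw [h1, norm_smul, Complex.norm_real, norm_neg, Real.norm_of_nonneg hpos.le]
    have h2 : ‖ev j (T1.1 (e c i))‖ ≤ 1 :=
      (norm_ev_le _ _).trans ((contr T1 _).trans (norm_e c i).le)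
    nlinarith
  · filter_upwards [hev, hker] with T hT1 hT2
    refine ⟨n + 1, ?_⟩
    have key := pow_bound T A (T0.1 - A) N hr0 hr hη.le hA hAr ?_ ?_ n (e b k) (P_e N k b hkN)
    · rw [norm_e, mul_one] at key
      have : 2 * η / (1 - r) = ε / 4 := by
        simp only [η]
        field_simp
        ring
      rw [this] at key
      linarith
    · intro x hx
      have h1 := norm_le_of_basis (T.1 - T0.1) N (c := η / (2 * N + 1))
        (fun i hi c => hT1 i hi c) x
      rw [hx] at h1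
      have h2 : T.1 x - A x - (T0.1 - A) x = (T.1 - T0.1) x := by
        simp
      rw [h2]
      refine h1.trans ?_
      have h3 : 2 * (N : ℝ) * (η / (2 * N + 1)) ≤ η := by
        rw [mul_div_assoc', div_le_iff₀ (by positivity)]
        nlinarith
      gcongr
    · intro x hx
      have h1 : (T0.1 - A) x = ∑ j ∈ Finset.range m, φ j x • e false (N + j) := by
        rw [← ext0_sub_F (A := A) x hx, hT0]
        rfl
      rw [h1, map_sum]
      refine (norm_sum_le _ _).trans ?_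
      have h2 : ∀ j ∈ Finset.range m,
          ‖T.1 (φ j x • e false (N + j))‖ ≤ ‖x‖ * (η / (m + 1)) := by
        intro j hj
        rw [map_smul, norm_smul]
        have h3 : ‖φ j x‖ ^ 2 ≤ ‖x‖ ^ 2 := by
          have h4 := hadm x hx
          have h5 := Finset.single_le_sum (f := fun j => ‖φ j x‖ ^ 2)
            (fun _ _ => by positivity) hj
          nlinarith [sq_nonneg ‖A x‖]
        have h6 : ‖φ j x‖ ≤ ‖x‖ :=
          (pow_le_pow_iff_left₀ (norm_nonneg _) (norm_nonneg _) two_ne_zero).1 h3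
        have h7 := hT2 j hj
        gcongr
      refine (Finset.sum_le_sum h2).trans ?_
      simp only [Finset.sum_const, Finset.card_range, nsmul_eq_mul]
      have h3 : (m : ℝ) * (η / (m + 1)) ≤ η := by
        rw [mul_div_assoc', div_le_iff₀ (by positivity)]
        nlinarith
      calc (m : ℝ) * (‖x‖ * (η / (m + 1))) = (m * (η / (m + 1))) * ‖x‖ := by ring
        _ ≤ η * ‖x‖ := by gcongr

/-- the strongly stable contractions are residual -/
theorem residual_strong :
    {T : KW X | ∀ x, Tendsto (fun n : ℕ => (T.1 ^ n) x) atTop (𝓝 0)} ∈ residual (KW X) := by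
  have h1 : (⋂ p : Bool × ℕ × ℕ,
      interior {T : KW X | ∃ n, ‖(T.1 ^ n) (e p.1 p.2.1)‖ < 1 / ((p.2.2 : ℝ) + 1)}) ∈
      residual (KW X) :=
    countable_iInter_mem.2 fun p =>
      residual_of_dense_open isOpen_interior (dense_good _ _ (by positivity))
  refine mem_of_superset h1 fun T hT => ?_
  rw [Set.mem_iInter] at hT
  have h2 : ∀ b k, Tendsto (fun n : ℕ => (T.1 ^ n) (e b k)) atTop (𝓝 0) := by
    intro b k
    rw [NormedAddGroup.tendsto_nhds_zero]
    intro ε hε
    obtain ⟨q, hq⟩ := exists_nat_one_div_lt hε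
    obtain ⟨n, hn⟩ := interior_subset (hT (b, k, q))
    filter_upwards [eventually_ge_atTop n] with j hj
    obtain ⟨i, rfl⟩ := Nat.exists_eq_add_of_le' hj
    rw [pow_add]
    exact lt_of_le_of_lt (contr_pow T i _) (hn.trans hq)
  have h3 : ∀ N x, Tendsto (fun n : ℕ => (T.1 ^ n) (P N x)) atTop (𝓝 0) := by
    intro N x
    simp only [P_apply, map_sum]
    rw [← Finset.sum_const_zero (s := Finset.range N)]
    refine tendsto_finsetSum _ fun k _ => ?_
    simp only [sg_eq k, map_add, map_smul]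
    simpa using ((h2 true k).const_smul (ev k x).1).add ((h2 false k).const_smul (ev k x).2)
  intro x
  rw [NormedAddGroup.tendsto_nhds_zero]
  intro ε hε
  obtain ⟨N, hN⟩ := (Metric.tendsto_nhds.1 (tendsto_P x) (ε / 2) (by positivity)).exists
  filter_upwards [NormedAddGroup.tendsto_nhds_zero.1 (h3 N x) (ε / 2) (by positivity)] with n hn
  have h4 : (T.1 ^ n) x = (T.1 ^ n) (P N x) - (T.1 ^ n) (P N x - x) := by
    rw [← map_sub]; congr 1; abel
  have h5 := contr_pow T n (P N x - x)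
  rw [dist_eq_norm] at hN
  rw [h4]
  refine lt_of_le_of_lt (norm_sub_le _ _) ?_
  linarith

theorem not_meagre : ¬ IsMeagre {T : KW X | ∀ (x : X) (f : X →L[ℂ] ℂ),
    Tendsto (fun n : ℕ => f ((T.1 ^ n) x)) atTop (𝓝 0)} := by
  intro h
  have h1 := inter_mem residual_strong h
  obtain ⟨T, hT1, hT2⟩ := (dense_of_mem_residual h1).nonempty
  refine hT2 fun x f => ?_
  have h2 := (f.continuous.tendsto 0).comp (hT1 x)
  rw [map_zero] at h2
  exact h2

end Pool.Agent.H190Z.Stab
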